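import Pool.Agent.Lib.MP_9abc2e_lc.TW.Out

/-!
# TW: chains
-/

set_option autoImplicit false

namespace Tw

open Few

variable {p n : ℕ}

/-- A decreasing chain of sets `A 0 = cube, .., A R = ∅` with outer approximations for all `t`, such
that `f` is `true` on `A i \ A (i + 1)` for even `i` and `false` for odd `i`. -/
def Ch (p : ℕ) {n : ℕ} (f : Cube n → Bool) (R : ℕ) (D : ℕ → ℕ) (W : ℕ) : Prop :=
  ∃ A : ℕ → Set (Cube n), A 0 = Set.univ ∧ A R = ∅ ∧ (∀ i, A (i + 1) ⊆ A i) ∧
    (∀ i x, x ∈ A i → x ∉ A (i + 1) → f x = decide (i % 2 = 0)) ∧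
    ∀ t, ∀ i ≤ R, Out p (D t) W t (A i)

/-- the mask with the number `2 ^ r - 1 - j` -/
def chMsk (r j : ℕ) : Fin r → Bool := fun i => (2 ^ r - 1 - j).testBit i

/-- the points `x` such that all `G i`, `i` in the mask, are true at `x` -/
def chT {r n : ℕ} (G : Fin r → Cube n → Bool) (j : ℕ) : Set (Cube n) :=
  {x | ∀ i, chMsk r j i = true → G i x = true}

/-- the intersection of the complements for the masks before `j` -/
def chE {r n : ℕ} (G : Fin r → Cube n → Bool) (j : ℕ) : Set (Cube n) :=
  ⋂ j' ∈ Finset.range j, (chT G j')ᶜ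

/-- the complement of `chT` and the points where the value is false -/
def chB {r n : ℕ} (G : Fin r → Cube n → Bool) (F : (Fin r → Bool) → Cube n → Bool) (j : ℕ) :
    Set (Cube n) :=
  (chT G j)ᶜ ∪ {x | F (chMsk r j) x = false}

theorem chE_zero {r : ℕ} (G : Fin r → Cube n → Bool) : chE G 0 = Set.univ := by
  unfold chE
  simp

theorem mem_chE {r : ℕ} (G : Fin r → Cube n → Bool) (j : ℕ) (x : Cube n) :
    x ∈ chE G j ↔ ∀ j' < j, x ∉ chT G j' := by
  unfold chE
  simp only [Set.mem_iInter, Finset.mem_range, Set.mem_compl_iff]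

theorem chE_succ {r : ℕ} (G : Fin r → Cube n → Bool) (j : ℕ) (x : Cube n) :
    x ∈ chE G (j + 1) ↔ x ∈ chE G j ∧ x ∉ chT G j := by
  rw [mem_chE, mem_chE]
  constructor
  · intro h
    exact ⟨fun j' hj' => h j' (hj'.trans (Nat.lt_succ_self j)), h j (Nat.lt_succ_self j)⟩
  · rintro ⟨h1, h2⟩ j' hj'
    rcases Nat.lt_succ_iff_lt_or_eq.1 hj' with h | h
    · exact h1 j' h
    · rw [h]
      exact h2

theorem chT_last {r : ℕ} (G : Fin r → Cube n → Bool) (x : Cube n) :
    x ∈ chT G (2 ^ r - 1) := by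
  intro i hi
  exfalso
  unfold chMsk at hi
  rw [Nat.sub_self, Nat.zero_testBit] at hi
  exact Bool.false_ne_true hi

/-- the first mask with `x` in `chT` is the vector of the values at `x` -/
theorem chMsk_eq {r : ℕ} (G : Fin r → Cube n → Bool) (j : ℕ) (hj : j < 2 ^ r) (x : Cube n)
    (hE : x ∈ chE G j) (hT : x ∈ chT G j) : chMsk r j = fun i => G i x := by
  set m : ℕ := Nat.ofBits fun i => G i x with hm
  have hm1 : m < 2 ^ r := Nat.ofBits_lt_two_pow _
  have hm2 : ∀ i : Fin r, m.testBit i = G i x := fun i => by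
    rw [hm]
    exact Nat.testBit_ofBits_lt _ _ i.2
  have h1 : 2 ^ r - 1 - j ≤ m := by
    have h2 : (2 ^ r - 1 - j) &&& m = 2 ^ r - 1 - j := by
      refine Nat.eq_of_testBit_eq fun k => ?_
      rw [Nat.testBit_and]
      by_cases hk : k < r
      · by_cases hb : (2 ^ r - 1 - j).testBit k = true
        · have h3 := hT ⟨k, hk⟩ hb
          have h4 := hm2 ⟨k, hk⟩
          change m.testBit k = G ⟨k, hk⟩ x at h4
          rw [hb, h4, h3]
          rfl
        · rw [Bool.not_eq_true] at hb
          rw [hb]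
          rfl
      · have h5 : (2 ^ r - 1 - j).testBit k = false := by
          refine Nat.testBit_lt_two_pow ?_
          have h6 : 2 ^ r ≤ 2 ^ k := Nat.pow_le_pow_right (by norm_num) (not_lt.1 hk)
          omega
        rw [h5]
        rfl
    rw [← h2]
    exact Nat.and_le_right
  have h3 : m ≤ 2 ^ r - 1 - j := by
    by_contra hcon
    rw [not_le] at hcon
    rw [mem_chE] at hE
    refine hE (2 ^ r - 1 - m) (by omega) ?_
    intro i hi
    unfold chMsk at hi
    rw [show 2 ^ r - 1 - (2 ^ r - 1 - m) = m by omega, hm2] at hi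
    exact hi
  have h4 : 2 ^ r - 1 - j = m := le_antisymm h1 h3
  funext i
  unfold chMsk
  rw [h4, hm2]

theorem chT_out [Fact p.Prime] {r D W t : ℕ} (G : Fin r → Cube n → Bool)
    (hG : ∀ i, Out p D W t {x | G i x = false}) (j : ℕ) :
    Out p (r * D) (r * W) t (chT G j)ᶜ := by
  classical
  have h1 := Out.iUnion (p := p) (Finset.univ.filter fun i : Fin r => chMsk r j i = true)
    (A := fun i : Fin r => {x : Cube n | G i x = false}) (D := D) (W := W) (t := t)
    fun i _ => hG i
  have e : (⋃ i ∈ (Finset.univ.filter fun i : Fin r => chMsk r j i = true),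
      {x : Cube n | G i x = false}) = (chT G j)ᶜ := by
    ext x
    simp only [Set.mem_iUnion, Finset.mem_filter, Finset.mem_univ, true_and, Set.mem_ofPred_eq,
      exists_prop, Set.mem_compl_iff, chT, not_forall, Bool.not_eq_true]
  rw [e] at h1
  have h2 : (Finset.univ.filter fun i : Fin r => chMsk r j i = true).card ≤ r := by
    refine (Finset.card_le_univ _).trans ?_
    rw [Fintype.card_fin]
  exact h1.mono (Nat.mul_le_mul_right _ h2) (Nat.mul_le_mul_right _ h2)

theorem chE_out [Fact p.Prime] {r D W t : ℕ} (G : Fin r → Cube n → Bool)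
    (hG : ∀ i, Out p D W t {x | G i x = false}) (j : ℕ) :
    Out p (r * D) (j * (r * W)) t (chE G j) := by
  have h1 := Out.iInter (p := p) (Finset.range j)
    (A := fun j' : ℕ => (chT G j')ᶜ) (D := r * D) (W := r * W) (t := t)
    fun i _ => chT_out G hG i
  rw [Finset.card_range] at h1
  exact h1

theorem chB_out [Fact p.Prime] {r D W t : ℕ} (G : Fin r → Cube n → Bool)
    (hG : ∀ i, Out p D W t {x | G i x = false}) (F : (Fin r → Bool) → Cube n → Bool)
    (hF : ∀ a, BB p D W t (F a)) (j : ℕ) :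
    Out p ((r + 1) * D) ((r + 1) * W) t (chB G F j) := by
  have h1 := (chT_out G hG j).union (hF (chMsk r j) false)
  refine h1.mono (le_of_eq ?_) (le_of_eq ?_)
  · ring
  · ring

/-- Boolean combinations of `r` functions `G i` such that `{G i = false}` has outer approximations. -/
theorem ch_of [Fact p.Prime] (r : ℕ) (D : ℕ → ℕ) (W : ℕ) (G : Fin r → Cube n → Bool)
    (hG : ∀ i t, Out p (D t) W t {x | G i x = false}) (F : (Fin r → Bool) → Cube n → Bool)
    (hF : ∀ a t, BB p (D t) W t (F a)) (f : Cube n → Bool)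
    (hf : ∀ x, f x = F (fun i => G i x) x) :
    Ch p f (2 * 2 ^ r) (fun t => (r + 1) * D t) ((2 ^ r + 1) * ((r + 1) * W)) := by
  classical
  have hpos : 0 < 2 ^ r := Nat.pow_pos (by norm_num)
  refine ⟨fun i => if i < 2 * 2 ^ r then
    (if i % 2 = 0 then chE G (i / 2) else chE G (i / 2) ∩ chB G F (i / 2)) else ∅,
    ?_, ?_, ?_, ?_, ?_⟩
  · show (if 0 < 2 * 2 ^ r then
      (if 0 % 2 = 0 then chE G (0 / 2) else chE G (0 / 2) ∩ chB G F (0 / 2)) else ∅) = Set.univ
    rw [if_pos (by omega), if_pos (by norm_num), Nat.zero_div, chE_zero]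
  · show (if 2 * 2 ^ r < 2 * 2 ^ r then _ else ∅) = ∅
    rw [if_neg (lt_irrefl _)]
  · intro i x hx
    change x ∈ (if i + 1 < 2 * 2 ^ r then
      (if (i + 1) % 2 = 0 then chE G ((i + 1) / 2) else chE G ((i + 1) / 2) ∩ chB G F ((i + 1) / 2))
      else ∅) at hx
    show x ∈ (if i < 2 * 2 ^ r then
      (if i % 2 = 0 then chE G (i / 2) else chE G (i / 2) ∩ chB G F (i / 2)) else ∅)
    by_cases h1 : i + 1 < 2 * 2 ^ r
    · rw [if_pos h1] at hx
      rw [if_pos (by omega)]
      by_cases h2 : i % 2 = 0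
      · rw [if_neg (by omega), show (i + 1) / 2 = i / 2 by omega] at hx
        rw [if_pos h2]
        exact hx.1
      · rw [if_pos (by omega), show (i + 1) / 2 = i / 2 + 1 by omega, chE_succ] at hx
        rw [if_neg h2]
        exact ⟨hx.1, Or.inl hx.2⟩
    · rw [if_neg h1] at hx
      exact absurd hx (Set.notMem_empty x)
  · intro i x hx hx'
    change x ∈ (if i < 2 * 2 ^ r then
      (if i % 2 = 0 then chE G (i / 2) else chE G (i / 2) ∩ chB G F (i / 2)) else ∅) at hx
    change x ∉ (if i + 1 < 2 * 2 ^ r then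
      (if (i + 1) % 2 = 0 then chE G ((i + 1) / 2) else chE G ((i + 1) / 2) ∩ chB G F ((i + 1) / 2))
      else ∅) at hx'
    by_cases h1 : i < 2 * 2 ^ r
    swap
    · rw [if_neg h1] at hx
      exact absurd hx (Set.notMem_empty x)
    rw [if_pos h1] at hx
    have hj : i / 2 < 2 ^ r := by omega
    by_cases h2 : i % 2 = 0
    · rw [if_pos h2] at hx
      rw [if_pos (by omega), if_neg (by omega), show (i + 1) / 2 = i / 2 by omega] at hx'
      have h3 : x ∉ chB G F (i / 2) := fun h => hx' ⟨hx, h⟩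
      unfold chB at h3
      rw [Set.mem_union, not_or, Set.mem_compl_iff, not_not] at h3
      have h4 := chMsk_eq G (i / 2) hj x hx h3.1
      have h5 : F (chMsk r (i / 2)) x = true := by
        have h6 := h3.2
        rw [Set.mem_ofPred_eq, Bool.not_eq_false] at h6
        exact h6
      rw [hf, ← h4, h5, decide_eq_true h2]
    · rw [if_neg h2] at hx
      have hT : x ∈ chT G (i / 2) := by
        by_cases h3 : i + 1 < 2 * 2 ^ r
        · rw [if_pos h3, if_pos (by omega), show (i + 1) / 2 = i / 2 + 1 by omega, chE_succ] at hx'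
          by_contra h4
          exact hx' ⟨hx.1, h4⟩
        · rw [show i / 2 = 2 ^ r - 1 by omega]
          exact chT_last G x
      have h4 := chMsk_eq G (i / 2) hj x hx.1 hT
      have h5 : F (chMsk r (i / 2)) x = false := by
        rcases hx.2 with h | h
        · exact absurd hT h
        · exact h
      rw [hf, ← h4, h5, decide_eq_false h2]
  · intro t i hi
    show Out p ((r + 1) * D t) ((2 ^ r + 1) * ((r + 1) * W)) t (if i < 2 * 2 ^ r then
      (if i % 2 = 0 then chE G (i / 2) else chE G (i / 2) ∩ chB G F (i / 2)) else ∅)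
    by_cases h1 : i < 2 * 2 ^ r
    swap
    · rw [if_neg h1]
      exact ((Closed.empty _).out).mono le_rfl le_rfl
    rw [if_pos h1]
    have hj : i / 2 ≤ 2 ^ r := by omega
    have hE := chE_out (p := p) (D := D t) (W := W) (t := t) G (fun i => hG i t) (i / 2)
    have hW : i / 2 * (r * W) ≤ 2 ^ r * ((r + 1) * W) :=
      Nat.mul_le_mul hj (Nat.mul_le_mul_right _ (Nat.le_succ r))
    by_cases h2 : i % 2 = 0
    · rw [if_pos h2]
      refine hE.mono (Nat.mul_le_mul_right _ (Nat.le_succ r)) (hW.trans ?_)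
      exact Nat.mul_le_mul_right _ (Nat.le_succ _)
    · rw [if_neg h2]
      have hB := chB_out (p := p) (D := D t) (W := W) (t := t) G (fun i => hG i t) F
        (fun a => hF a t) (i / 2)
      refine (hE.inter hB).mono ?_ ?_
      · exact max_le (Nat.mul_le_mul_right _ (Nat.le_succ r)) le_rfl
      · have h5 : (2 ^ r + 1) * ((r + 1) * W) = 2 ^ r * ((r + 1) * W) + (r + 1) * W := by ring
        rw [h5]
        exact Nat.add_le_add_right hW _

end Tw
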