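import Pool.Agent.Lib.MP_9abc2e_lc.TW.Proc
import Pool.Agent.Lib.MP_9abc2e_lc.TW.Ch

/-!
# TW: from circuits to chains

Rank 0 gates are functions of few forms (`ci_jun`), the wide gates of rank 1 are in `BB` by the structure
lemma (`ci_wide`), `ci_gen` is the induction over the circuit, when the values of the gates in `R` are
fixed.
-/

set_option autoImplicit false

namespace Tw

open Few

section jun

variable {p n : ℕ}

private theorem ci_mem_wide {C : Circ n} {k i : ℕ} : i ∈ C.wide k ↔
    i < C.size ∧ (C.kind i = Kind.and ∨ C.kind i = Kind.or) ∧ k < (C.inp i).length := by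
  classical
  unfold Circ.wide
  rw [Finset.mem_filter, Finset.mem_range]

private theorem ci_jun_mono {K K' : ℕ} (h : K ≤ K') {φ : Cube n → Bool} (hφ : Jun p K φ) :
    Jun p K' φ := by
  obtain ⟨L, h1, h2⟩ := hφ
  exact ⟨L, h1.trans h, h2⟩

private theorem ci_jun_not {K : ℕ} {φ : Cube n → Bool} (hφ : Jun p K φ) :
    Jun p K (fun x => !(φ x)) := by
  obtain ⟨L, h1, h2⟩ := hφ
  exact ⟨L, h1, fun x y h => congrArg Bool.not (h2 x y h)⟩

private theorem ci_jun_one [Fact p.Prime] {φ : Cube n → Bool} (e : Fin n → ZMod p)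
    (h : ∀ x y, ev e x = ev e y → φ x = φ y) : Jun p 1 φ := by
  classical
  refine ⟨Submodule.span (ZMod p) {e}, ?_,
    fun x y hxy => h x y (hxy e (Submodule.mem_span_singleton_self e))⟩
  refine (finrank_span_le_card (R := ZMod p) ({e} : Set (Fin n → ZMod p))).trans ?_
  simp

private theorem ci_ev_single (j : Fin n) (x : Cube n) :
    ev (Pi.single j 1) x = bz p (x j) := by
  classical
  unfold ev
  rw [Finset.sum_eq_single j]
  · rw [Pi.single_eq_same, one_mul]
  · intro i _ hi
    rw [Pi.single_eq_of_ne hi, zero_mul]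
  · intro h
    exact absurd (Finset.mem_univ j) h

private theorem ci_bz_inj [Fact p.Prime] {a b : Bool} (h : bz p a = bz p b) : a = b := by
  cases a <;> cases b <;> simp [bz] at h ⊢

private theorem ci_jun_lit [Fact p.Prime] (j : Fin n) (b : Bool) :
    Jun p 1 (fun x : Cube n => x j == b) := by
  refine ci_jun_one (Pi.single j 1) fun x y h => ?_
  rw [ci_ev_single, ci_ev_single] at h
  show (x j == b) = (y j == b)
  rw [ci_bz_inj h]

/-- the number of the true inputs of a gate at the bottom is an affine function -/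
private theorem ci_affine (L : List (Src n)) (hL : ∀ s ∈ L, ∃ j b, s = Src.lit j b) :
    ∃ (e : Fin n → ZMod p) (c : ZMod p), ∀ (x : Cube n) (v : ℕ → Bool),
      (((L.map (Src.val x v)).count true : ℕ) : ZMod p) = ev e x + c := by
  classical
  induction L with
  | nil => exact ⟨0, 0, fun x v => by simp [ev]⟩
  | cons s L ih =>
    obtain ⟨e, c, h⟩ := ih fun s hs => hL s (List.mem_cons_of_mem _ hs)
    obtain ⟨j, b, rfl⟩ := hL s List.mem_cons_self
    cases b with
    | true =>
      refine ⟨e + Pi.single j 1, c, fun x v => ?_⟩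
      rw [List.map_cons, List.count_cons, ev_add, ci_ev_single]
      push_cast
      rw [h x v]
      show ev e x + c + (if ((x j == true) == true) = true then 1 else 0) = _
      cases x j <;> simp [bz]
      ring
    | false =>
      refine ⟨e + (-1 : ZMod p) • Pi.single j 1, c + 1, fun x v => ?_⟩
      rw [List.map_cons, List.count_cons, ev_add, ev_smul, ci_ev_single]
      push_cast
      rw [h x v]
      show ev e x + c + (if ((x j == false) == true) = true then 1 else 0) = _
      cases x j
      · simp [bz]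
        ring
      · simp [bz]
        ring

private theorem ci_jun_mod [Fact p.Prime] (L : List (Src n)) (hL : ∀ s ∈ L, ∃ j b, s = Src.lit j b)
    (v : Cube n → ℕ → Bool) :
    Jun p 1 (fun x => Kind.eval p Kind.mod (L.map (Src.val x (v x)))) := by
  obtain ⟨e, c, h⟩ := ci_affine (p := p) L hL
  refine ci_jun_one e fun x y hxy => ?_
  have h1 : ∀ m : ℕ, p ∣ m ↔ (m : ZMod p) = 0 := fun m => (ZMod.natCast_eq_zero_iff _ _).symm
  show decide (¬ p ∣ (L.map (Src.val x (v x))).count true) =
    decide (¬ p ∣ (L.map (Src.val y (v y))).count true)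
  simp only [h1, h, hxy]

/-- a Boolean function of several functions of few forms -/
private theorem ci_jun_bool [Fact p.Prime] {K : ℕ} (φ : List (Cube n → Bool))
    (h : ∀ ψ ∈ φ, Jun p K ψ) (g : List Bool → Bool) :
    Jun p (φ.length * K) fun x => g (φ.map fun ψ => ψ x) := by
  have h1 : ∃ L : Submodule (ZMod p) (Fin n → ZMod p), Module.finrank (ZMod p) L ≤ φ.length * K ∧
      ∀ x y, (∀ e ∈ L, ev e x = ev e y) → φ.map (fun ψ => ψ x) = φ.map fun ψ => ψ y := by
    clear g
    induction φ with
    | nil => exact ⟨⊥, by simp, fun x y _ => rfl⟩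
    | cons a φ ih =>
      obtain ⟨L, h2, h3⟩ := ih fun ψ hψ => h ψ (List.mem_cons_of_mem _ hψ)
      obtain ⟨L', h4, h5⟩ := h a List.mem_cons_self
      refine ⟨L' ⊔ L, ?_, fun x y hxy => ?_⟩
      · refine (Submodule.finrank_add_le_finrank_add_finrank L' L).trans ?_
        rw [List.length_cons, Nat.succ_mul, add_comm]
        exact Nat.add_le_add h2 h4
      · rw [List.map_cons, List.map_cons,
          h3 x y fun e he => hxy e (Submodule.mem_sup_right he),
          h5 x y fun e he => hxy e (Submodule.mem_sup_left he)]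
  obtain ⟨L, h2, h3⟩ := h1
  refine ⟨L, h2, fun x y hxy => ?_⟩
  show g (φ.map fun ψ => ψ x) = g (φ.map fun ψ => ψ y)
  rw [h3 x y hxy]

/-- A gate which is not a `MOD_p` gate and not wide has small fan-in. -/
private theorem ci_fanin {k : ℕ} {C : Circ n} (hC : C.LocLe k) {i : ℕ} (hi : i < C.size)
    (hw : i ∉ C.wide k) (hm : C.kind i ≠ Kind.mod) : (C.inp i).length ≤ max k 1 := by
  cases hk : C.kind i with
  | and =>
    refine le_max_of_le_left ?_
    by_contra h
    exact hw (ci_mem_wide.2 ⟨hi, Or.inl hk, not_le.1 h⟩)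
  | or =>
    refine le_max_of_le_left ?_
    by_contra h
    exact hw (ci_mem_wide.2 ⟨hi, Or.inr hk, not_le.1 h⟩)
  | not => exact le_max_of_le_right (C.unary i hi hk).le
  | mod => exact absurd hk hm
  | loc g => exact le_max_of_le_left (hC i hi g hk)

/-- gates of rank 0 -/
private theorem ci_jun [Fact p.Prime] {k : ℕ} {C : Circ n} (hC : C.LocLe k) (hM : ModBot C)
    {l w : ℕ → ℕ} (hl : ∀ i < C.size, 1 ≤ l i ∧ ∀ j, Src.gate j ∈ C.inp i → l j < l i)
    (hw : ∀ i < C.size, ∀ j, Src.gate j ∈ C.inp i → w j ≤ w i) (hw1 : ∀ i ∈ C.wide k, 1 ≤ w i)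
    {v : Cube n → ℕ → Bool} (hv : ∀ x, C.IsVal p x (v x)) :
    ∀ i, i < C.size → w i = 0 → Jun p (max k 1 ^ l i) (fun x => v x i) := by
  intro i
  induction i using Nat.strong_induction_on with
  | _ i ih =>
    intro hi hwi
    have hκ : 1 ≤ max k 1 := le_max_right _ _
    have hval : (fun x => v x i) =
        fun x => (C.kind i).eval p ((C.inp i).map (Src.val x (v x))) := by
      funext x
      exact hv x i hi
    by_cases hm : C.kind i = Kind.mod
    · rw [hval, hm]
      exact ci_jun_mono (Nat.one_le_pow _ _ hκ) (ci_jun_mod _ (hM i hi hm) v)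
    · have hwide : i ∉ C.wide k := fun h => by
        have := hw1 i h
        omega
      have hfan := ci_fanin hC hi hwide hm
      obtain ⟨hl1, hl2⟩ := hl i hi
      have h1 : ∀ ψ ∈ (C.inp i).map (fun (s : Src n) => fun x : Cube n => s.val x (v x)),
          Jun p (max k 1 ^ (l i - 1)) ψ := by
        intro ψ hψ
        obtain ⟨s, hs, rfl⟩ := List.mem_map.1 hψ
        rcases s with ⟨j, b⟩ | j
        · exact ci_jun_mono (Nat.one_le_pow _ _ hκ) (ci_jun_lit j b)
        · have hj := C.acyc i hi j hs
          have h2 := ih j hj (hj.trans hi) (by have := hw i hi j hs; omega)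
          refine ci_jun_mono (Nat.pow_le_pow_right hκ ?_) h2
          have := hl2 j hs
          omega
      have h2 := ci_jun_bool _ h1 ((C.kind i).eval p)
      rw [List.length_map] at h2
      have e : (fun x => (C.kind i).eval p (((C.inp i).map
          (fun (s : Src n) => fun x : Cube n => s.val x (v x))).map fun ψ => ψ x)) =
          fun x => v x i := by
        rw [hval]
        funext x
        rw [List.map_map]
        rfl
      rw [e] at h2
      refine ci_jun_mono ?_ h2
      calc (C.inp i).length * max k 1 ^ (l i - 1) ≤ max k 1 * max k 1 ^ (l i - 1) :=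
            Nat.mul_le_mul_right _ hfan
        _ = max k 1 ^ l i := by
            rw [← pow_succ']
            congr 1
            omega

end jun

/-- AND and OR of functions of few forms -/
private theorem ci_wide (p : ℕ) [Fact p.Prime] (K : ℕ) : ∃ C : ℕ, ∀ (n t : ℕ) (ι : Type)
    (φ : ι → Cube n → Bool), (∀ i, Jun p K (φ i)) → ∀ (ψ : Cube n → Bool) (c : Bool),
    (∀ x, ψ x = c ↔ ∃ i, φ i x = c) → BB p (C * (t + 1) ^ 2) 1 t ψ := by
  obtain ⟨C, hC⟩ := base p K
  refine ⟨C + (p - 1) * K, fun n t ι φ hφ ψ c hψ => ?_⟩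
  have hd1 : C * (t + 1) ^ 2 ≤ (C + (p - 1) * K) * (t + 1) ^ 2 :=
    Nat.mul_le_mul_right _ (Nat.le_add_right _ _)
  have hd2 : (p - 1) * K ≤ (C + (p - 1) * K) * (t + 1) ^ 2 := by
    refine (Nat.le_add_left _ _).trans (Nat.le_mul_of_pos_right _ ?_)
    positivity
  -- some function has the value `c`
  have h1 : Out p ((C + (p - 1) * K) * (t + 1) ^ 2) 1 t {x | ψ x = c} := by
    cases c with
    | false =>
      have h2 := hC n t ι φ hφ
      have e : {x | ∃ i, φ i x = false} = {x | ψ x = false} := by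
        ext x
        exact (hψ x).symm
      rw [e] at h2
      exact h2.mono hd1 le_rfl
    | true =>
      have h2 := hC n t ι (fun i x => !(φ i x)) fun i => ci_jun_not (hφ i)
      have e : {x | ∃ i, (!(φ i x)) = false} = {x | ψ x = true} := by
        ext x
        show (∃ i, (!(φ i x)) = false) ↔ ψ x = true
        rw [hψ x]
        simp
      rw [e] at h2
      exact h2.mono hd1 le_rfl
  -- all functions have the value `!c`
  have h2 : Closed p ((p - 1) * K) {x | ψ x = !c} := by
    have h3 := Closed.iInter (p := p) (Z := fun i => {x | φ i x = !c}) fun i => (hφ i).closed (!c)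
    have e : (⋂ i, {x | φ i x = !c}) = {x | ψ x = !c} := by
      ext x
      rw [Set.mem_iInter]
      show (∀ i, φ i x = !c) ↔ ψ x = !c
      have h4 : ∀ b : Bool, b = !c ↔ ¬ b = c := by
        intro b
        cases b <;> cases c <;> simp
      rw [h4, hψ x, not_exists]
      exact forall_congr' fun i => h4 _
    rwa [e] at h3
  intro b
  by_cases hb : b = c
  · rw [hb]
    exact h1
  · have hb' : b = !c := by
      cases b <;> cases c <;> simp at hb ⊢
    rw [hb']
    exact (h2.mono hd2).out

section gen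

variable {p n : ℕ}

/-- The functions computed by the gates, when the gates in `R` get the values `a`. -/
private theorem ci_gen [Fact p.Prime] {k : ℕ} {C : Circ n} (hC : C.LocLe k) (hM : ModBot C)
    {l : ℕ → ℕ} (hl : ∀ i < C.size, 1 ≤ l i ∧ ∀ j, Src.gate j ∈ C.inp i → l j < l i)
    {v : Cube n → ℕ → Bool} (hv : ∀ x, C.IsVal p x (v x)) (R P : ℕ → Prop)
    (hP : ∀ i < C.size, P i → ∀ j, Src.gate j ∈ C.inp i → P j) (a : ℕ → Bool) {D : ℕ → ℕ}
    (hD : ∀ t, p - 1 ≤ D t)
    (hw : ∀ i ∈ C.wide k, P i → ¬ R i → ∀ t, BB p (D t) 1 t (fun x => v x i)) :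
    ∀ i, i < C.size → P i → ∃ φ : Cube n → Bool,
      (∀ t, BB p ((2 ^ max k 1 * max k 1) ^ l i * D t) ((2 ^ max k 1 * max k 1) ^ l i) t φ) ∧
      ∀ x, (∀ j, R j → v x j = a j) → v x i = φ x := by
  classical
  have hκ : 1 ≤ max k 1 := le_max_right _ _
  obtain ⟨B, hB⟩ : ∃ B, B = 2 ^ max k 1 * max k 1 := ⟨_, rfl⟩
  have hB1 : 1 ≤ B := by
    rw [hB]
    exact Nat.one_le_iff_ne_zero.2 (Nat.mul_ne_zero (by positivity) (by omega))
  rw [← hB]
  have hpow : ∀ m, 1 ≤ B ^ m := fun m => Nat.one_le_pow _ _ hB1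
  intro i
  induction i using Nat.strong_induction_on with
  | _ i ih =>
    intro hi hPi
    by_cases hR : R i
    · refine ⟨fun _ => a i, fun t b => ?_, fun x hx => hx i hR⟩
      by_cases hb : a i = b
      · have e : {x : Cube n | (fun _ => a i) x = b} = Set.univ := by
          ext x
          simp [hb]
        rw [e]
        exact (Closed.univ _).out
      · have e : {x : Cube n | (fun _ => a i) x = b} = ∅ := by
          ext x
          simp [hb]
        rw [e]
        exact (Closed.empty _).out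
    · by_cases hwide : i ∈ C.wide k
      · exact ⟨fun x => v x i, fun t => (hw i hwide hPi hR t).mono
          (Nat.le_mul_of_pos_left _ (hpow _)) (hpow _), fun x _ => rfl⟩
      · have hval : (fun x => v x i) =
            fun x => (C.kind i).eval p ((C.inp i).map (Src.val x (v x))) := by
          funext x
          exact hv x i hi
        by_cases hm : C.kind i = Kind.mod
        · refine ⟨fun x => v x i, fun t b => ?_, fun x _ => rfl⟩
          have h1 : Jun p 1 (fun x => v x i) := by
            rw [hval, hm]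
            exact ci_jun_mod _ (hM i hi hm) v
          refine ((h1.closed b).mono ?_).out
          rw [mul_one]
          exact (hD t).trans (Nat.le_mul_of_pos_left _ (hpow _))
        · have hfan := ci_fanin hC hi hwide hm
          obtain ⟨hl1, hl2⟩ := hl i hi
          have h1 : ∀ s : Src n, ∃ ψ : Cube n → Bool, s ∈ C.inp i →
              (∀ t, BB p (B ^ (l i - 1) * D t) (B ^ (l i - 1)) t ψ) ∧
              ∀ x, (∀ j, R j → v x j = a j) → s.val x (v x) = ψ x := by
            intro s
            by_cases hs : s ∈ C.inp i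
            · rcases s with ⟨j, b⟩ | j
              · refine ⟨fun x => x j == b, fun _ => ⟨fun t c => ?_, fun x _ => rfl⟩⟩
                refine (((ci_jun_lit (p := p) j b).closed c).mono ?_).out
                rw [mul_one]
                exact (hD t).trans (Nat.le_mul_of_pos_left _ (hpow _))
              · have hj := C.acyc i hi j hs
                obtain ⟨ψ, h2, h3⟩ := ih j hj (hj.trans hi) (hP i hi hPi j hs)
                have h4 : B ^ l j ≤ B ^ (l i - 1) := Nat.pow_le_pow_right hB1 (by
                  have := hl2 j hs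
                  omega)
                exact ⟨ψ, fun _ => ⟨fun t => (h2 t).mono (Nat.mul_le_mul_right _ h4) h4, h3⟩⟩
            · exact ⟨fun _ => true, fun h => absurd h hs⟩
          choose Φ hΦ using h1
          refine ⟨fun x => (C.kind i).eval p (((C.inp i).map Φ).map fun ψ => ψ x), fun t => ?_,
            fun x hx => ?_⟩
          · have h2 := BB.bool (p := p) (k := max k 1) (D := B ^ (l i - 1) * D t)
              (W := B ^ (l i - 1)) (t := t) ((C.inp i).map Φ) (by rwa [List.length_map]) (by
                intro ψ hψ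
                obtain ⟨s, hs, rfl⟩ := List.mem_map.1 hψ
                exact (hΦ s hs).1 t) ((C.kind i).eval p)
            have e : B ^ l i = 2 ^ max k 1 * max k 1 * B ^ (l i - 1) := by
              rw [← hB, ← pow_succ']
              congr 1
              omega
            refine h2.mono ?_ ?_
            · rw [e]
              calc 2 ^ max k 1 * (B ^ (l i - 1) * D t)
                  = 2 ^ max k 1 * 1 * B ^ (l i - 1) * D t := by ring
                _ ≤ 2 ^ max k 1 * max k 1 * B ^ (l i - 1) * D t :=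
                    Nat.mul_le_mul_right _ (Nat.mul_le_mul_right _ (Nat.mul_le_mul_left _ hκ))
            · rw [e, mul_assoc]
          · rw [congrFun hval x]
            show _ = (C.kind i).eval p (((C.inp i).map Φ).map fun ψ => ψ x)
            rw [List.map_map]
            congr 1
            exact List.map_congr_left fun s hs => (hΦ s hs).2 x hx

/-- The number of the inputs of a gate, without repetitions. -/
private theorem ci_inputs {C : Circ n} {i : ℕ} (hi : i < C.size) : ∃ S : Finset (Src n),
    (∀ s, s ∈ S ↔ s ∈ C.inp i) ∧ S.card ≤ C.size + 2 * n := by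
  classical
  refine ⟨(C.inp i).toFinset, fun s => List.mem_toFinset, ?_⟩
  have h1 : (C.inp i).toFinset ⊆ (Finset.range C.size).image (fun j => (Src.gate j : Src n)) ∪
      (Finset.univ : Finset (Fin n × Bool)).image fun q => Src.lit q.1 q.2 := by
    intro s hs
    rw [List.mem_toFinset] at hs
    rw [Finset.mem_union]
    rcases s with ⟨j, b⟩ | j
    · exact Or.inr (Finset.mem_image.2 ⟨(j, b), Finset.mem_univ _, rfl⟩)
    · refine Or.inl (Finset.mem_image.2 ⟨j, Finset.mem_range.2 ?_, rfl⟩)
      exact (C.acyc i hi j hs).trans hi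
  refine ((Finset.card_le_card h1).trans (Finset.card_union_le _ _)).trans ?_
  refine (Nat.add_le_add Finset.card_image_le Finset.card_image_le).trans (le_of_eq ?_)
  rw [Finset.card_range, Finset.card_univ, Fintype.card_prod, Fintype.card_fin, Fintype.card_bool]
  ring

/-- an enumeration of a small set -/
private theorem ci_enum (S : Finset ℕ) {r : ℕ} (h : S.card ≤ r) :
    ∃ g : Fin r → ℕ, ∀ i ∈ S, ∃ j, g j = i := by
  refine ⟨fun j => if hj : j.1 < S.card then (S.equivFin.symm ⟨j.1, hj⟩ : ℕ) else 0,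
    fun i hi => ?_⟩
  refine ⟨⟨(S.equivFin ⟨i, hi⟩).1, (S.equivFin ⟨i, hi⟩).2.trans_le h⟩, ?_⟩
  show (if hj : (S.equivFin ⟨i, hi⟩).1 < S.card then
    (S.equivFin.symm ⟨(S.equivFin ⟨i, hi⟩).1, hj⟩ : ℕ) else 0) = i
  rw [dif_pos (S.equivFin ⟨i, hi⟩).2]
  simp

end gen

/-- The wide gates of rank 2 and the functions computed when their outputs are fixed. -/
theorem parts (p : ℕ) [Fact p.Prime] (d k r : ℕ) : ∃ C : ℕ, ∀ (n s : ℕ),
    ∀ f ∈ TwoWide p n d k r s, ∃ (G : Fin r → Cube n → Bool) (F : (Fin r → Bool) → Cube n → Bool),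
      (∀ i t, Out p (C * (t + 1) ^ 2) (C * (s + n + 1)) t {x | G i x = false}) ∧
      (∀ a t, BB p (C * (t + 1) ^ 2) (C * (s + n + 1)) t (F a)) ∧
      ∀ x, f x = F (fun i => G i x) x := by
  classical
  obtain ⟨C0, hC0⟩ := ci_wide p (max k 1 ^ d)
  obtain ⟨B, hB⟩ : ∃ B, B = 2 ^ max k 1 * max k 1 := ⟨_, rfl⟩
  have hB1 : 1 ≤ B := by
    rw [hB]
    exact Nat.one_le_iff_ne_zero.2 (Nat.mul_ne_zero (by positivity) (by omega))
  refine ⟨2 * B ^ d * (C0 + p), fun n s f hf => ?_⟩
  obtain ⟨C, hsize, ⟨l, hl⟩, hloc, hmod, ⟨w, hw1, hw2, hw3, hw4⟩, hval⟩ := hf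
  choose v hv hout using hval
  have hp1 : 1 ≤ p := (Fact.out : p.Prime).one_le
  have hκ : 0 < max k 1 := lt_of_lt_of_le Nat.zero_lt_one (le_max_right _ _)
  have hl' : ∀ i < C.size, 1 ≤ l i ∧ ∀ j, Src.gate j ∈ C.inp i → l j < l i :=
    fun i hi => ⟨(hl i hi).1, (hl i hi).2.2⟩
  have hld : ∀ i < C.size, B ^ l i ≤ B ^ d := fun i hi =>
    Nat.pow_le_pow_right hB1 (hl i hi).2.1
  have hjun := ci_jun (p := p) hloc hmod hl' hw2 (fun i hi => (hw3 i hi).1) hv
  -- the wide gates of rank 1
  have hwide : ∀ i ∈ C.wide k, w i ≤ 1 → ∀ t,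
      BB p ((C0 + p) * (t + 1) ^ 2) 1 t (fun x => v x i) := by
    intro i hiw hi1 t
    obtain ⟨hi, hk, -⟩ := ci_mem_wide.1 hiw
    have hφ : ∀ q : {s : Src n // s ∈ C.inp i},
        Jun p (max k 1 ^ d) (fun x => q.1.val x (v x)) := by
      rintro ⟨q, hq⟩
      rcases q with ⟨j, b⟩ | j
      · exact ci_jun_mono (Nat.one_le_pow _ _ hκ) (ci_jun_lit j b)
      · have hj := C.acyc i hi j hq
        have hwj := (hw3 i hiw).2 j hq
        exact ci_jun_mono (Nat.pow_le_pow_right hκ (hl j (hj.trans hi)).2.1)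
          (hjun j (hj.trans hi) (by omega))
    rcases hk with hk | hk
    · have h1 := hC0 n t _ _ hφ (fun x => v x i) false (by
        intro x
        show v x i = false ↔ _
        rw [hv x i hi, hk]
        show ((C.inp i).map (Src.val x (v x))).all (fun a => a) = false ↔ _
        rw [List.all_eq_false]
        constructor
        · rintro ⟨b, hb, hb2⟩
          obtain ⟨q, hq, rfl⟩ := List.mem_map.1 hb
          exact ⟨⟨q, hq⟩, by simpa using hb2⟩
        · rintro ⟨⟨q, hq⟩, h⟩
          exact ⟨_, List.mem_map.2 ⟨q, hq, rfl⟩, by simpa using h⟩)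
      exact h1.mono (Nat.mul_le_mul_right _ (Nat.le_add_right _ _)) le_rfl
    · have h1 := hC0 n t _ _ hφ (fun x => v x i) true (by
        intro x
        show v x i = true ↔ _
        rw [hv x i hi, hk]
        show ((C.inp i).map (Src.val x (v x))).any (fun a => a) = true ↔ _
        rw [List.any_eq_true]
        constructor
        · rintro ⟨b, hb, hb2⟩
          obtain ⟨q, hq, rfl⟩ := List.mem_map.1 hb
          exact ⟨⟨q, hq⟩, by simpa using hb2⟩
        · rintro ⟨⟨q, hq⟩, h⟩
          exact ⟨_, List.mem_map.2 ⟨q, hq, rfl⟩, by simpa using h⟩)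
      exact h1.mono (Nat.mul_le_mul_right _ (Nat.le_add_right _ _)) le_rfl
  have hD : ∀ t : ℕ, p - 1 ≤ (C0 + p) * (t + 1) ^ 2 := by
    intro t
    have h1 : (C0 + p) * 1 ≤ (C0 + p) * (t + 1) ^ 2 :=
      Nat.mul_le_mul_left _ (Nat.one_le_pow _ _ (by omega))
    omega
  -- the gates of rank at most 1
  have hone : ∀ i < C.size, w i ≤ 1 → ∀ t,
      BB p (B ^ d * ((C0 + p) * (t + 1) ^ 2)) (B ^ d) t (fun x => v x i) := by
    intro i hi hi1 t
    obtain ⟨φ, h1, h2⟩ := ci_gen (p := p) hloc hmod hl' hv (fun _ => False) (fun i => w i ≤ 1)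
      (fun i hi h j hj => (hw2 i hi j hj).trans h) (fun _ => true) hD
      (fun i hi h _ t => hwide i hi h t) i hi hi1
    have e : (fun x => v x i) = φ := by
      funext x
      exact h2 x fun j hj => absurd hj id
    rw [e]
    have h3 := h1 t
    rw [← hB] at h3
    exact h3.mono (Nat.mul_le_mul_right _ (hld i hi)) (hld i hi)
  have hCd : ∀ t : ℕ, B ^ d * ((C0 + p) * (t + 1) ^ 2) ≤ 2 * B ^ d * (C0 + p) * (t + 1) ^ 2 := by
    intro t
    have h1 : B ^ d * ((C0 + p) * (t + 1) ^ 2) * 1 ≤ B ^ d * ((C0 + p) * (t + 1) ^ 2) * 2 :=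
      Nat.mul_le_mul_left _ (by omega)
    calc B ^ d * ((C0 + p) * (t + 1) ^ 2) = B ^ d * ((C0 + p) * (t + 1) ^ 2) * 1 := by ring
      _ ≤ B ^ d * ((C0 + p) * (t + 1) ^ 2) * 2 := h1
      _ = _ := by ring
  have hCW : ∀ m : ℕ, m ≤ 2 * (s + n + 1) → m * B ^ d ≤ 2 * B ^ d * (C0 + p) * (s + n + 1) := by
    intro m hm
    calc m * B ^ d ≤ 2 * (s + n + 1) * B ^ d := Nat.mul_le_mul_right _ hm
      _ = 2 * B ^ d * (s + n + 1) * 1 := by ring
      _ ≤ 2 * B ^ d * (s + n + 1) * (C0 + p) := Nat.mul_le_mul_left _ (by omega)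
      _ = _ := by ring
  -- the wide gates of rank 2
  obtain ⟨W2, hW2⟩ : ∃ W2, W2 = (C.wide k).filter fun i => w i = 2 := ⟨_, rfl⟩
  have hW2card : W2.card ≤ r := by
    rw [hW2]
    refine le_trans (le_of_eq ?_) hw4
    congr 1
  have hW2mem : ∀ i, i ∈ W2 ↔ i ∈ C.wide k ∧ w i = 2 := by
    intro i
    rw [hW2, Finset.mem_filter]
  obtain ⟨g, hg⟩ := ci_enum W2 hW2card
  choose idx hidx using hg
  -- the closed value of a gate
  obtain ⟨sg, hsg⟩ : ∃ sg : ℕ → Bool → Bool,
      sg = fun i b => if C.kind i = Kind.and then !b else b := ⟨_, rfl⟩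
  have hsg2 : ∀ i b, sg i (sg i b) = b := by
    intro i b
    rw [hsg]
    by_cases h : C.kind i = Kind.and
    · simp [h]
    · simp [h]
  have hF : ∀ a : Fin r → Bool, ∃ φ : Cube n → Bool,
      (∀ t, BB p (2 * B ^ d * (C0 + p) * (t + 1) ^ 2) (2 * B ^ d * (C0 + p) * (s + n + 1)) t φ) ∧
      ∀ x, (∀ j (hj : j ∈ W2), v x j = sg j (a (idx j hj))) → v x C.out = φ x := by
    intro a
    obtain ⟨φ, h1, h2⟩ := ci_gen (p := p) hloc hmod hl' hv (fun i => i ∈ W2)
      (fun _ => True) (fun _ _ _ _ _ => trivial)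
      (fun j => if hj : j ∈ W2 then sg j (a (idx j hj)) else true) hD (by
        intro i hi _ hi2 t
        refine hwide i hi ?_ t
        have h3 := hw1 i (ci_mem_wide.1 hi).1
        have h4 : w i ≠ 2 := fun h => hi2 ((hW2mem i).2 ⟨hi, h⟩)
        omega) C.out C.out_lt trivial
    refine ⟨φ, fun t => ?_, fun x hx => ?_⟩
    · have h3 := h1 t
      rw [← hB] at h3
      refine h3.mono ((Nat.mul_le_mul_right _ (hld _ C.out_lt)).trans (hCd t)) ?_
      refine (hld _ C.out_lt).trans ?_
      have h4 := hCW 1 (by omega)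
      rwa [one_mul] at h4
    · refine h2 x fun j hj => ?_
      rw [dif_pos hj]
      exact hx j hj
  choose F hF1 hF2 using hF
  refine ⟨fun i x => if g i ∈ W2 then sg (g i) (v x (g i)) else true, F, ?_, hF1, fun x => ?_⟩
  · intro i t
    by_cases hi : g i ∈ W2
    · obtain ⟨hiw, hi2⟩ := (hW2mem _).1 hi
      obtain ⟨his, hk, -⟩ := ci_mem_wide.1 hiw
      obtain ⟨S, hS1, hS2⟩ := ci_inputs his
      -- the inputs
      have hin : ∀ q ∈ S, BB p (B ^ d * ((C0 + p) * (t + 1) ^ 2)) (B ^ d) t
          (fun x => q.val x (v x)) := by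
        intro q hq
        rw [hS1] at hq
        rcases q with ⟨j, b⟩ | j
        · intro c
          refine (((ci_jun_lit (p := p) j b).closed c).mono ?_).out
          rw [mul_one]
          exact (hD t).trans (Nat.le_mul_of_pos_left _ (Nat.one_le_pow _ _ hB1))
        · have hj := C.acyc _ his j hq
          have hwj := (hw3 _ hiw).2 j hq
          exact hone j (hj.trans his) (by omega) t
      have hfin : ∀ c : Bool, (∀ x, (if g i ∈ W2 then sg (g i) (v x (g i)) else true) = false ↔
          ∀ q ∈ S, Src.val x (v x) q = c) →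
          Out p (2 * B ^ d * (C0 + p) * (t + 1) ^ 2) (2 * B ^ d * (C0 + p) * (s + n + 1)) t
            {x | (if g i ∈ W2 then sg (g i) (v x (g i)) else true) = false} := by
        intro c hc
        have h1 := Out.iInter S (A := fun q => {x | Src.val x (v x) q = c}) fun q hq => hin q hq c
        have e : (⋂ q ∈ S, {x | Src.val x (v x) q = c}) =
            {x | (if g i ∈ W2 then sg (g i) (v x (g i)) else true) = false} := by
          ext x
          simp only [Set.mem_iInter, Set.mem_ofPred_eq]
          exact (hc x).symm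
        rw [e] at h1
        refine h1.mono (hCd t) (hCW _ ?_)
        omega
      rcases hk with hk | hk
      · refine hfin true fun x => ?_
        rw [if_pos hi, hsg]
        show (if C.kind (g i) = Kind.and then !(v x (g i)) else v x (g i)) = false ↔ _
        rw [if_pos hk, hv x _ his, hk]
        show (!(((C.inp (g i)).map (Src.val x (v x))).all fun a => a)) = false ↔ _
        rw [Bool.not_eq_false', List.all_eq_true]
        constructor
        · intro h q hq
          exact h _ (List.mem_map.2 ⟨q, (hS1 q).1 hq, rfl⟩)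
        · intro h b hb
          obtain ⟨q, hq, rfl⟩ := List.mem_map.1 hb
          exact h q ((hS1 q).2 hq)
      · refine hfin false fun x => ?_
        have hne : ¬ C.kind (g i) = Kind.and := by
          rw [hk]
          intro h
          cases h
        rw [if_pos hi, hsg]
        show (if C.kind (g i) = Kind.and then !(v x (g i)) else v x (g i)) = false ↔ _
        rw [if_neg hne, hv x _ his, hk]
        show (((C.inp (g i)).map (Src.val x (v x))).any fun a => a) = false ↔ _
        rw [List.any_eq_false]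
        constructor
        · intro h q hq
          have h1 := h _ (List.mem_map.2 ⟨q, (hS1 q).1 hq, rfl⟩)
          simpa using h1
        · intro h b hb
          obtain ⟨q, hq, rfl⟩ := List.mem_map.1 hb
          rw [h q ((hS1 q).2 hq)]
          simp
    · have e : {x : Cube n | (if g i ∈ W2 then sg (g i) (v x (g i)) else true) = false} = ∅ := by
        ext x
        simp [hi]
      show Out p _ _ t {x : Cube n | (if g i ∈ W2 then sg (g i) (v x (g i)) else true) = false}
      rw [e]
      exact (Closed.empty _).out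
  · rw [← hout x]
    refine hF2 _ x fun j hj => ?_
    show v x j = sg j (if g (idx j hj) ∈ W2 then sg (g (idx j hj)) (v x (g (idx j hj))) else true)
    rw [hidx j hj, if_pos hj, hsg2]

theorem chain_of_circ (p : ℕ) [Fact p.Prime] (d k r : ℕ) : ∃ C : ℕ, ∀ (n s : ℕ),
    ∀ f ∈ TwoWide p n d k r s,
      Ch p f (2 * 2 ^ r) (fun t => C * (t + 1) ^ 2) (C * (s + n + 1)) := by
  obtain ⟨C, hC⟩ := parts p d k r
  refine ⟨(2 ^ r + 1) * (r + 1) * C, fun n s f hf => ?_⟩
  obtain ⟨G, F, h1, h2, h3⟩ := hC n s f hf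
  obtain ⟨A, a1, a2, a3, a4, a5⟩ := ch_of r (fun t => C * (t + 1) ^ 2) (C * (s + n + 1)) G h1 F h2 f h3
  refine ⟨A, a1, a2, a3, a4, fun t i hi => (a5 t i hi).mono ?_ ?_⟩
  · show (r + 1) * (C * (t + 1) ^ 2) ≤ (2 ^ r + 1) * (r + 1) * C * (t + 1) ^ 2
    have h : (r + 1) * (C * (t + 1) ^ 2) * 1 ≤ (r + 1) * (C * (t + 1) ^ 2) * (2 ^ r + 1) :=
      Nat.mul_le_mul_left _ (by omega)
    calc (r + 1) * (C * (t + 1) ^ 2) = (r + 1) * (C * (t + 1) ^ 2) * 1 := by ring
      _ ≤ (r + 1) * (C * (t + 1) ^ 2) * (2 ^ r + 1) := h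
      _ = (2 ^ r + 1) * (r + 1) * C * (t + 1) ^ 2 := by ring
  · refine le_of_eq ?_
    ring

end Tw
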