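import Pool.Agent.Lib.MP_9abc2e_lc.TW.Frm

/-!
# TW: counting the points of a node by characters
-/

set_option autoImplicit false

namespace Tw

open Few

/-- the constant -/
private theorem cnt_gamma (p : ℕ) [Fact p.Prime] : ∃ γ : ℝ, 0 ≤ γ ∧ γ < 1 ∧
    ∀ a : ZMod p, a ≠ 0 → ‖(1 : ℂ) + ZMod.stdAddChar a‖ ≤ 2 * γ := by
  classical
  have hlt : ∀ a : ZMod p, a ≠ 0 → ‖(1 : ℂ) + ZMod.stdAddChar a‖ < 2 := by
    intro a ha
    have h1 : ZMod.stdAddChar a ≠ (1 : ℂ) := by
      intro h
      apply ha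
      apply ZMod.injective_stdAddChar
      rw [h, AddChar.map_zero_eq_one]
    have h2 : ‖(ZMod.stdAddChar a : ℂ)‖ = 1 := AddChar.norm_apply _ _
    have h3 : ¬ SameRay ℝ (1 : ℂ) (ZMod.stdAddChar a) := by
      rw [sameRay_iff_of_norm_eq (by rw [h2, norm_one])]
      exact fun h => h1 h.symm
    have h4 := norm_add_lt_of_not_sameRay h3
    rw [h2, norm_one] at h4
    linarith
  let f : ZMod p → ℝ := fun a => if a = 0 then 0 else ‖(1 : ℂ) + ZMod.stdAddChar a‖ / 2
  refine ⟨Finset.univ.sup' Finset.univ_nonempty f, ?_, ?_, ?_⟩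
  · have h1 := Finset.le_sup' f (Finset.mem_univ (0 : ZMod p))
    have h2 : f 0 = 0 := if_pos rfl
    rw [h2] at h1
    exact h1
  · rw [Finset.sup'_lt_iff]
    intro a _
    by_cases ha : a = 0
    · simp [f, ha]
    · have h1 := hlt a ha
      simp only [f, ha, if_false]
      linarith
  · intro a ha
    have h1 := Finset.le_sup' f (Finset.mem_univ a)
    simp only [f, ha, if_false] at h1
    linarith

variable {p n : ℕ}

private theorem cnt_map_sum {A ι : Type} [AddCommMonoid A] (ψ : AddChar A ℂ) (s : Finset ι)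
    (f : ι → A) : ψ (∑ i ∈ s, f i) = ∏ i ∈ s, ψ (f i) := by
  classical
  induction s using Finset.induction_on with
  | empty => rw [Finset.sum_empty, Finset.prod_empty, AddChar.map_zero_eq_one]
  | insert i s hi ih =>
    rw [Finset.sum_insert hi, Finset.prod_insert hi, AddChar.map_add_eq_mul, ih]

private theorem cnt_ev_sub (e : Fin n → ZMod p) (x y : Cube n) :
    ev e y - ev e x = ∑ i, e i * (bz p (y i) - bz p (x i)) := by
  unfold ev
  rw [← Finset.sum_sub_distrib]
  exact Finset.sum_congr rfl fun i _ => (mul_sub _ _ _).symm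

open Classical in
/-- orthogonality -/
private theorem cnt_orth [Fact p.Prime] (U : Submodule (ZMod p) (Fin n → ZMod p)) [Fintype U]
    (x y : Cube n) : ∑ e : U, (ZMod.stdAddChar (ev (e : Fin n → ZMod p) y - ev e x) : ℂ) =
      if (∀ e ∈ U, ev e y = ev e x) then (Fintype.card U : ℂ) else 0 := by
  let f : U →+ ZMod p :=
    { toFun := fun e => ev (e : Fin n → ZMod p) y - ev e x
      map_zero' := by simp [ev]
      map_add' := by
        intro a b
        simp only [cnt_ev_sub, Submodule.coe_add, Pi.add_apply, add_mul, Finset.sum_add_distrib] }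
  have hf : ∀ e : U, f e = ev (e : Fin n → ZMod p) y - ev e x := fun e => rfl
  clear_value f
  let ψ : AddChar U ℂ := (ZMod.stdAddChar : AddChar (ZMod p) ℂ).compAddMonoidHom f
  have hψ : ∀ e : U, ψ e = ZMod.stdAddChar (f e) := fun e => rfl
  clear_value ψ
  have h1 := AddChar.sum_eq_ite ψ
  have h2 : (ψ = 0) ↔ (∀ e ∈ U, ev e y = ev e x) := by
    constructor
    · intro h e he
      have h4 : ZMod.stdAddChar (f ⟨e, he⟩) = (1 : ℂ) := by
        rw [← hψ, h, AddChar.zero_apply]
      have h5 : f ⟨e, he⟩ = 0 := by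
        apply ZMod.injective_stdAddChar
        rw [h4, AddChar.map_zero_eq_one]
      rw [hf] at h5
      exact sub_eq_zero.1 h5
    · intro h
      refine DFunLike.ext _ _ fun e => ?_
      rw [hψ, hf, h e e.2, sub_self, AddChar.map_zero_eq_one, AddChar.zero_apply]
  have h3 : ∑ e : U, (ZMod.stdAddChar (ev (e : Fin n → ZMod p) y - ev e x) : ℂ) =
      ∑ e : U, ψ e := Finset.sum_congr rfl fun e _ => by rw [hψ, hf]
  rw [h3, h1]
  by_cases h4 : (∀ e ∈ U, ev e y = ev e x)
  · rw [if_pos (h2.2 h4), if_pos h4]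
  · rw [if_neg (fun h => h4 (h2.1 h)), if_neg h4]

/-- the subcube -/
private def sc (F : Finset (Fin n)) (x : Cube n) : Finset (Cube n) :=
  Fintype.piFinset fun i => if i ∈ F then {x i} else Finset.univ

private theorem mem_sc {F : Finset (Fin n)} {x y : Cube n} :
    y ∈ sc F x ↔ ∀ i ∈ F, y i = x i := by
  unfold sc
  rw [Fintype.mem_piFinset]
  refine forall_congr' fun i => ?_
  by_cases hi : i ∈ F
  · simp [hi]
  · simp [hi]

/-- the exponential sum of one form -/
private theorem cnt_one [Fact p.Prime] {γ : ℝ}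
    (hγ : ∀ a : ZMod p, a ≠ 0 → ‖(1 : ℂ) + ZMod.stdAddChar a‖ ≤ 2 * γ) (F : Finset (Fin n))
    (e : Fin n → ZMod p) (x : Cube n) :
    ‖∑ y ∈ sc F x, (ZMod.stdAddChar (ev e y - ev e x) : ℂ)‖ ≤
      2 ^ (n - F.card) * γ ^ wt F e := by
  classical
  have h1 : ∀ y : Cube n, (ZMod.stdAddChar (ev e y - ev e x) : ℂ) =
      ∏ i, (ZMod.stdAddChar (e i * (bz p (y i) - bz p (x i))) : ℂ) := by
    intro y
    rw [cnt_ev_sub]
    exact cnt_map_sum _ _ _
  have h2 : ∑ y ∈ sc F x, (ZMod.stdAddChar (ev e y - ev e x) : ℂ) =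
      ∏ i, ∑ b ∈ (if i ∈ F then {x i} else Finset.univ : Finset Bool),
        (ZMod.stdAddChar (e i * (bz p b - bz p (x i))) : ℂ) := by
    rw [Finset.prod_univ_sum]
    exact Finset.sum_congr rfl fun y _ => h1 y
  rw [h2, norm_prod]
  have h3 : ∀ i, ‖∑ b ∈ (if i ∈ F then {x i} else Finset.univ : Finset Bool),
        (ZMod.stdAddChar (e i * (bz p b - bz p (x i))) : ℂ)‖ ≤
      (if i ∉ F then 2 else 1) * (if i ∉ F ∧ e i ≠ 0 then γ else 1) := by
    intro i
    by_cases hi : i ∈ F
    · simp [hi, AddChar.map_zero_eq_one]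
    · simp only [hi, if_false, not_false_eq_true, if_true, true_and]
      rw [Fintype.sum_bool]
      have h4 : (ZMod.stdAddChar (e i * (bz p true - bz p (x i))) : ℂ) +
          ZMod.stdAddChar (e i * (bz p false - bz p (x i))) =
          ZMod.stdAddChar (-(e i * bz p (x i))) * (1 + ZMod.stdAddChar (e i)) := by
        have h5 : e i * (bz p true - bz p (x i)) = -(e i * bz p (x i)) + e i := by
          simp only [bz, if_true]
          ring
        have h6 : e i * (bz p false - bz p (x i)) = -(e i * bz p (x i)) := by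
          simp only [bz, Bool.false_eq_true, if_false]
          ring
        rw [h5, h6, AddChar.map_add_eq_mul]
        ring
      rw [h4, norm_mul, AddChar.norm_apply, one_mul]
      by_cases he : e i = 0
      · simp only [he, ne_eq, not_true_eq_false, if_false, mul_one, AddChar.map_zero_eq_one]
        rw [show (1 : ℂ) + 1 = 2 by norm_num]
        simp
      · simp only [he, ne_eq, not_false_eq_true, if_true]
        exact hγ _ he
  refine (Finset.prod_le_prod (fun i _ => norm_nonneg _) fun i _ => h3 i).trans ?_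
  rw [Finset.prod_mul_distrib]
  have h4 : ∏ i : Fin n, (if i ∉ F then (2 : ℝ) else 1) = 2 ^ (n - F.card) := by
    rw [Finset.prod_ite, Finset.prod_const, Finset.prod_const_one, mul_one]
    congr 1
    have h5 : (Finset.univ.filter fun i => i ∉ F) = Fᶜ := by
      ext i
      simp
    rw [h5, Finset.card_compl, Fintype.card_fin]
  have h5 : ∏ i : Fin n, (if i ∉ F ∧ e i ≠ 0 then γ else 1) = γ ^ wt F e := by
    rw [Finset.prod_ite, Finset.prod_const, Finset.prod_const_one, mul_one]
    rfl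
  rw [h4, h5]

/-- the counting formula -/
private theorem cnt_formula [Fact p.Prime] (F : Finset (Fin n))
    (U : Submodule (ZMod p) (Fin n → ZMod p)) [Fintype U] (x : Cube n) :
    ((Fintype.card U : ℂ)) * ((Nd F U x).ncard : ℂ) =
      ∑ e : U, ∑ y ∈ sc F x, (ZMod.stdAddChar (ev (e : Fin n → ZMod p) y - ev e x) : ℂ) := by
  classical
  rw [Finset.sum_comm]
  simp only [cnt_orth]
  rw [← Finset.sum_filter, Finset.sum_const, nsmul_eq_mul, mul_comm]
  congr 2
  rw [← Set.ncard_coe_finset]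
  congr 1
  ext y
  rw [Finset.coe_filter]
  exact ⟨fun h => ⟨mem_sc.2 h.1, h.2⟩, fun h => ⟨mem_sc.1 h.1, h.2⟩⟩

/-- If all the forms of `U` outside `U₀` have large weight outside `F`, the additional conditions of `U`
are nearly independent and uniform. -/
theorem count (p : ℕ) [Fact p.Prime] : ∃ γ : ℝ, 0 ≤ γ ∧ γ < 1 ∧
    ∀ (n th : ℕ) (F : Finset (Fin n)) (U₀ U : Submodule (ZMod p) (Fin n → ZMod p)) (x : Cube n),
      U₀ ≤ U → (∀ e ∈ U, e ∉ U₀ → th ≤ wt F e) →
      |((Nd F U x).ncard : ℝ) / 2 ^ (n - F.card) -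
        (Nat.card U₀ : ℝ) / Nat.card U * (((Nd F U₀ x).ncard : ℝ) / 2 ^ (n - F.card))| ≤ γ ^ th := by
  classical
  obtain ⟨γ, h0, h1, hγ⟩ := cnt_gamma p
  refine ⟨γ, h0, h1, fun n th F U₀ U x hU hth => ?_⟩
  let _ : Fintype U := Fintype.ofFinite U
  let _ : Fintype U₀ := Fintype.ofFinite U₀
  let T : (Fin n → ZMod p) → ℂ := fun e =>
    ∑ y ∈ sc F x, (ZMod.stdAddChar (ev e y - ev e x) : ℂ)
  have hA : ((Fintype.card U : ℂ)) * ((Nd F U x).ncard : ℂ) = ∑ e : U, T e := cnt_formula F U x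
  have hB : ((Fintype.card U₀ : ℂ)) * ((Nd F U₀ x).ncard : ℂ) = ∑ e : U₀, T e :=
    cnt_formula F U₀ x
  -- the sum over `U` splits
  have hsplit : ∑ e : U, T e = ∑ e : U₀, T e + ∑ e : U, if (e : Fin n → ZMod p) ∈ U₀ then 0
      else T e := by
    have h2 : ∑ e : U₀, T e = ∑ e : U, if (e : Fin n → ZMod p) ∈ U₀ then T e else 0 := by
      rw [← Finset.sum_filter]
      refine Finset.sum_bij (fun e _ => (⟨(e : Fin n → ZMod p), hU e.2⟩ : U)) ?_ ?_ ?_ ?_
      · intro e _
        exact Finset.mem_filter.2 ⟨Finset.mem_univ _, e.2⟩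
      · intro a _ b _ hab
        exact Subtype.ext (congrArg (fun t : U => (t : Fin n → ZMod p)) hab)
      · intro b hb
        exact ⟨⟨(b : Fin n → ZMod p), (Finset.mem_filter.1 hb).2⟩, Finset.mem_univ _, rfl⟩
      · intro e _
        rfl
    rw [h2, ← Finset.sum_add_distrib]
    refine Finset.sum_congr rfl fun e _ => ?_
    by_cases he : (e : Fin n → ZMod p) ∈ U₀
    · rw [if_pos he, if_pos he, add_zero]
    · rw [if_neg he, if_neg he, zero_add]
  have hpos : (0 : ℝ) < Fintype.card U := by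
    have : 0 < Fintype.card U := Fintype.card_pos_iff.2 ⟨0⟩
    exact_mod_cast this
  have h2pos : (0 : ℝ) < 2 ^ (n - F.card) := by positivity
  have hbound : ‖∑ e : U, if (e : Fin n → ZMod p) ∈ U₀ then 0 else T e‖ ≤
      (Fintype.card U : ℝ) * (2 ^ (n - F.card) * γ ^ th) := by
    refine (norm_sum_le _ _).trans ?_
    have h3 : ∀ e ∈ (Finset.univ : Finset U),
        ‖if (e : Fin n → ZMod p) ∈ U₀ then 0 else T e‖ ≤ 2 ^ (n - F.card) * γ ^ th := by
      intro e _
      by_cases he : (e : Fin n → ZMod p) ∈ U₀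
      · rw [if_pos he, norm_zero]
        positivity
      · rw [if_neg he]
        refine (cnt_one hγ F e x).trans ?_
        exact mul_le_mul_of_nonneg_left
          (pow_le_pow_of_le_one h0 h1.le (hth e e.2 he)) h2pos.le
    refine (Finset.sum_le_sum h3).trans ?_
    rw [Finset.sum_const, Finset.card_univ, nsmul_eq_mul]
  rw [Nat.card_eq_fintype_card, Nat.card_eq_fintype_card]
  have hkey : ‖((Fintype.card U : ℝ) * (Nd F U x).ncard -
      (Fintype.card U₀ : ℝ) * (Nd F U₀ x).ncard : ℝ)‖ ≤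
      (Fintype.card U : ℝ) * (2 ^ (n - F.card) * γ ^ th) := by
    refine le_trans (le_of_eq ?_) hbound
    rw [← Complex.norm_real]
    congr 1
    push_cast
    rw [hA, hB, hsplit]
    ring
  rw [Real.norm_eq_abs] at hkey
  have h4 : ((Nd F U x).ncard : ℝ) / 2 ^ (n - F.card) -
      (Fintype.card U₀ : ℝ) / Fintype.card U * (((Nd F U₀ x).ncard : ℝ) / 2 ^ (n - F.card)) =
      ((Fintype.card U : ℝ) * (Nd F U x).ncard - (Fintype.card U₀ : ℝ) * (Nd F U₀ x).ncard) /
        ((Fintype.card U : ℝ) * 2 ^ (n - F.card)) := by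
    field_simp
  rw [h4, abs_div, abs_of_pos (mul_pos hpos h2pos), div_le_iff₀ (mul_pos hpos h2pos)]
  refine hkey.trans (le_of_eq ?_)
  ring

end Tw
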