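import Pool.Agent.Lib.MP_9abc2e_lc.FEW.Occam

/-!
# MP_9abc2e_lc, project TW: circuits with at most two wide levels over MOD_p gates

Definitions used in the statement (helper64).
-/

set_option autoImplicit false

namespace Tw

open Few

variable {n : ℕ}

/-- The uniform distribution on the cube. -/
noncomputable def unif (n : ℕ) : Dist n where
  w := fun _ => 1 / 2 ^ n
  nonneg := fun _ => by positivity
  sum_one := by
    rw [Finset.sum_const, Finset.card_univ, Fintype.card_fun, Fintype.card_bool, Fintype.card_fin,
      nsmul_eq_mul]
    push_cast
    field_simp

/-- The `MOD_p` gates are at the bottom: all their inputs are literals. -/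
def ModBot (C : Circ n) : Prop :=
  ∀ i < C.size, C.kind i = Kind.mod → ∀ s ∈ C.inp i, ∃ j b, s = Src.lit j b

/-- The gates have ranks `0, 1, 2`. The rank does not decrease along the wires, it increases at every
wide gate (an AND, OR gate of fan-in larger than `k`), the wide gates have the ranks `1` and `2`, and at
most `r` of them have the rank `2`. So every path contains at most two wide gates, and at most `r` wide
gates are above another wide gate. -/
def WideLe (C : Circ n) (k r : ℕ) : Prop :=
  ∃ w : ℕ → ℕ, (∀ i < C.size, w i ≤ 2) ∧
    (∀ i < C.size, ∀ j, Src.gate j ∈ C.inp i → w j ≤ w i) ∧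
    (∀ i ∈ C.wide k, 1 ≤ w i ∧ ∀ j, Src.gate j ∈ C.inp i → w j < w i) ∧
    ((C.wide k).filter fun i => w i = 2).card ≤ r

/-- The functions computed by circuits of size at most `s` and depth at most `d`, whose gates are
`MOD_p` gates at the bottom (any number, any fan-in), NOT gates, arbitrary gates of fan-in at most `k`
(any number), and wide AND, OR gates (any number, any fan-in), such that every path contains at most two
wide gates and at most `r` wide gates are above another wide gate. -/
def TwoWide (p n d k r s : ℕ) : Set (Cube n → Bool) :=
  {f | ∃ C : Circ n, C.size ≤ s ∧ C.DepthLe d ∧ C.LocLe k ∧ ModBot C ∧ WideLe C k r ∧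
    ∀ x, ∃ v, C.IsVal p x v ∧ v C.out = f x}

end Tw
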