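import Pool.Agent.Lib.MP_9abc2e_lc.TW.Defs

/-!
# TW: expectations over lists of examples
-/

set_option autoImplicit false

open scoped Classical

namespace Tw

open Few

variable {n : ℕ}

/-- The expectation of `F` over lists of `m` independent examples. -/
noncomputable def EL (μ : Dist n) (m : ℕ) (F : List (Cube n) → ℝ) : ℝ :=
  ∑ S : Fin m → Cube n, (∏ i, μ.w (S i)) * F (List.ofFn S)

/-- The probability of an event. -/
noncomputable def PL (μ : Dist n) (m : ℕ) (P : List (Cube n) → Prop) : ℝ :=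
  EL μ m fun s => if P s then 1 else 0

theorem PL_eq (μ : Dist n) (m : ℕ) (P : List (Cube n) → Prop) :
    PL μ m P = μ.prS m {S | P (List.ofFn S)} := by
  unfold PL EL Dist.prS
  refine Finset.sum_congr rfl fun S _ => ?_
  beta_reduce
  by_cases h : P (List.ofFn S)
  · rw [if_pos h, if_pos (show S ∈ {S | P (List.ofFn S)} from h), mul_one]
  · rw [if_neg h, if_neg (show S ∉ {S | P (List.ofFn S)} from h), mul_zero]

theorem EL_zero (μ : Dist n) (F : List (Cube n) → ℝ) : EL μ 0 F = F [] := by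
  unfold EL
  rw [Fintype.sum_unique, Fin.prod_univ_zero, one_mul, List.ofFn_zero]

theorem EL_add (μ : Dist n) (a b : ℕ) (F : List (Cube n) → ℝ) :
    EL μ (a + b) F = EL μ a fun s => EL μ b fun s' => F (s ++ s') := by
  unfold EL
  rw [← (Fin.appendEquiv a b).sum_comp, Fintype.sum_prod_type]
  refine Finset.sum_congr rfl fun S _ => ?_
  rw [Finset.mul_sum]
  refine Finset.sum_congr rfl fun T _ => ?_
  have h1 : (Fin.appendEquiv a b) (S, T) = Fin.append S T := rfl
  rw [h1, Fin.prod_univ_add, List.ofFn_fin_append, mul_assoc]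
  congr 1
  · exact Finset.prod_congr rfl fun i _ => by rw [Fin.append_left]
  · congr 1
    exact Finset.prod_congr rfl fun i _ => by rw [Fin.append_right]

/-- only lists of length `m` matter -/
theorem EL_mono (μ : Dist n) (m : ℕ) {F G : List (Cube n) → ℝ}
    (h : ∀ s : List (Cube n), s.length = m → F s ≤ G s) : EL μ m F ≤ EL μ m G := by
  unfold EL
  refine Finset.sum_le_sum fun S _ => ?_
  exact mul_le_mul_of_nonneg_left (h _ List.length_ofFn)
    (Finset.prod_nonneg fun i _ => μ.nonneg _)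

theorem EL_const (μ : Dist n) (m : ℕ) (c : ℝ) : EL μ m (fun _ => c) = c := by
  unfold EL
  rw [← Finset.sum_mul, ← Fintype.sum_pow, μ.sum_one, one_pow, one_mul]

theorem EL_plus (μ : Dist n) (m : ℕ) (F G : List (Cube n) → ℝ) :
    EL μ m (fun s => F s + G s) = EL μ m F + EL μ m G := by
  unfold EL
  rw [← Finset.sum_add_distrib]
  exact Finset.sum_congr rfl fun S _ => mul_add _ _ _

theorem EL_mul (μ : Dist n) (m : ℕ) (c : ℝ) (F : List (Cube n) → ℝ) :
    EL μ m (fun s => c * F s) = c * EL μ m F := by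
  unfold EL
  rw [Finset.mul_sum]
  exact Finset.sum_congr rfl fun S _ => by ring

theorem PL_nonneg (μ : Dist n) (m : ℕ) (P : List (Cube n) → Prop) : 0 ≤ PL μ m P := by
  have h := EL_mono μ m (F := fun _ => 0) (G := fun s => if P s then 1 else 0) (fun s _ => by
    by_cases hP : P s
    · rw [if_pos hP]; exact zero_le_one
    · rw [if_neg hP])
  rw [EL_const] at h
  exact h

theorem PL_le_one (μ : Dist n) (m : ℕ) (P : List (Cube n) → Prop) : PL μ m P ≤ 1 := by
  have h := EL_mono μ m (F := fun s => if P s then 1 else 0) (G := fun _ => 1) (fun s _ => by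
    by_cases hP : P s
    · rw [if_pos hP]
    · rw [if_neg hP]; exact zero_le_one)
  rw [EL_const] at h
  exact h

theorem PL_mono (μ : Dist n) (m : ℕ) {P Q : List (Cube n) → Prop}
    (h : ∀ s : List (Cube n), s.length = m → P s → Q s) : PL μ m P ≤ PL μ m Q := by
  refine EL_mono μ m fun s hs => ?_
  by_cases hP : P s
  · rw [if_pos hP, if_pos (h s hs hP)]
  · rw [if_neg hP]
    split_ifs
    · exact zero_le_one
    · exact le_rfl

theorem PL_or (μ : Dist n) (m : ℕ) (P Q : List (Cube n) → Prop) :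
    PL μ m (fun s => P s ∨ Q s) ≤ PL μ m P + PL μ m Q := by
  unfold PL
  rw [← EL_plus]
  refine EL_mono μ m fun s _ => ?_
  by_cases hP : P s
  · rw [if_pos hP, if_pos (Or.inl hP)]
    split_ifs
    · norm_num
    · norm_num
  · by_cases hQ : Q s
    · rw [if_pos (Or.inr hQ), if_neg hP, if_pos hQ, zero_add]
    · rw [if_neg (not_or.2 ⟨hP, hQ⟩), if_neg hP, if_neg hQ, zero_add]

/-- a bad event in two steps -/
theorem PL_add (μ : Dist n) (a b : ℕ) (P : List (Cube n) → Prop) (Q : List (Cube n) → Prop)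
    {α β : ℝ} (hQ : PL μ a Q ≤ α) (hβ : 0 ≤ β)
    (h : ∀ s : List (Cube n), s.length = a → ¬ Q s → PL μ b (fun s' => P (s ++ s')) ≤ β) :
    PL μ (a + b) P ≤ α + β := by
  have h1 : PL μ (a + b) P = EL μ a fun s => PL μ b fun s' => P (s ++ s') :=
    EL_add μ a b _
  have h2 : (EL μ a fun s => PL μ b fun s' => P (s ++ s')) ≤
      EL μ a fun s => (if Q s then 1 else 0) + β := by
    refine EL_mono μ a fun s hs => ?_
    by_cases hq : Q s
    · rw [if_pos hq]
      exact (PL_le_one μ b _).trans (le_add_of_nonneg_right hβ)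
    · rw [if_neg hq, zero_add]
      exact h s hs hq
  rw [EL_plus, EL_const] at h2
  rw [h1]
  exact h2.trans (add_le_add_left hQ β)

/-- one example -/
theorem PL_one (μ : Dist n) (A : Set (Cube n)) :
    PL μ 1 (fun s => ∃ x ∈ s, x ∈ A) = μ.pr A := by
  unfold PL EL Dist.pr
  rw [← (Equiv.funUnique (Fin 1) (Cube n)).symm.sum_comp]
  refine Finset.sum_congr rfl fun x _ => ?_
  have h1 : List.ofFn ((Equiv.funUnique (Fin 1) (Cube n)).symm x) = [x] := rfl
  have h2 : (∏ i, μ.w ((Equiv.funUnique (Fin 1) (Cube n)).symm x i)) = μ.w x := by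
    rw [Fin.prod_univ_one]
    rfl
  rw [h1, h2]
  beta_reduce
  have h3 : (∃ y ∈ [x], y ∈ A) ↔ x ∈ A := by
    constructor
    · rintro ⟨y, hy, hyA⟩
      rw [List.mem_singleton.1 hy] at hyA
      exact hyA
    · exact fun hx => ⟨x, List.mem_singleton_self x, hx⟩
  by_cases hx : x ∈ A
  · rw [if_pos (h3.2 hx), if_pos hx, mul_one]
  · rw [if_neg (fun h => hx (h3.1 h)), if_neg hx, mul_zero]

/-- some example is in the set `A` -/
theorem PL_mem (μ : Dist n) (m : ℕ) (A : Set (Cube n)) :
    PL μ m (fun s => ∃ x ∈ s, x ∈ A) ≤ m * μ.pr A := by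
  have hA : 0 ≤ μ.pr A := by
    rw [← PL_one]
    exact PL_nonneg _ _ _
  induction m with
  | zero =>
    unfold PL
    rw [EL_zero, if_neg (by rintro ⟨x, hx, -⟩; exact absurd hx List.not_mem_nil), Nat.cast_zero,
      zero_mul]
  | succ m ih =>
    have h := PL_add μ m 1 (fun s => ∃ x ∈ s, x ∈ A) (fun s => ∃ x ∈ s, x ∈ A) ih hA
      (fun s _ hs => by
        rw [← PL_one]
        refine PL_mono μ 1 fun s' _ => ?_
        rintro ⟨x, hx, hxA⟩
        rcases List.mem_append.1 hx with h1 | h1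
        · exact absurd ⟨x, h1, hxA⟩ hs
        · exact ⟨x, h1, hxA⟩)
    refine h.trans (le_of_eq ?_)
    rw [Nat.cast_succ]
    ring

end Tw
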