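import Pool.Agent.Lib.MP_9abc2e_lc.TW.Out

/-!
# TW: linear forms over F_p on the cube, nodes
-/

set_option autoImplicit false

namespace Tw

open Few

variable {p n : ℕ}

/-- The value of the form `e` at `x`. -/
def ev (e : Fin n → ZMod p) (x : Cube n) : ZMod p := ∑ i, e i * bz p (x i)

/-- `φ` depends only on `K` linear forms. -/
def Jun (p : ℕ) {n : ℕ} (K : ℕ) (φ : Cube n → Bool) : Prop :=
  ∃ L : Submodule (ZMod p) (Fin n → ZMod p), Module.finrank (ZMod p) L ≤ K ∧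
    ∀ x y, (∀ e ∈ L, ev e x = ev e y) → φ x = φ y

/-- The class of `x`: the points which agree with `x` on the coordinates in `F` and at the forms of
`U`. -/
def Nd (F : Finset (Fin n)) (U : Submodule (ZMod p) (Fin n → ZMod p)) (x : Cube n) :
    Set (Cube n) :=
  {y | (∀ i ∈ F, y i = x i) ∧ ∀ e ∈ U, ev e y = ev e x}

/-- The weight of a form outside `F`. -/
def wt (F : Finset (Fin n)) (e : Fin n → ZMod p) : ℕ :=
  (Finset.univ.filter fun i => i ∉ F ∧ e i ≠ 0).card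

/-- The forms of `U` with support in `F`. -/
def KF (F : Finset (Fin n)) (U : Submodule (ZMod p) (Fin n → ZMod p)) :
    Submodule (ZMod p) (Fin n → ZMod p) where
  carrier := {e | e ∈ U ∧ ∀ i, i ∉ F → e i = 0}
  add_mem' := by
    rintro a b ⟨ha, ha'⟩ ⟨hb, hb'⟩
    refine ⟨U.add_mem ha hb, fun i hi => ?_⟩
    rw [Pi.add_apply, ha' i hi, hb' i hi, add_zero]
  zero_mem' := ⟨U.zero_mem, fun _ _ => rfl⟩
  smul_mem' := by
    rintro c a ⟨ha, ha'⟩
    refine ⟨U.smul_mem c ha, fun i hi => ?_⟩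
    rw [Pi.smul_apply, ha' i hi, smul_zero]

/-- Every form of `U` has weight `0` or at least `w` outside `F`. -/
def Reg (w : ℕ) (F : Finset (Fin n)) (U : Submodule (ZMod p) (Fin n → ZMod p)) : Prop :=
  ∀ e ∈ U, wt F e = 0 ∨ w ≤ wt F e

theorem mem_KF {F : Finset (Fin n)} {U : Submodule (ZMod p) (Fin n → ZMod p)}
    {e : Fin n → ZMod p} : e ∈ KF F U ↔ e ∈ U ∧ ∀ i, i ∉ F → e i = 0 := Iff.rfl

theorem wt_eq_zero {F : Finset (Fin n)} {e : Fin n → ZMod p} :
    wt F e = 0 ↔ ∀ i, i ∉ F → e i = 0 := by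
  unfold wt
  rw [Finset.card_eq_zero, Finset.filter_eq_empty_iff]
  constructor
  · intro h i hi
    by_contra h1
    exact h (Finset.mem_univ i) ⟨hi, h1⟩
  · rintro h i - ⟨h1, h2⟩
    exact h2 (h i h1)

theorem mem_KF_iff {F : Finset (Fin n)} {U : Submodule (ZMod p) (Fin n → ZMod p)}
    {e : Fin n → ZMod p} : e ∈ KF F U ↔ e ∈ U ∧ wt F e = 0 := by
  rw [mem_KF, wt_eq_zero]

theorem KF_le (F : Finset (Fin n)) (U : Submodule (ZMod p) (Fin n → ZMod p)) : KF F U ≤ U :=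
  fun _ h => h.1

theorem KF_mono {F G : Finset (Fin n)} (h : F ⊆ G) (U : Submodule (ZMod p) (Fin n → ZMod p)) :
    KF F U ≤ KF G U :=
  fun _ he => ⟨he.1, fun i hi => he.2 i fun h' => hi (h h')⟩

theorem wt_anti {F G : Finset (Fin n)} (h : F ⊆ G) (e : Fin n → ZMod p) : wt G e ≤ wt F e := by
  unfold wt
  refine Finset.card_le_card fun i hi => ?_
  rw [Finset.mem_filter] at hi ⊢
  exact ⟨hi.1, fun h' => hi.2.1 (h h'), hi.2.2⟩

theorem wt_le_add {F G : Finset (Fin n)} (h : F ⊆ G) (e : Fin n → ZMod p) :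
    wt F e ≤ wt G e + (G.card - F.card) := by
  have h1 : (Finset.univ.filter fun i => i ∉ F ∧ e i ≠ 0) ⊆
      (Finset.univ.filter fun i => i ∉ G ∧ e i ≠ 0) ∪ (G \ F) := by
    intro i hi
    rw [Finset.mem_filter] at hi
    by_cases hG : i ∈ G
    · exact Finset.mem_union_right _ (Finset.mem_sdiff.2 ⟨hG, hi.2.1⟩)
    · exact Finset.mem_union_left _ (Finset.mem_filter.2 ⟨hi.1, hG, hi.2.2⟩)
  have h2 := (Finset.card_le_card h1).trans (Finset.card_union_le _ _)
  rw [Finset.card_sdiff_of_subset h] at h2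
  exact h2

theorem mem_Nd_self (F : Finset (Fin n)) (U : Submodule (ZMod p) (Fin n → ZMod p)) (x : Cube n) :
    x ∈ Nd F U x := ⟨fun _ _ => rfl, fun _ _ => rfl⟩

theorem Nd_eq {F : Finset (Fin n)} {U : Submodule (ZMod p) (Fin n → ZMod p)} {x y : Cube n}
    (h : y ∈ Nd F U x) : Nd F U y = Nd F U x := by
  ext z
  constructor
  · intro hz
    exact ⟨fun i hi => (hz.1 i hi).trans (h.1 i hi), fun e he => (hz.2 e he).trans (h.2 e he)⟩
  · intro hz
    exact ⟨fun i hi => (hz.1 i hi).trans (h.1 i hi).symm,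
      fun e he => (hz.2 e he).trans (h.2 e he).symm⟩

theorem Nd_anti {F G : Finset (Fin n)} {U U' : Submodule (ZMod p) (Fin n → ZMod p)} (h : F ⊆ G)
    (h' : U ≤ U') (x : Cube n) : Nd G U' x ⊆ Nd F U x :=
  fun _ hy => ⟨fun i hi => hy.1 i (h hi), fun e he => hy.2 e (h' he)⟩

end Tw
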