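import Pool.Agent.Lib.MP_9abc2e_lc.TW.Lst
import Pool.Agent.Lib.MP_9abc2e_lc.TW.Exp

/-!
# TW: one batch
-/

set_option autoImplicit false

open scoped Classical

namespace Tw

open Few

variable {p n : ℕ}

/-- One step of `bas`. -/
private def Gen_stp (p D : ℕ) (b : Bool) (B : List (List (ZMod p))) (a : List Bool × Bool) :
    List (List (ZMod p)) :=
  if a.2 = b then B else if isZ (red B (feat p a.1 D)) then B
    else B ++ [red B (feat p a.1 D)]

private theorem Gen_stp_spec [Fact p.Prime] (D : ℕ) (b : Bool) (B : List (List (ZMod p)))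
    (a : List Bool × Bool) (ha : a.1.length = n) (hB : Ech ((n + 1) ^ D) B) :
    Ech ((n + 1) ^ D) (Gen_stp p D b B a) ∧
      spn ((n + 1) ^ D) (Gen_stp p D b B a) = spn ((n + 1) ^ D) B ⊔
        Submodule.span (ZMod p) {w | a.2 ≠ b ∧ w = vec ((n + 1) ^ D) (feat p a.1 D)} := by
  have hl : (feat p a.1 D).length = (n + 1) ^ D := by rw [feat_length, ha]
  by_cases h1 : a.2 = b
  · have h2 : {w | a.2 ≠ b ∧ w = vec ((n + 1) ^ D) (feat p a.1 D)} = ∅ := by
      ext w
      simp [h1]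
    rw [h2, Submodule.span_empty, sup_bot_eq, Gen_stp, if_pos h1]
    exact ⟨hB, rfl⟩
  · have h2 : {w | a.2 ≠ b ∧ w = vec ((n + 1) ^ D) (feat p a.1 D)} =
        {vec ((n + 1) ^ D) (feat p a.1 D)} := by
      ext w
      simp [h1]
    rw [h2, Gen_stp, if_neg h1]
    by_cases h3 : isZ (red B (feat p a.1 D)) = true
    · rw [if_pos h3]
      refine ⟨hB, ?_⟩
      have h4 := (red_zero_iff hB hl).1 h3
      rw [eq_comm, sup_eq_left, Submodule.span_singleton_le_iff_mem]
      exact h4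
    · rw [if_neg h3]
      have h4 : isZ (red B (feat p a.1 D)) = false := by simpa using h3
      exact ⟨ech_snoc hB hl h4, spn_snoc hB hl⟩

private theorem Gen_fold [Fact p.Prime] (D : ℕ) (b : Bool) (S : List (List Bool × Bool)) :
    ∀ B : List (List (ZMod p)), (∀ a ∈ S, a.1.length = n) → Ech ((n + 1) ^ D) B →
    Ech ((n + 1) ^ D) (S.foldl (Gen_stp p D b) B) ∧
      spn ((n + 1) ^ D) (S.foldl (Gen_stp p D b) B) = spn ((n + 1) ^ D) B ⊔
        Submodule.span (ZMod p)
          {w | ∃ a ∈ S, a.2 ≠ b ∧ w = vec ((n + 1) ^ D) (feat p a.1 D)} := by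
  induction S with
  | nil =>
    intro B _ hB
    refine ⟨hB, ?_⟩
    have h2 : {w : Fin ((n + 1) ^ D) → ZMod p | ∃ a ∈ ([] : List (List Bool × Bool)),
        a.2 ≠ b ∧ w = vec ((n + 1) ^ D) (feat p a.1 D)} = ∅ := by
      ext w
      simp
    rw [h2, Submodule.span_empty, sup_bot_eq]
    rfl
  | cons a S ih =>
    intro B hS hB
    obtain ⟨h1, h2⟩ := Gen_stp_spec D b B a (hS a List.mem_cons_self) hB
    obtain ⟨h3, h4⟩ := ih (Gen_stp p D b B a) (fun c hc => hS c (List.mem_cons_of_mem _ hc)) h1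
    rw [List.foldl_cons]
    refine ⟨h3, ?_⟩
    rw [h4, h2, sup_assoc, ← Submodule.span_union]
    congr 2
    ext w
    constructor
    · rintro (⟨h5, h6⟩ | ⟨c, hc, h5, h6⟩)
      · exact ⟨a, List.mem_cons_self, h5, h6⟩
      · exact ⟨c, List.mem_cons_of_mem _ hc, h5, h6⟩
    · rintro ⟨c, hc, h5, h6⟩
      rcases List.mem_cons.1 hc with h7 | h7
      · left
        rw [← h7]
        exact ⟨h5, h6⟩
      · right
        exact ⟨c, h7, h5, h6⟩

/-- The basis computed by `bas` spans the features of the examples whose label is not `b`. -/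
theorem bas_spec [Fact p.Prime] (D : ℕ) (b : Bool) (S : List (List Bool × Bool))
    (hS : ∀ a ∈ S, a.1.length = n) : Ech ((n + 1) ^ D) (bas p D b S) ∧
      spn ((n + 1) ^ D) (bas p D b S) = Submodule.span (ZMod p)
        {w | ∃ a ∈ S, a.2 ≠ b ∧ w = vec ((n + 1) ^ D) (feat p a.1 D)} := by
  have h0 : Ech ((n + 1) ^ D) ([] : List (List (ZMod p))) :=
    ⟨fun b hb => absurd hb List.not_mem_nil, List.Pairwise.nil⟩
  obtain ⟨h1, h2⟩ := Gen_fold D b S [] hS h0
  have h3 : spn ((n + 1) ^ D) ([] : List (List (ZMod p))) = ⊥ := by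
    rw [spn, Submodule.span_eq_bot]
    rintro w ⟨c, hc, _⟩
    exact absurd hc List.not_mem_nil
  rw [h3, bot_sup_eq] at h2
  exact ⟨h1, h2⟩

/-- every subspace is spanned by `N` vectors -/
private theorem Gen_span [Fact p.Prime] {N : ℕ} (W : Submodule (ZMod p) (Fin N → ZMod p)) :
    ∃ a : Fin N → Fin N → ZMod p, Submodule.span (ZMod p) (Set.range a) = W := by
  have h1 : Module.finrank (ZMod p) W ≤ N := by
    have := Submodule.finrank_le W
    rwa [Module.finrank_fin_fun] at this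
  set b := Module.finBasis (ZMod p) W
  refine ⟨fun i => if h : (i : ℕ) < Module.finrank (ZMod p) W then (b ⟨i, h⟩ : Fin N → ZMod p)
    else 0, ?_⟩
  refine le_antisymm ?_ ?_
  · rw [Submodule.span_le]
    rintro _ ⟨i, rfl⟩
    show (if h : (i : ℕ) < Module.finrank (ZMod p) W then (b ⟨i, h⟩ : Fin N → ZMod p) else 0) ∈ W
    split_ifs with h
    · exact (b ⟨i, h⟩).2
    · exact W.zero_mem
  · intro w hw
    have h2 : (⟨w, hw⟩ : W) ∈ Submodule.span (ZMod p) (Set.range b) := by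
      rw [b.span_eq]
      exact Submodule.mem_top
    have h3 := Submodule.apply_mem_span_image_of_mem_span W.subtype h2
    refine Submodule.span_mono ?_ h3
    rintro _ ⟨_, ⟨i, rfl⟩, rfl⟩
    refine ⟨⟨i, i.2.trans_le h1⟩, ?_⟩
    show (if h : (i : ℕ) < Module.finrank (ZMod p) W then (b ⟨i, h⟩ : Fin N → ZMod p) else 0) = _
    rw [dif_pos i.2]
    rfl

/-- closure algorithm, one batch: apart from a small probability the set of the points of `G` which are
not in the span of the batch is small -/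
theorem gen_prob [Fact p.Prime] (μ : Dist n) {N : ℕ} (V : Cube n → Fin N → ZMod p)
    (G : Set (Cube n)) (m : ℕ) {ε : ℝ} (h0 : 0 ≤ ε) (h1 : ε ≤ 1) :
    PL μ m (fun s => ε < μ.pr {x | x ∈ G ∧
      V x ∉ Submodule.span (ZMod p) {w | ∃ y ∈ s, y ∈ G ∧ w = V y}}) ≤
      (p : ℝ) ^ N ^ 2 * (1 - ε) ^ m := by
  set h : (Fin N → Fin N → ZMod p) → Cube n → Bool := fun a x =>
    decide (x ∈ G ∧ V x ∉ Submodule.span (ZMod p) (Set.range a)) with hh
  have hocc := occam μ (fun _ => false) h m h0 h1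
  have hcard : (Fintype.card (Fin N → Fin N → ZMod p) : ℝ) = (p : ℝ) ^ N ^ 2 := by
    rw [Fintype.card_fun, Fintype.card_fun, ZMod.card, Fintype.card_fin, ← pow_mul, sq]
    push_cast
    rfl
  rw [hcard] at hocc
  rw [PL_eq]
  refine le_trans (prS_mono μ ?_) hocc
  intro S hS
  have hS' : ε < μ.pr {x | x ∈ G ∧ V x ∉ Submodule.span (ZMod p)
      {w | ∃ y ∈ List.ofFn S, y ∈ G ∧ w = V y}} := hS
  obtain ⟨a, ha⟩ := Gen_span (Submodule.span (ZMod p)
      {w | ∃ y ∈ List.ofFn S, y ∈ G ∧ w = V y})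
  refine ⟨a, ?_, fun i => ?_⟩
  · have h2 : {x | h a x ≠ (fun _ => false : Cube n → Bool) x} =
        {x | x ∈ G ∧ V x ∉ Submodule.span (ZMod p)
          {w | ∃ y ∈ List.ofFn S, y ∈ G ∧ w = V y}} := by
      ext x
      rw [Set.mem_ofPred_eq, Set.mem_ofPred_eq, hh]
      dsimp only
      rw [ha, Bool.ne_false_iff, decide_eq_true_iff]
    rw [Dist.err, h2]
    exact hS'
  · show decide (S i ∈ G ∧ V (S i) ∉ Submodule.span (ZMod p) (Set.range a)) = false
    rw [decide_eq_false_iff_not, ha]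
    rintro ⟨h2, h3⟩
    exact h3 (Submodule.subset_span ⟨S i, (List.mem_ofFn' _ _).2 ⟨i, rfl⟩, h2, rfl⟩)

end Tw
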