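import Pool.Agent.Lib.MP_9abc2e_lc.TW.RmD

/-!
# TW: distance of Reed-Muller codes, indicators of nodes
-/

set_option autoImplicit false

namespace Tw

open Few

variable {p n : ℕ}

/-- finite products of functions of bounded degree -/
theorem pol_prod {ι : Type*} (s : Finset ι) {D : ℕ} (q : ι → Cube n → ZMod p)
    (h : ∀ i ∈ s, q i ∈ Pol p n D) : (fun x => ∏ i ∈ s, q i x) ∈ Pol p n (s.card * D) := by
  classical
  induction s using Finset.induction_on with
  | empty =>
    simp only [Finset.prod_empty]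
    exact Pol.const 1
  | insert a s ha ih =>
    have h1 := Pol.mul (h a (Finset.mem_insert_self _ _))
      (ih fun i hi => h i (Finset.mem_insert_of_mem hi))
    simp only [Finset.prod_insert ha, Finset.card_insert_of_notMem ha]
    have e : D + s.card * D = (s.card + 1) * D := by ring
    rw [e] at h1
    exact h1

theorem ev_mem (e : Fin n → ZMod p) : (fun x => ev e x) ∈ Pol p n 1 := by
  have h : (fun x : Cube n => ev e x) = ∑ i, e i • fun x : Cube n => bz p (x i) := by
    funext x
    rw [Finset.sum_apply]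
    rfl
  rw [h]
  exact Submodule.sum_mem _ fun i _ => Submodule.smul_mem _ _ (Pol.bit i)

theorem ev_add (a b : Fin n → ZMod p) (x : Cube n) : ev (a + b) x = ev a x + ev b x := by
  unfold ev
  rw [← Finset.sum_add_distrib]
  exact Finset.sum_congr rfl fun i _ => by rw [Pi.add_apply, add_mul]

theorem ev_smul (c : ZMod p) (a : Fin n → ZMod p) (x : Cube n) : ev (c • a) x = c * ev a x := by
  unfold ev
  rw [Finset.mul_sum]
  exact Finset.sum_congr rfl fun i _ => by rw [Pi.smul_apply, smul_eq_mul, mul_assoc]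

theorem ev_zero (x : Cube n) : ev (0 : Fin n → ZMod p) x = 0 := by
  unfold ev
  exact Finset.sum_eq_zero fun i _ => by rw [Pi.zero_apply, zero_mul]

/-- The forms with equal values at `x` and `y`. -/
def eqF (x y : Cube n) : Submodule (ZMod p) (Fin n → ZMod p) where
  carrier := {e | ev e y = ev e x}
  add_mem' := by
    intro a b ha hb
    show ev (a + b) y = ev (a + b) x
    rw [ev_add, ev_add, ha, hb]
  zero_mem' := by
    show ev 0 y = ev 0 x
    rw [ev_zero, ev_zero]
  smul_mem' := by
    intro c a ha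
    show ev (c • a) y = ev (c • a) x
    rw [ev_smul, ev_smul, ha]

theorem mem_eqF {x y : Cube n} {e : Fin n → ZMod p} : e ∈ eqF x y ↔ ev e y = ev e x := Iff.rfl

/-- A form with support in `F` has the same value at points which agree on `F`. -/
theorem ev_eq_of_supp {F : Finset (Fin n)} {e : Fin n → ZMod p} (he : ∀ i, i ∉ F → e i = 0)
    {x y : Cube n} (h : ∀ i ∈ F, y i = x i) : ev e y = ev e x := by
  unfold ev
  refine Finset.sum_congr rfl fun i _ => ?_
  by_cases hi : i ∈ F
  · rw [h i hi]
  · rw [he i hi, zero_mul, zero_mul]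

/-- `k` generators of a subspace of dimension at most `k` -/
theorem exists_gen [Fact p.Prime] (W : Submodule (ZMod p) (Fin n → ZMod p)) {k : ℕ}
    (h : Module.finrank (ZMod p) W ≤ k) :
    ∃ l : Fin k → Fin n → ZMod p, (∀ j, l j ∈ W) ∧ W ≤ Submodule.span (ZMod p) (Set.range l) := by
  classical
  let b := Module.finBasis (ZMod p) W
  refine ⟨fun j => if hj : j.1 < Module.finrank (ZMod p) W then (b ⟨j.1, hj⟩ : Fin n → ZMod p)
    else 0, fun j => ?_, fun e he => ?_⟩
  · by_cases hj : j.1 < Module.finrank (ZMod p) W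
    · simp only [dif_pos hj]
      exact (b ⟨j.1, hj⟩).2
    · simp only [dif_neg hj]
      exact W.zero_mem
  · have h1 := b.sum_repr ⟨e, he⟩
    have h2 : e = ∑ i, b.repr ⟨e, he⟩ i • (b i : Fin n → ZMod p) := by
      have h3 := congrArg Subtype.val h1
      rw [AddSubmonoidClass.coe_finsetSum] at h3
      exact h3.symm
    rw [h2]
    refine Submodule.sum_mem _ fun i _ => Submodule.smul_mem _ _ (Submodule.subset_span ?_)
    exact ⟨⟨i.1, i.2.trans_le h⟩, dif_pos i.2⟩

theorem pow_ne_iff [Fact p.Prime] (a : ZMod p) : 1 - a ^ (p - 1) ≠ 0 ↔ a = 0 := by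
  constructor
  · intro h
    by_contra ha
    exact h (by rw [ZMod.pow_card_sub_one_eq_one ha, sub_self])
  · rintro rfl
    have h1 : p - 1 ≠ 0 := by
      have := (Fact.out : p.Prime).two_le
      omega
    rw [zero_pow h1, sub_zero]
    exact one_ne_zero

/-- The indicator of a node, when the conditions are the coordinates in `F` and `k` forms. -/
theorem ind_pol [Fact p.Prime] (F : Finset (Fin n)) {k : ℕ} (l : Fin k → Fin n → ZMod p)
    (x : Cube n) : ∃ q ∈ Pol p n (F.card + (p - 1) * k),
      ∀ y, q y ≠ 0 ↔ (∀ i ∈ F, y i = x i) ∧ ∀ j, ev (l j) y = ev (l j) x := by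
  classical
  let c : Fin n → Cube n → ZMod p := fun i y => if x i then bz p (y i) else 1 - bz p (y i)
  let g : Fin k → Cube n → ZMod p := fun j y => 1 - (ev (l j) y - ev (l j) x) ^ (p - 1)
  have hc : ∀ i, c i ∈ Pol p n 1 := by
    intro i
    by_cases hx : x i = true
    · have e : c i = fun y => bz p (y i) := by
        funext y
        simp only [c, if_pos hx]
      rw [e]
      exact Pol.bit i
    · have e : c i = fun y => 1 - bz p (y i) := by
        funext y
        simp only [c, if_neg hx]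
      rw [e]
      exact Pol.sub1 (Pol.bit i)
  have hg : ∀ j, g j ∈ Pol p n (p - 1) := by
    intro j
    have h1 : (fun y => ev (l j) y - ev (l j) x) ∈ Pol p n 1 :=
      Submodule.sub_mem _ (ev_mem (l j)) (Pol.const _)
    have h2 := Pol.pow h1 (p - 1)
    rw [mul_one] at h2
    exact Pol.sub1 h2
  refine ⟨fun y => (∏ i ∈ F, c i y) * ∏ j, g j y, ?_, fun y => ?_⟩
  · have h1 := Pol.mul (pol_prod F c fun i _ => hc i)
      (pol_prod Finset.univ g fun j _ => hg j)
    rw [mul_one, Finset.card_univ, Fintype.card_fin, mul_comm k] at h1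
    exact h1
  · rw [mul_ne_zero_iff, Finset.prod_ne_zero_iff, Finset.prod_ne_zero_iff]
    refine and_congr (forall₂_congr fun i _ => ?_) ?_
    · simp only [c]
      cases x i <;> cases y i <;> simp [bz]
    · constructor
      · intro h j
        have h1 := h j (Finset.mem_univ j)
        simp only [g] at h1
        exact sub_eq_zero.1 ((pow_ne_iff _).1 h1)
      · intro h j _
        simp only [g]
        exact (pow_ne_iff _).2 (sub_eq_zero.2 (h j))

/-- The indicator of a node. -/
theorem nd_pol [Fact p.Prime] (F : Finset (Fin n)) (U : Submodule (ZMod p) (Fin n → ZMod p))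
    (x : Cube n) : ∃ q ∈ Pol p n (F.card + (p - 1) * Module.finrank (ZMod p) U),
      ∀ y, q y ≠ 0 ↔ y ∈ Nd F U x := by
  obtain ⟨l, h1, h2⟩ := exists_gen U le_rfl
  obtain ⟨q, hq, hq2⟩ := ind_pol F l x
  refine ⟨q, hq, fun y => (hq2 y).trans ?_⟩
  refine and_congr_right fun _ => ⟨fun h e he => ?_, fun h j => h _ (h1 j)⟩
  have h3 : Submodule.span (ZMod p) (Set.range l) ≤ eqF x y := by
    rw [Submodule.span_le]
    rintro _ ⟨j, rfl⟩
    exact h j
  exact h3 (h2 he)

/-- A node is large, if the forms with support in `F` and `k` other forms give all the conditions. -/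
theorem nd_big [Fact p.Prime] (F : Finset (Fin n)) {U : Submodule (ZMod p) (Fin n → ZMod p)}
    {k : ℕ} (hk : Module.finrank (ZMod p) U ≤ Module.finrank (ZMod p) (KF F U) + k) (x : Cube n) :
    2 ^ n ≤ 2 ^ (F.card + (p - 1) * k) * (Nd F U x).ncard := by
  obtain ⟨C, hC⟩ := Submodule.exists_isCompl (KF F U)
  have hsup : KF F U ⊔ (C ⊓ U) = U := by
    rw [← sup_inf_assoc_of_le C (KF_le F U), hC.sup_eq_top, top_inf_eq]
  have hinf : KF F U ⊓ (C ⊓ U) = ⊥ := by
    rw [← inf_assoc, hC.inf_eq_bot, bot_inf_eq]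
  have hdim := Submodule.finrank_sup_add_finrank_inf_eq (KF F U) (C ⊓ U)
  rw [hsup, hinf, finrank_bot, add_zero] at hdim
  obtain ⟨l, h1, h2⟩ := exists_gen (C ⊓ U) (k := k) (by omega)
  obtain ⟨q, hq, hq2⟩ := ind_pol F l x
  have hsub : {y | q y ≠ 0} ⊆ Nd F U x := by
    intro y hy
    obtain ⟨h3, h4⟩ := (hq2 y).1 hy
    refine ⟨h3, fun e he => ?_⟩
    have h5 : U ≤ eqF x y := by
      rw [← hsup]
      refine sup_le (fun e he => ev_eq_of_supp he.2 h3) (h2.trans ?_)
      rw [Submodule.span_le]
      rintro _ ⟨j, rfl⟩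
      exact h4 j
    exact h5 he
  have h6 := rm_dist hq ⟨x, (hq2 x).2 ⟨fun _ _ => rfl, fun _ => rfl⟩⟩
  exact h6.trans (Nat.mul_le_mul_left _ (Set.ncard_le_ncard hsub (Set.toFinite _)))

/-- The set where a function of `K` forms has a given value is closed. -/
theorem Jun.closed [Fact p.Prime] {K : ℕ} {φ : Cube n → Bool} (h : Jun p K φ) (b : Bool) :
    Closed p ((p - 1) * K) {x | φ x = b} := by
  obtain ⟨L, hL, hφ⟩ := h
  choose q hq hq2 using fun x => nd_pol (∅ : Finset (Fin n)) L x
  refine ⟨{r | ∃ x, φ x ≠ b ∧ r = q x}, ?_, ?_⟩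
  · rintro _ ⟨x, _, rfl⟩
    refine Pol.le ?_ (hq x)
    rw [Finset.card_empty, zero_add]
    exact Nat.mul_le_mul_left _ hL
  · ext y
    constructor
    · rintro hy _ ⟨x, hx, rfl⟩
      by_contra h0
      have h1 := (hq2 x y).1 h0
      exact hx ((hφ x y fun e he => (h1.2 e he).symm).trans hy)
    · intro hy
      by_contra h0
      exact (hq2 y y).2 (mem_Nd_self _ _ _) (hy _ ⟨y, h0, rfl⟩)

end Tw
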