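import Pool.Agent.Lib.MP_9abc2e_lc.TW.Cnt
import Pool.Agent.Lib.MP_9abc2e_lc.TW.Rm

/-!
# TW: regular nodes; a condition which is possible has a positive proportion
-/

set_option autoImplicit false

namespace Tw

open Few

variable {p n : ℕ}

private theorem Kill_step [Fact p.Prime] {w : ℕ} {G : Finset (Fin n)}
    {U : Submodule (ZMod p) (Fin n → ZMod p)} (h : ¬ Reg w G U) :
    ∃ G' : Finset (Fin n), G ⊆ G' ∧ G'.card ≤ G.card + w ∧
      Module.finrank (ZMod p) (KF G U) + 1 ≤ Module.finrank (ZMod p) (KF G' U) := by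
  unfold Reg at h
  push Not at h
  obtain ⟨e, he, h0, h1⟩ := h
  refine ⟨G ∪ Finset.univ.filter fun i => i ∉ G ∧ e i ≠ 0, Finset.subset_union_left, ?_, ?_⟩
  · exact (Finset.card_union_le _ _).trans (Nat.add_le_add_left h1.le _)
  · refine Submodule.finrank_lt_finrank_of_lt (lt_of_le_of_ne
      (KF_mono Finset.subset_union_left U) fun h => ?_)
    refine h0 (mem_KF_iff.1 (?_ : e ∈ KF G U)).2
    rw [h]
    refine ⟨he, fun i hi => ?_⟩
    by_contra h2
    refine hi (Finset.mem_union_right _ (Finset.mem_filter.2 ⟨Finset.mem_univ i, ?_, h2⟩))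
    exact fun h3 => hi (Finset.mem_union_left _ h3)

/-- Regularization. -/
theorem greedy [Fact p.Prime] (w : ℕ) (F : Finset (Fin n))
    (U : Submodule (ZMod p) (Fin n → ZMod p)) : ∃ G : Finset (Fin n), F ⊆ G ∧ Reg w G U ∧
      G.card + w * Module.finrank (ZMod p) (KF F U) ≤
        F.card + w * Module.finrank (ZMod p) (KF G U) := by
  have key : ∀ (m : ℕ) (F : Finset (Fin n)), Module.finrank (ZMod p) U ≤
      Module.finrank (ZMod p) (KF F U) + m → ∃ G : Finset (Fin n), F ⊆ G ∧ Reg w G U ∧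
      G.card + w * Module.finrank (ZMod p) (KF F U) ≤
        F.card + w * Module.finrank (ZMod p) (KF G U) := by
    intro m
    induction m with
    | zero =>
      intro F hm
      by_cases hr : Reg w F U
      · exact ⟨F, Finset.Subset.refl F, hr, le_refl _⟩
      · obtain ⟨G', -, -, h3⟩ := Kill_step hr
        have h4 := Submodule.finrank_mono (KF_le G' U)
        omega
    | succ m ih =>
      intro F hm
      by_cases hr : Reg w F U
      · exact ⟨F, Finset.Subset.refl F, hr, le_refl _⟩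
      · obtain ⟨G', h1, h2, h3⟩ := Kill_step hr
        obtain ⟨G, g1, g2, g3⟩ := ih G' (by omega)
        refine ⟨G, h1.trans g1, g2, ?_⟩
        have h4 := Nat.mul_le_mul_left w h3
        rw [Nat.mul_add, Nat.mul_one] at h4
        omega
  exact key _ F (Nat.le_add_left _ _)

/-- Regularization with few coordinates. -/
theorem greedy' [Fact p.Prime] (w k : ℕ) (F : Finset (Fin n))
    (U : Submodule (ZMod p) (Fin n → ZMod p))
    (h : ∀ G : Finset (Fin n), F ⊆ G → G.card ≤ F.card + w * (k + 1) →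
      Module.finrank (ZMod p) (KF G U) ≤ Module.finrank (ZMod p) (KF F U) + k) :
    ∃ G : Finset (Fin n), F ⊆ G ∧ Reg w G U ∧ G.card ≤ F.card + w * k := by
  have key : ∀ (m : ℕ) (G : Finset (Fin n)) (j : ℕ), F ⊆ G → G.card ≤ F.card + w * j → j ≤ k →
      Module.finrank (ZMod p) (KF F U) + j ≤ Module.finrank (ZMod p) (KF G U) →
      k ≤ j + m → ∃ G : Finset (Fin n), F ⊆ G ∧ Reg w G U ∧ G.card ≤ F.card + w * k := by
    intro m
    induction m with
    | zero =>
      intro G j h1 h2 h3 h4 h5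
      have hj : j = k := le_antisymm h3 h5
      subst hj
      by_cases hr : Reg w G U
      · exact ⟨G, h1, hr, h2⟩
      · obtain ⟨G', g1, g2, g3⟩ := Kill_step hr
        have g4 := h G' (h1.trans g1) (by rw [Nat.mul_add, Nat.mul_one]; omega)
        omega
    | succ m ih =>
      intro G j h1 h2 h3 h4 h5
      have hwk := Nat.mul_le_mul_left w h3
      by_cases hr : Reg w G U
      · exact ⟨G, h1, hr, by omega⟩
      · obtain ⟨G', g1, g2, g3⟩ := Kill_step hr
        have g4 := h G' (h1.trans g1) (by rw [Nat.mul_add, Nat.mul_one]; omega)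
        exact ih G' (j + 1) (h1.trans g1) (by rw [Nat.mul_add, Nat.mul_one]; omega) (by omega)
          (by omega) (by omega)
  exact key k F 0 (Finset.Subset.refl F) (by omega) (Nat.zero_le k) (by omega) (by omega)

private theorem Kill_card [Fact p.Prime] (U : Submodule (ZMod p) (Fin n → ZMod p)) :
    (Nat.card U : ℝ) = (p : ℝ) ^ Module.finrank (ZMod p) U := by
  have : NeZero p := ⟨(Fact.out : p.Prime).ne_zero⟩
  let _ := Fintype.ofFinite U
  rw [Nat.card_eq_fintype_card, Module.card_eq_pow_finrank (K := ZMod p) (V := U), ZMod.card]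
  push_cast
  rfl

private theorem Kill_cube (F : Finset (Fin n)) (U : Submodule (ZMod p) (Fin n → ZMod p))
    (x : Cube n) : ((Nd F U x).ncard : ℝ) / 2 ^ (n - F.card) ≤ 1 := by
  rw [div_le_one (by positivity)]
  have h1 : Nat.card ({i // i ∉ F} → Bool) = 2 ^ (n - F.card) := by
    rw [Nat.card_eq_fintype_card, Fintype.card_fun, Fintype.card_bool]
    congr 1
    rw [Fintype.card_subtype_compl, Fintype.card_fin, Fintype.card_coe]
  have h2 : (Nd F U x).ncard ≤ Nat.card ({i // i ∉ F} → Bool) := by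
    rw [← Set.ncard_univ]
    refine Set.ncard_le_ncard_of_injOn (fun y i => y i.1) (fun _ _ => Set.mem_univ _) ?_
      (Set.toFinite _)
    intro y hy z hz h
    funext i
    by_cases hi : i ∈ F
    · rw [hy.1 i hi, hz.1 i hi]
    · exact congrFun h ⟨i, hi⟩
  rw [h1] at h2
  exact_mod_cast h2

private theorem Kill_real {a a' b b' q t P g N N' M0 M1 : ℝ} (ha : 0 < a) (ha' : 0 < a')
    (hq : 0 < q) (ht : 1 ≤ t) (hu : a' ≤ a * q) (hd : a ≤ P) (hd' : a' ≤ P) (hf : b ≤ b')
    (hb : 1 ≤ b) (hg : g ≤ 1 / (4 * P * t)) (c1 : |N' - b' / a' * M0| ≤ g)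
    (c2 : |N - b / a * M1| ≤ g) (h0 : 1 ≤ t * M0) (h1 : M1 ≤ 1) :
    1 / (4 * q * t) * N ≤ N' := by
  have hb0 : 0 < b := by linarith
  have hP : 0 < P := by linarith
  have ht0 : 0 < t := by linarith
  have e1 : N ≤ b / a + g := by
    have h2 := (abs_le.1 c2).2
    have h3 : b / a * M1 ≤ b / a * 1 := mul_le_mul_of_nonneg_left h1 (by positivity)
    linarith
  have e2 : g ≤ b / a / 4 := by
    refine hg.trans ?_
    rw [div_div, div_le_div_iff₀ (by positivity) (by positivity)]
    have h2 : P * 1 ≤ P * (b * t) := mul_le_mul_of_nonneg_left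
      (one_le_mul_of_one_le_of_one_le hb ht) hP.le
    linarith
  have e3 : b / (a' * t) ≤ b' / a' * M0 := by
    have h2 : 0 ≤ M0 := by
      by_contra h
      push Not at h
      have := mul_neg_of_pos_of_neg ht0 h
      linarith
    have h3 : b / (a' * t) * 1 ≤ b / (a' * t) * (t * M0) :=
      mul_le_mul_of_nonneg_left h0 (by positivity)
    have h4 : b / (a' * t) * (t * M0) = b / a' * M0 := by field_simp
    have h5 : b / a' * M0 ≤ b' / a' * M0 := mul_le_mul_of_nonneg_right
      (div_le_div_of_nonneg_right hf ha'.le) h2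
    linarith
  have e4 : g ≤ b / (a' * t) / 4 := by
    refine hg.trans ?_
    rw [div_div, div_le_div_iff₀ (by positivity) (by positivity)]
    have h2 : a' * t ≤ P * t := mul_le_mul_of_nonneg_right hd' ht0.le
    have h3 : P * t * 1 ≤ P * t * b := mul_le_mul_of_nonneg_left hb (by positivity)
    linarith
  have e5 : b / (a * q * t) ≤ b / (a' * t) :=
    div_le_div_of_nonneg_left hb0.le (by positivity) (mul_le_mul_of_nonneg_right hu ht0.le)
  have e6 := (abs_le.1 c1).1
  have e7 : 1 / (4 * q * t) * N ≤ 1 / (4 * q * t) * (b / a * (5 / 4)) :=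
    mul_le_mul_of_nonneg_left (by linarith) (by positivity)
  have e8 : 1 / (4 * q * t) * (b / a * (5 / 4)) = 5 / 16 * (b / (a * q * t)) := by
    field_simp
    ring
  have e9 : 0 < b / (a * q * t) := by positivity
  linarith

/-- The constant. -/
noncomputable def ck (p k : ℕ) : ℝ := 1 / (4 * p ^ k * 2 ^ ((p - 1) * k))

/-- In a regular node a condition given by `k` forms which is satisfied by the point `x` is satisfied by
a positive proportion of the points. (`γ` is the number of the theorem `count`.) -/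
theorem kill [Fact p.Prime] {γ : ℝ} (hγ0 : 0 ≤ γ) (hγ1 : γ < 1)
    (hγ : ∀ (n th : ℕ) (F : Finset (Fin n)) (U₀ U : Submodule (ZMod p) (Fin n → ZMod p))
      (x : Cube n), U₀ ≤ U → (∀ e ∈ U, e ∉ U₀ → th ≤ wt F e) →
      |((Nd F U x).ncard : ℝ) / 2 ^ (n - F.card) -
        (Nat.card U₀ : ℝ) / Nat.card U * (((Nd F U₀ x).ncard : ℝ) / 2 ^ (n - F.card))| ≤ γ ^ th)
    {k th w d : ℕ} (hw : (k + 1) * th < w)
    (hth : γ ^ th ≤ 1 / (4 * p ^ d * 2 ^ ((p - 1) * k)))
    {F : Finset (Fin n)} {U U' : Submodule (ZMod p) (Fin n → ZMod p)} (hreg : Reg w F U)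
    (hU : U ≤ U') (hk : Module.finrank (ZMod p) U' ≤ Module.finrank (ZMod p) U + k)
    (hd : Module.finrank (ZMod p) U' ≤ d) (x : Cube n) :
    ck p k * (Nd F U x).ncard ≤ (Nd F U' x).ncard := by
  have hp : (0 : ℝ) < p := by exact_mod_cast (Fact.out : p.Prime).pos
  have hp1 : (1 : ℝ) ≤ p := by exact_mod_cast (Fact.out : p.Prime).one_lt.le
  -- dimension of the forms killed by few coordinates
  have hdim : ∀ G : Finset (Fin n), F ⊆ G → G.card ≤ F.card + th * (k + 1) →
      Module.finrank (ZMod p) (KF G U') ≤ Module.finrank (ZMod p) (KF F U) + k := by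
    intro G hFG hG
    have h1 := Submodule.finrank_sup_add_finrank_inf_eq (KF G U') U
    have h2 := Submodule.finrank_mono (sup_le (KF_le G U') hU)
    have h3 : KF G U' ⊓ U ≤ KF F U := by
      rintro e ⟨he, he'⟩
      have he1 := (mem_KF_iff.1 he).2
      refine mem_KF_iff.2 ⟨he', ?_⟩
      rcases hreg e he' with h | h
      · exact h
      · have h4 := wt_le_add hFG e
        rw [he1] at h4
        have h5 : th * (k + 1) = (k + 1) * th := Nat.mul_comm _ _
        omega
    have h4 := Submodule.finrank_mono h3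
    omega
  have hle : Module.finrank (ZMod p) (KF F U) ≤ Module.finrank (ZMod p) (KF F U') :=
    Submodule.finrank_mono fun e he => ⟨hU he.1, he.2⟩
  obtain ⟨G, hFG, hG, hGc⟩ := greedy' th k F U' fun G h1 h2 => (hdim G h1 h2).trans
    (Nat.add_le_add_right hle k)
  have hGc' : G.card ≤ F.card + th * (k + 1) := by
    rw [Nat.mul_add, Nat.mul_one]
    omega
  have hF0 : KF F U ≤ KF G U' := fun e he => ⟨hU he.1, fun i hi => he.2 i fun h => hi (hFG h)⟩
  have hF1 : KF F U ≤ KF F (KF G U') := fun e he => ⟨hF0 he, he.2⟩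
  have c1 := hγ n th F (KF G U') U' x (KF_le G U') fun e he he' => by
    rcases hG e he with h | h
    · exact absurd (mem_KF_iff.2 ⟨he, h⟩) he'
    · exact h.trans (wt_anti hFG e)
  have c2 := hγ n th F (KF F U) U x (KF_le F U) fun e he he' => by
    rcases hreg e he with h | h
    · exact absurd (mem_KF_iff.2 ⟨he, h⟩) he'
    · have h5 : th ≤ (k + 1) * th := Nat.le_mul_of_pos_left th (Nat.succ_pos k)
      omega
  have hbig := nd_big (k := k) F (U := KF G U') ((hdim G hFG hGc').trans
    (Nat.add_le_add_right (Submodule.finrank_mono hF1) k)) x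
  have hcub := Kill_cube F (KF F U) x
  rw [Kill_card, Kill_card] at c1 c2
  have hu : (p : ℝ) ^ Module.finrank (ZMod p) U' ≤ (p : ℝ) ^ Module.finrank (ZMod p) U * p ^ k := by
    rw [← pow_add]
    exact pow_le_pow_right₀ hp1 hk
  have hd' : (p : ℝ) ^ Module.finrank (ZMod p) U ≤ (p : ℝ) ^ d :=
    pow_le_pow_right₀ hp1 ((Submodule.finrank_mono hU).trans hd)
  have hd'' : (p : ℝ) ^ Module.finrank (ZMod p) U' ≤ (p : ℝ) ^ d := pow_le_pow_right₀ hp1 hd
  have hf : (p : ℝ) ^ Module.finrank (ZMod p) (KF F U) ≤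
      (p : ℝ) ^ Module.finrank (ZMod p) (KF G U') :=
    pow_le_pow_right₀ hp1 (Submodule.finrank_mono hF0)
  have hf1 : (1 : ℝ) ≤ (p : ℝ) ^ Module.finrank (ZMod p) (KF F U) := one_le_pow₀ hp1
  have hFn : F.card ≤ n := by
    have := Finset.card_le_univ F
    rwa [Fintype.card_fin] at this
  have hb2 : (1 : ℝ) ≤ 2 ^ ((p - 1) * k) *
      (((Nd F (KF G U') x).ncard : ℝ) / 2 ^ (n - F.card)) := by
    have h1 : (2 : ℝ) ^ n ≤ 2 ^ (F.card + (p - 1) * k) * ((Nd F (KF G U') x).ncard : ℝ) := by
      exact_mod_cast hbig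
    have h2 : (2 : ℝ) ^ n = 2 ^ F.card * 2 ^ (n - F.card) := by
      rw [← pow_add, Nat.add_sub_cancel' hFn]
    rw [h2, pow_add, mul_assoc] at h1
    have h3 := le_of_mul_le_mul_left h1 (by positivity)
    rw [← mul_div_assoc, le_div_iff₀ (by positivity), one_mul]
    exact h3
  have hpos : ∀ m : ℕ, (0 : ℝ) < (p : ℝ) ^ m := fun m => pow_pos hp m
  have main := Kill_real (hpos _) (hpos _) (hpos k) (one_le_pow₀ (by norm_num : (1 : ℝ) ≤ 2))
    hu hd' hd'' hf hf1 hth c1 c2 hb2 hcub
  rw [← mul_div_assoc, div_le_div_iff_of_pos_right (by positivity)] at main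
  exact main

end Tw
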