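import Pool.Agent.Lib.MP_9abc2e_lc.TW.Defs
import Pool.Agent.Lib.MP_9abc2e_lc.FEW.Feat

/-!
# TW: the learner on lists (definitions)
-/

set_option autoImplicit false

namespace Tw

open Few

variable {p : ℕ}

/-- Echelon basis of the span of the features of the examples whose label is not `b`. -/
def bas (p D : ℕ) (b : Bool) (S : List (List Bool × Bool)) : List (List (ZMod p)) :=
  S.foldl (fun B a => if a.2 = b then B else if isZ (red B (feat p a.1 D)) then B
    else B ++ [red B (feat p a.1 D)]) []

/-- The point `x` passes all the levels of the hypothesis `H`; a level is a degree and a basis. -/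
def pas (H : List (ℕ × List (List (ZMod p)))) (x : List Bool) : Bool :=
  H.all fun a => isZ (red a.2 (feat p x a.1))

/-- The prediction: the label of the first level which `x` does not pass; `b` is the label of the first
level. -/
def evl : List (ℕ × List (List (ZMod p))) → Bool → List Bool → Bool
  | [], b, _ => b
  | a :: H, b, x => if isZ (red a.2 (feat p x a.1)) then evl H (!b) x else b

/-- One trial: `ps` are the degrees and the sizes of the batches of the stages. -/
def tri : List (ℕ × ℕ) → List (ℕ × List (List (ZMod p))) → Bool → List (List Bool × Bool) →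
    List (ℕ × List (List (ZMod p)))
  | [], H, _, _ => H
  | q :: ps, H, b, S =>
      tri ps (H ++ [(q.1, bas p q.1 b ((S.take q.2).filter fun a => pas H a.1))]) (!b) (S.drop q.2)

/-- The number of examples of one trial. -/
def tot (ps : List (ℕ × ℕ)) : ℕ := (ps.map Prod.snd).sum

/-- `K` trials on consecutive blocks of examples. -/
def trs (p : ℕ) (ps : List (ℕ × ℕ)) : ℕ → List (List Bool × Bool) →
    List (List (ℕ × List (List (ZMod p))))
  | 0, _ => []
  | K + 1, S => tri ps [] true S :: trs p ps K (S.drop (tot ps))

/-- The majority vote. -/
def maj (Hs : List (List (ℕ × List (List (ZMod p))))) (x : List Bool) : Bool :=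
  decide (Hs.length < 2 * Hs.countP fun H => evl H true x)

/-- A labelled list of examples. -/
def lbl {n : ℕ} (f : Cube n → Bool) (s : List (Cube n)) : List (List Bool × Bool) :=
  s.map fun x => (List.ofFn x, f x)

end Tw
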