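import Mathlib

/-!
# TW: the parameters

`l ≥ log (n / ε)`, circuits of size and distributions of density at most `2 ^ (l + 2) ^ c`, degrees `(l + 2) ^ a i`, batches `2 ^ (l + 2) ^ e i`, approximations `t = (l + 2) ^ τ j`.
-/

set_option autoImplicit false

namespace Tw

/-! ### Elementary estimates -/

theorem num_k (x m K : ℕ) (hx : 2 ≤ x) : K * x ^ m ≤ x ^ (m + K) := by
  calc K * x ^ m ≤ 2 ^ K * x ^ m := Nat.mul_le_mul_right _ Nat.lt_two_pow_self.le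
    _ ≤ x ^ K * x ^ m := Nat.mul_le_mul_right _ (Nat.pow_le_pow_left hx K)
    _ = x ^ (m + K) := by rw [← pow_add, Nat.add_comm]

theorem num_two (x m K M : ℕ) (hx : 2 ≤ x) (h : M ≤ K * x ^ m) : 2 ^ M ≤ 2 ^ x ^ (m + K) :=
  Nat.pow_le_pow_right (by norm_num) (h.trans (num_k x m K hx))

/-- (1) -/
theorem num_a (C x t : ℕ) (hx : 2 ≤ x) : C * (x ^ t + 1) ^ 2 ≤ x ^ (2 * t + 2 + C) := by
  have h1 : x ^ t + 1 ≤ x ^ (t + 1) := by
    have h2 : 1 ≤ x ^ t := Nat.one_le_pow _ _ (by omega)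
    rw [pow_succ]
    nlinarith
  calc C * (x ^ t + 1) ^ 2 ≤ C * (x ^ (t + 1)) ^ 2 :=
        Nat.mul_le_mul_left _ (Nat.pow_le_pow_left h1 2)
    _ = C * x ^ (2 * t + 2) := by
        rw [← pow_mul]
        congr 2
        ring
    _ ≤ x ^ (2 * t + 2 + C) := num_k x (2 * t + 2) C hx

theorem num_n (n l : ℕ) (hn : n ≤ 2 ^ l) : n + 1 ≤ 2 ^ (l + 2) := by
  have h1 : 1 ≤ 2 ^ l := Nat.one_le_two_pow
  rw [pow_add]
  omega

theorem num_deg (n x a : ℕ) (hn : n + 1 ≤ 2 ^ x) : (n + 1) ^ x ^ a ≤ 2 ^ x ^ (a + 1) := by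
  calc (n + 1) ^ x ^ a ≤ (2 ^ x) ^ x ^ a := Nat.pow_le_pow_left hn _
    _ = 2 ^ x ^ (a + 1) := by rw [← pow_mul, pow_succ, Nat.mul_comm]

/-- the natural number inequality behind (2) -/
theorem num_bN (p n l L a : ℕ) (hn : n ≤ 2 ^ l) :
    2 ^ l * (8 * L * (p * ((n + 1) ^ (l + 2) ^ a) ^ 2 + 256 * (L + L ^ 2))) ≤
      2 ^ (l + 2) ^ (a + 1 + (3 + 8 * L + p + 256 * (L + L ^ 2))) := by
  have hx : 2 ≤ l + 2 := Nat.le_add_left 2 l
  have h1 := num_deg n (l + 2) a (num_n n l hn)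
  set x := l + 2 with hxl
  set N := (n + 1) ^ x ^ a with hN
  set K := 256 * (L + L ^ 2) with hK
  set y := x ^ (a + 1) with hy
  have hxy : x ≤ y := by
    rw [hy]
    exact Nat.le_self_pow (Nat.succ_ne_zero a) x
  have h2 : N ^ 2 ≤ 2 ^ (2 * y) := by
    calc N ^ 2 ≤ (2 ^ y) ^ 2 := Nat.pow_le_pow_left h1 2
      _ = 2 ^ (2 * y) := by rw [← pow_mul, Nat.mul_comm]
  have h3 : p * N ^ 2 + K ≤ 2 ^ (p + K) * 2 ^ (2 * y) := by
    have h4 : 1 ≤ 2 ^ (2 * y) := Nat.one_le_two_pow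
    have h5 : p + K ≤ 2 ^ (p + K) := Nat.lt_two_pow_self.le
    calc p * N ^ 2 + K ≤ p * 2 ^ (2 * y) + K * 2 ^ (2 * y) :=
          Nat.add_le_add (Nat.mul_le_mul_left _ h2) (Nat.le_mul_of_pos_right _ h4)
      _ = (p + K) * 2 ^ (2 * y) := by ring
      _ ≤ 2 ^ (p + K) * 2 ^ (2 * y) := Nat.mul_le_mul_right _ h5
  have h6 : 8 * L ≤ 2 ^ (8 * L) := Nat.lt_two_pow_self.le
  calc 2 ^ l * (8 * L * (p * N ^ 2 + K))
      ≤ 2 ^ l * (2 ^ (8 * L) * (2 ^ (p + K) * 2 ^ (2 * y))) :=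
        Nat.mul_le_mul_left _ (Nat.mul_le_mul h6 h3)
    _ = 2 ^ (l + (8 * L + ((p + K) + 2 * y))) := by rw [← pow_add, ← pow_add, ← pow_add]
    _ ≤ 2 ^ x ^ (a + 1 + (3 + 8 * L + p + K)) := by
        refine num_two x (a + 1) (3 + 8 * L + p + K) _ hx ?_
        rw [← hy]
        have h7 : 1 ≤ y := by omega
        have h8 : 8 * L + (p + K) ≤ (8 * L + p + K) * y := by
          calc 8 * L + (p + K) = (8 * L + p + K) * 1 := by ring
            _ ≤ (8 * L + p + K) * y := Nat.mul_le_mul_left _ h7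
        have h9 : (3 + 8 * L + p + K) * y = 3 * y + (8 * L + p + K) * y := by ring
        rw [h9]
        omega

/-- (2) -/
theorem num_b (p n l L a e : ℕ) (hp : 2 ≤ p) (hL : 1 ≤ L) (ε : ℝ) (h0 : 0 < ε) (h1 : ε ≤ 1)
    (hε : 1 / ε ≤ 2 ^ l) (hn : n ≤ 2 ^ l)
    (he : a + 1 + (3 + 8 * L + p + 256 * (L + L ^ 2)) ≤ e) :
    (p : ℝ) ^ ((n + 1) ^ (l + 2) ^ a) ^ 2 * (1 - ε / (8 * L)) ^ 2 ^ (l + 2) ^ e ≤
      1 / (256 * (L + L ^ 2)) := by
  have hb := (num_bN p n l L a hn).trans (Nat.pow_le_pow_right (by norm_num)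
    (Nat.pow_le_pow_right (by omega) he))
  set M := 2 ^ (l + 2) ^ e with hM
  set R := ((n + 1) ^ (l + 2) ^ a) ^ 2 with hR
  have hLr : (1 : ℝ) ≤ L := by exact_mod_cast hL
  have hb' : (2 : ℝ) ^ l * (8 * L * (p * R + 256 * (L + L ^ 2))) ≤ M := by exact_mod_cast hb
  have hp0 : (0 : ℝ) ≤ p := Nat.cast_nonneg _
  have hp1 : (1 : ℝ) ≤ p := by exact_mod_cast (by omega : 1 ≤ p)
  have hR0 : (0 : ℝ) ≤ R := Nat.cast_nonneg _
  have hKp : (0 : ℝ) < 256 * (L + L ^ 2) := by positivity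
  have hy1 : ε / (8 * L) ≤ 1 := by
    rw [div_le_one (by positivity)]
    linarith
  -- `ε / (8 L) * M ≥ p R + 256 (L + L²)`
  have h2 : p * R + 256 * (L + L ^ 2) ≤ M * (ε / (8 * L)) := by
    have h3 : 1 ≤ 2 ^ l * ε := by
      rwa [div_le_iff₀ h0] at hε
    have h4 : (0 : ℝ) ≤ p * R + 256 * (L + L ^ 2) := by positivity
    rw [mul_div_assoc', le_div_iff₀ (by positivity)]
    calc (p * R + 256 * (L + L ^ 2)) * (8 * L)
        ≤ (p * R + 256 * (L + L ^ 2)) * (8 * L) * (2 ^ l * ε) :=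
          le_mul_of_one_le_right (by positivity) h3
      _ = (2 ^ l * (8 * L * (p * R + 256 * (L + L ^ 2)))) * ε := by ring
      _ ≤ M * ε := mul_le_mul_of_nonneg_right hb' h0.le
  have a1 : (p : ℝ) ^ R ≤ Real.exp (p * R) := by
    have b1 : (p : ℝ) ≤ Real.exp p := by
      have := Real.add_one_le_exp (p : ℝ)
      linarith
    calc (p : ℝ) ^ R ≤ (Real.exp p) ^ R := pow_le_pow_left₀ hp0 b1 R
      _ = Real.exp (p * R) := by rw [← Real.exp_nat_mul, mul_comm]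
  have a2 : (1 - ε / (8 * L)) ^ M ≤ Real.exp (-(M * (ε / (8 * L)))) := by
    calc (1 - ε / (8 * L)) ^ M ≤ (Real.exp (-(ε / (8 * L)))) ^ M :=
          pow_le_pow_left₀ (by linarith) (Real.one_sub_le_exp_neg _) M
      _ = Real.exp (-(M * (ε / (8 * L)))) := by
          rw [← Real.exp_nat_mul]
          congr 1
          ring
  calc (p : ℝ) ^ R * (1 - ε / (8 * L)) ^ M
      ≤ Real.exp (p * R) * Real.exp (-(M * (ε / (8 * L)))) :=
        mul_le_mul a1 a2 (pow_nonneg (by linarith) M) (Real.exp_pos _).le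
    _ = Real.exp (p * R + -(M * (ε / (8 * L)))) := by rw [← Real.exp_add]
    _ ≤ Real.exp (-(256 * (L + L ^ 2))) := Real.exp_le_exp.2 (by linarith)
    _ ≤ 1 / (256 * (L + L ^ 2)) := by
        rw [Real.exp_neg, ← one_div]
        refine one_div_le_one_div_of_le hKp ?_
        have := Real.add_one_le_exp (256 * ((L : ℝ) + L ^ 2))
        linarith

/-- the weight of the approximations: circuits of size `2 ^ x ^ c`, distributions of density `2 ^ x ^ c` -/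
theorem num_c1 (n l c : ℕ) (hn : n ≤ 2 ^ l) :
    (2 ^ (l + 2) ^ c + n + 1) * 2 ^ (l + 2) ^ c ≤ 2 ^ (3 * (l + 2) ^ (c + 1)) := by
  have h1 := num_n n l hn
  set x := l + 2 with hx
  have h2 : x ^ c ≤ x ^ (c + 1) := Nat.pow_le_pow_right (by omega) (by omega)
  have h3 : x ≤ x ^ (c + 1) := Nat.le_self_pow (by omega) x
  have h4 : 1 ≤ x ^ c := Nat.one_le_pow _ _ (by omega)
  have h5 : 2 ≤ 2 ^ x ^ c := by
    calc 2 = 2 ^ 1 := rfl
      _ ≤ 2 ^ x ^ c := Nat.pow_le_pow_right (by norm_num) h4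
  have h6 : 2 ≤ 2 ^ x := by
    calc 2 = 2 ^ 1 := rfl
      _ ≤ 2 ^ x := Nat.pow_le_pow_right (by norm_num) (by omega)
  calc (2 ^ x ^ c + n + 1) * 2 ^ x ^ c ≤ (2 ^ x ^ c * 2 ^ x) * 2 ^ x ^ c := by
        refine Nat.mul_le_mul_right _ ?_
        nlinarith
    _ = 2 ^ (x ^ c + x + x ^ c) := by rw [← pow_add, ← pow_add]
    _ ≤ 2 ^ (3 * x ^ (c + 1)) := Nat.pow_le_pow_right (by norm_num) (by omega)

/-- (3) -/
theorem num_c (C n l c L e t : ℕ) (hn : n ≤ 2 ^ l) (hL : 1 ≤ L)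
    (ht : e + c + 1 + (4 + C + 256 * (L + L ^ 2)) ≤ t) :
    (2 : ℝ) ^ (l + 2) ^ e * (C * ((2 ^ (l + 2) ^ c + n + 1) * 2 ^ (l + 2) ^ c) /
      2 ^ (l + 2) ^ t) ≤ 1 / (256 * (L + L ^ 2)) := by
  have hx : 2 ≤ l + 2 := Nat.le_add_left 2 l
  have hb : 2 ^ (l + 2) ^ e * (C * ((2 ^ (l + 2) ^ c + n + 1) * 2 ^ (l + 2) ^ c)) *
      (256 * (L + L ^ 2)) ≤ 2 ^ (l + 2) ^ t := by
    have h1 := num_c1 n l c hn
    set x := l + 2 with hxl
    set K := 256 * (L + L ^ 2) with hK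
    set y := x ^ (e + c + 1) with hy
    have hcy : x ^ (c + 1) ≤ y := Nat.pow_le_pow_right (by omega) (by omega)
    have hey : x ^ e ≤ y := Nat.pow_le_pow_right (by omega) (by omega)
    have h7 : 1 ≤ y := Nat.one_le_pow _ _ (by omega)
    have hC : C ≤ 2 ^ C := Nat.lt_two_pow_self.le
    have hK2 : K ≤ 2 ^ K := Nat.lt_two_pow_self.le
    calc 2 ^ x ^ e * (C * ((2 ^ x ^ c + n + 1) * 2 ^ x ^ c)) * K
        ≤ 2 ^ x ^ e * (2 ^ C * 2 ^ (3 * x ^ (c + 1))) * 2 ^ K :=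
          Nat.mul_le_mul (Nat.mul_le_mul_left _ (Nat.mul_le_mul hC h1)) hK2
      _ = 2 ^ (x ^ e + (C + 3 * x ^ (c + 1)) + K) := by
          rw [← pow_add, ← pow_add, ← pow_add]
      _ ≤ 2 ^ x ^ (e + c + 1 + (4 + C + K)) := by
          refine num_two x (e + c + 1) (4 + C + K) _ hx ?_
          rw [← hy]
          have h8 : C + K ≤ (C + K) * y := Nat.le_mul_of_pos_right _ h7
          have h10 : (4 + C + K) * y = 4 * y + (C + K) * y := by ring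
          rw [h10]
          omega
      _ ≤ 2 ^ x ^ t := Nat.pow_le_pow_right (by norm_num) (Nat.pow_le_pow_right (by omega) ht)
  have hb' : (2 : ℝ) ^ (l + 2) ^ e * (C * ((2 ^ (l + 2) ^ c + n + 1) * 2 ^ (l + 2) ^ c)) *
      (256 * (L + L ^ 2)) ≤ 2 ^ (l + 2) ^ t := by exact_mod_cast hb
  have hLr : (1 : ℝ) ≤ L := by exact_mod_cast hL
  rw [mul_div_assoc', div_le_div_iff₀ (by positivity) (by positivity), one_mul]
  exact hb'

/-- (4) -/
theorem num_d (C n l c t : ℕ) (ε : ℝ) (h0 : 0 < ε) (hε : 1 / ε ≤ 2 ^ l) (hn : n ≤ 2 ^ l)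
    (ht : c + 1 + (7 + C) ≤ t) :
    (C * ((2 ^ (l + 2) ^ c + n + 1) * 2 ^ (l + 2) ^ c) : ℝ) / 2 ^ (l + 2) ^ t ≤ ε / 8 := by
  have hx : 2 ≤ l + 2 := Nat.le_add_left 2 l
  have hb : 8 * (C * ((2 ^ (l + 2) ^ c + n + 1) * 2 ^ (l + 2) ^ c)) * 2 ^ l ≤
      2 ^ (l + 2) ^ t := by
    have h1 := num_c1 n l c hn
    have hl : l ≤ l + 2 := by omega
    set x := l + 2 with hxl
    set y := x ^ (c + 1) with hy
    have h3 : x ≤ y := Nat.le_self_pow (by omega) x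
    have hC : C ≤ 2 ^ C := Nat.lt_two_pow_self.le
    calc 8 * (C * ((2 ^ x ^ c + n + 1) * 2 ^ x ^ c)) * 2 ^ l
        ≤ 2 ^ 3 * (2 ^ C * 2 ^ (3 * y)) * 2 ^ l :=
          Nat.mul_le_mul_right _ (Nat.mul_le_mul (by norm_num) (Nat.mul_le_mul hC h1))
      _ = 2 ^ (3 + (C + 3 * y) + l) := by
          rw [← pow_add, ← pow_add, ← pow_add]
      _ ≤ 2 ^ x ^ (c + 1 + (7 + C)) := by
          refine num_two x (c + 1) (7 + C) _ hx ?_
          rw [← hy]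
          have h7 : 1 ≤ y := by omega
          have h8 : C + 3 ≤ (C + 3) * y := Nat.le_mul_of_pos_right _ h7
          have h10 : (7 + C) * y = (C + 3) * y + 4 * y := by ring
          rw [h10]
          omega
      _ ≤ 2 ^ x ^ t := Nat.pow_le_pow_right (by norm_num) (Nat.pow_le_pow_right (by omega) ht)
  have hb' : 8 * ((C : ℝ) * ((2 ^ (l + 2) ^ c + n + 1) * 2 ^ (l + 2) ^ c)) * 2 ^ l ≤
      2 ^ (l + 2) ^ t := by exact_mod_cast hb
  have h3 : 1 ≤ 2 ^ l * ε := by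
    rwa [div_le_iff₀ h0] at hε
  rw [div_le_div_iff₀ (by positivity) (by norm_num)]
  have h4 : (0 : ℝ) ≤ C * ((2 ^ (l + 2) ^ c + n + 1) * 2 ^ (l + 2) ^ c) * 8 := by positivity
  calc (C : ℝ) * ((2 ^ (l + 2) ^ c + n + 1) * 2 ^ (l + 2) ^ c) * 8
      ≤ C * ((2 ^ (l + 2) ^ c + n + 1) * 2 ^ (l + 2) ^ c) * 8 * (2 ^ l * ε) :=
        le_mul_of_one_le_right h4 h3
    _ = ε * (8 * (C * ((2 ^ (l + 2) ^ c + n + 1) * 2 ^ (l + 2) ^ c)) * 2 ^ l) := by ring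
    _ ≤ ε * 2 ^ (l + 2) ^ t := mul_le_mul_of_nonneg_left hb' h0.le

/-- the exponents, from the end -/
def numT (K : ℕ) : ℕ → ℕ
  | 0 => K
  | r + 1 => 2 * numT K r + 3 * K

theorem numT_mono (K : ℕ) : Monotone (numT K) := by
  refine monotone_nat_of_le_succ fun r => ?_
  rw [numT]
  omega

theorem numT_ge (K r : ℕ) : K ≤ numT K r := numT_mono K (Nat.zero_le r)

theorem numer (p C c L : ℕ) (hp : 2 ≤ p) (hL : 1 ≤ L) : ∃ (a e τ : ℕ → ℕ) (b : ℕ),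
    ∀ (n l : ℕ) (ε : ℝ), 1 ≤ n → 0 < ε → ε ≤ 1 → (n : ℝ) / ε ≤ 2 ^ l →
      (∀ i < L, C * ((l + 2) ^ τ (i + 1) + 1) ^ 2 ≤ (l + 2) ^ a i) ∧
      (∀ i < L, (p : ℝ) ^ ((n + 1) ^ (l + 2) ^ a i) ^ 2 *
        (1 - ε / (8 * L)) ^ 2 ^ (l + 2) ^ e i ≤ 1 / (256 * (L + L ^ 2))) ∧
      (∀ i j, 1 ≤ j → j ≤ i → i < L → (2 : ℝ) ^ (l + 2) ^ e i *
        (C * ((2 ^ (l + 2) ^ c + n + 1) * 2 ^ (l + 2) ^ c) / 2 ^ (l + 2) ^ τ j) ≤
          1 / (256 * (L + L ^ 2))) ∧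
      (C * ((2 ^ (l + 2) ^ c + n + 1) * 2 ^ (l + 2) ^ c) : ℝ) / 2 ^ (l + 2) ^ τ L ≤ ε / 8 ∧
      (∑ i ∈ Finset.range L, 2 ^ (l + 2) ^ e i) ≤ 2 ^ (l + 2) ^ b ∧
      (∀ i < L, (n + 1) ^ (l + 2) ^ a i ≤ 2 ^ (l + 2) ^ b) ∧ n ≤ 2 ^ (l + 2) ^ b := by
  obtain ⟨K, hK⟩ : ∃ K, K = 20 + 8 * L + p + 256 * (L + L ^ 2) + C + c := ⟨_, rfl⟩
  refine ⟨fun i => 2 * numT K (L - 1 - i) + K, fun i => 2 * numT K (L - 1 - i) + 2 * K,
    fun j => numT K (L - j), 2 * numT K (L - 1) + 3 * K, ?_⟩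
  intro n l ε hn h0 h1 hnl
  have hn1 : (1 : ℝ) ≤ n := by exact_mod_cast hn
  have hε : 1 / ε ≤ 2 ^ l := (div_le_div_of_nonneg_right hn1 h0.le).trans hnl
  have hnr : (n : ℝ) ≤ 2 ^ l := by
    refine le_trans ?_ hnl
    rw [le_div_iff₀ h0]
    nlinarith
  have hn2 : n ≤ 2 ^ l := by exact_mod_cast hnr
  have hx : 2 ≤ l + 2 := Nat.le_add_left 2 l
  have hmono : ∀ i, numT K (L - 1 - i) ≤ numT K (L - 1) := fun i =>
    numT_mono K (Nat.sub_le _ _)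
  refine ⟨fun i hi => ?_, fun i hi => ?_, fun i j hj hji hi => ?_, ?_, ?_, fun i hi => ?_, ?_⟩
  · have h2 : L - (i + 1) = L - 1 - i := by omega
    simp only [h2]
    refine (num_a C (l + 2) (numT K (L - 1 - i)) hx).trans
      (Nat.pow_le_pow_right (by omega) ?_)
    omega
  · refine num_b p n l L _ _ hp hL ε h0 h1 hε hn2 ?_
    simp only
    omega
  · refine num_c C n l c L _ _ hn2 hL ?_
    have h2 : L - j = (L - 1 - j) + 1 := by omega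
    simp only [h2]
    rw [numT]
    have h3 : numT K (L - 1 - i) ≤ numT K (L - 1 - j) := numT_mono K (by omega)
    omega
  · refine num_d C n l c _ ε h0 hε hn2 ?_
    have h2 := numT_ge K (L - L)
    simp only
    omega
  · have h2 : ∀ i ∈ Finset.range L, 2 ^ (l + 2) ^ (2 * numT K (L - 1 - i) + 2 * K) ≤
        2 ^ (l + 2) ^ (2 * numT K (L - 1) + 2 * K) := by
      intro i _
      have h3 := hmono i
      exact Nat.pow_le_pow_right (by norm_num) (Nat.pow_le_pow_right (by omega) (by omega))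
    refine (Finset.sum_le_card_nsmul _ _ _ h2).trans ?_
    rw [Finset.card_range, smul_eq_mul]
    set m := 2 * numT K (L - 1) + 2 * K with hm
    have h4 : 1 ≤ (l + 2) ^ m := Nat.one_le_pow _ _ (by omega)
    calc L * 2 ^ (l + 2) ^ m ≤ 2 ^ L * 2 ^ (l + 2) ^ m :=
          Nat.mul_le_mul_right _ Nat.lt_two_pow_self.le
      _ = 2 ^ (L + (l + 2) ^ m) := by rw [← pow_add]
      _ ≤ 2 ^ (l + 2) ^ (m + (L + 1)) := by
          refine num_two (l + 2) m (L + 1) _ hx ?_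
          have h5 : L ≤ L * (l + 2) ^ m := Nat.le_mul_of_pos_right _ h4
          have h6 : (L + 1) * (l + 2) ^ m = L * (l + 2) ^ m + (l + 2) ^ m := by ring
          rw [h6]
          omega
      _ ≤ 2 ^ (l + 2) ^ (2 * numT K (L - 1) + 3 * K) :=
          Nat.pow_le_pow_right (by norm_num) (Nat.pow_le_pow_right (by omega) (by omega))
  · refine (num_deg n (l + 2) _ (num_n n l hn2)).trans ?_
    have h3 := hmono i
    simp only
    exact Nat.pow_le_pow_right (by norm_num) (Nat.pow_le_pow_right (by omega) (by omega))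
  · have h3 := num_n n l hn2
    have h4 : 2 ^ (l + 2) ≤ 2 ^ (l + 2) ^ (2 * numT K (L - 1) + 3 * K) :=
      Nat.pow_le_pow_right (by norm_num) (Nat.le_self_pow (by omega) _)
    omega

end Tw
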