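import Pool.Agent.Lib.MP_9abc2e_lc.TW.PrC

/-!
# TW: the programs
-/

set_option autoImplicit false

namespace Tw

open Few

/-- The stages: degrees `(l + 2) ^ a i`, batches `2 ^ (l + 2) ^ e i`. -/
def pars (L : ℕ) (a e : ℕ → ℕ) (l : ℕ) : List (ℕ × ℕ) :=
  (List.range L).map fun i => ((l + 2) ^ a i, 2 ^ (l + 2) ^ e i)

/-- the learner: the hypothesis is the input together with the list of the trials -/
noncomputable def AW (p : ℕ) [Fact p.Prime] (ps : List (ℕ × ℕ)) (x : T) : T :=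
  T.cons x (trsT p ps (T.cons (T.cons T.nil (T.cons T.nil x.hd)) x.tl))

/-- evaluation of the hypothesis -/
noncomputable def EW (p : ℕ) [Fact p.Prime] (x : T) : T := mjT p x.hd.hd.tl x.hd.tl x.tl

theorem AW_pt (p : ℕ) [Fact p.Prime] (ps : List (ℕ × ℕ)) : PT (AW p ps) :=
  PT.id.cons (trs_pt ps ((PT.nil.cons (PT.nil.cons PT.hd0)).cons PT.tl0))

theorem EW_pt (p : ℕ) [Fact p.Prime] : PT (EW p) := mj_pt PT.hd0.hd.tl PT.hd0.tl PT.tl0

/-- The programs: the hypothesis is the majority vote of the `m / tot` trials. -/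
theorem progs (p : ℕ) [Fact p.Prime] (L : ℕ) (hL : 1 ≤ L) (a e : ℕ → ℕ) :
    ∃ (A E : Prg) (c : ℕ), ∀ (n m l : ℕ) (f : Cube n → Bool) (S : Fin m → Cube n),
      (∀ i < L, (n + 1) ^ (l + 2) ^ a i ≤ m) → tot (pars L a e l) ≤ m →
      ∃ H : T, (∃ τ ≤ ((T.cons (unary l) (smp f S)).size + 1) ^ c,
        Run A (T.cons (unary l) (smp f S)) H τ) ∧
      ∀ x : Cube n, ∃ τ ≤ ((T.cons (unary l) (smp f S)).size + (str x).size + 1) ^ c,
        Run E (T.cons H (str x)) (bit (maj (trs p (pars L a e l) (m / tot (pars L a e l))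
          (lbl f (List.ofFn S))) (List.ofFn x))) τ := by
  set ps : List (ℕ × ℕ) := (List.range L).map fun i => (a i, e i) with hps
  obtain ⟨A, α, hA⟩ := AW_pt p ps
  obtain ⟨E, β, hE⟩ := EW_pt p
  refine ⟨A, E, max α ((max α 1 + 1 + 1) * β), fun n m l f S h1 h2 => ?_⟩
  have hpars : ps.map (prm l) = pars L a e l := by
    rw [hps, List.map_map]
    rfl
  have hmem : ∀ q ∈ pars L a e l, q.2 ≤ tot (pars L a e l) := fun q hq =>
    List.le_sum_of_mem (List.mem_map.2 ⟨q, hq, rfl⟩)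
  have hlen : (lbl f (List.ofFn S)).length = m := by
    unfold lbl
    rw [List.length_map, List.length_ofFn]
  have hS : ∀ b ∈ lbl f (List.ofFn S), b.1.length = n := by
    intro b hb
    obtain ⟨x, _, rfl⟩ := List.mem_map.1 hb
    exact List.length_ofFn
  have hp : ∀ q ∈ ps, (n + 1) ^ (l + 2) ^ q.1 ≤ (lbl f (List.ofFn S)).length ∧
      2 ^ (l + 2) ^ q.2 ≤ (lbl f (List.ofFn S)).length := by
    intro q hq
    obtain ⟨i, hi, rfl⟩ := List.mem_map.1 hq
    rw [List.mem_range] at hi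
    rw [hlen]
    refine ⟨h1 i hi, le_trans ?_ h2⟩
    exact hmem ((l + 2) ^ a i, 2 ^ (l + 2) ^ e i) (List.mem_map.2 ⟨i, List.mem_range.2 hi, rfl⟩)
  have ht : 1 ≤ tot (ps.map (prm l)) := by
    rw [hpars]
    refine le_trans ?_ (hmem ((l + 2) ^ a 0, 2 ^ (l + 2) ^ e 0)
      (List.mem_map.2 ⟨0, List.mem_range.2 hL, rfl⟩))
    exact Nat.one_le_two_pow
  have hsmp : smp f S = exT (lbl f (List.ofFn S)) := smp_eq f S
  have hAW : AW p ps (T.cons (unary l) (smp f S)) = T.cons (T.cons (unary l) (smp f S))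
      (lst ((trs p (pars L a e l) (m / tot (pars L a e l)) (lbl f (List.ofFn S))).reverse.map
        hypT)) := by
    unfold AW
    rw [hd_cons, tl_cons]
    have h3 : T.cons T.nil (T.cons T.nil (unary l)) = unary (l + 2) := rfl
    have h4 := trs_eqT (p := p) l n (lbl f (List.ofFn S)) hS ps hp ht
    rw [hpars, hlen] at h4
    rw [h3, hsmp, h4]
  obtain ⟨t, h3, h4⟩ := hA (T.cons (unary l) (smp f S))
  refine ⟨AW p ps (T.cons (unary l) (smp f S)),
    ⟨t, h4.trans (pw_le (le_max_left _ _)), h3⟩, fun x => ?_⟩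
  obtain ⟨u, h5, h6⟩ := hE (T.cons (AW p ps (T.cons (unary l) (smp f S))) (str x))
  have h7 : EW p (T.cons (AW p ps (T.cons (unary l) (smp f S))) (str x)) =
      bit (maj (trs p (pars L a e l) (m / tot (pars L a e l)) (lbl f (List.ofFn S)))
        (List.ofFn x)) := by
    rw [hAW, ← maj_rev, str_eq]
    refine mj_eqT (smp f S) (List.ofFn x) _ fun H hH => ?_
    rw [List.mem_reverse] at hH
    rw [List.length_ofFn, hsmp]
    unfold exT
    rw [len_lst, List.length_map, hlen]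
    refine trs_deg (P := fun D => (n + 1) ^ D ≤ m) (pars L a e l) _ _ ?_ H hH
    intro q hq
    obtain ⟨i, hi, rfl⟩ := List.mem_map.1 hq
    exact h1 i (List.mem_range.1 hi)
  rw [h7] at h5
  refine ⟨u, h6.trans ?_, h5⟩
  have h8 : (AW p ps (T.cons (unary l) (smp f S))).size ≤
      ((T.cons (unary l) (smp f S)).size + 1) ^ α := h3.size_le.trans h4
  rw [size_cons]
  set s := (T.cons (unary l) (smp f S)).size with hs
  have h9 : 1 ≤ s := T.one_le_size _
  have h10 : (AW p ps (T.cons (unary l) (smp f S))).size + (str x).size ≤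
      (s + (str x).size + 1) ^ (max α 1 + 1) := by
    refine add_pw (by omega) (h8.trans (Nat.pow_le_pow_left (by omega) α)) ?_
    rw [pow_one]
    omega
  have h11 : (AW p ps (T.cons (unary l) (smp f S))).size + (str x).size + 1 + 1 ≤
      (s + (str x).size + 1) ^ (max α 1 + 1 + 1) := by
    have h12 := two_pw (s := s + (str x).size) (by omega) (max α 1 + 1)
    have h13 : 2 ≤ (s + (str x).size + 1) ^ (max α 1 + 1) := by
      calc 2 = 2 ^ 1 := rfl
        _ ≤ (s + (str x).size + 1) ^ 1 := Nat.pow_le_pow_left (by omega) 1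
        _ ≤ _ := pw_le (by omega)
    omega
  calc ((AW p ps (T.cons (unary l) (smp f S))).size + (str x).size + 1 + 1) ^ β
      ≤ ((s + (str x).size + 1) ^ (max α 1 + 1 + 1)) ^ β := Nat.pow_le_pow_left h11 β
    _ = (s + (str x).size + 1) ^ ((max α 1 + 1 + 1) * β) := by rw [pow_mul]
    _ ≤ _ := pw_le (le_max_right _ _)

end Tw
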