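import Pool.Agent.Lib.MP_9abc2e_lc.TW.Defs
import Pool.Agent.Lib.MP_9abc2e_lc.FEW.Pol

/-!
# TW: sets with an outer approximation by a variety of low degree
-/

set_option autoImplicit false

namespace Tw

open Few

variable {p n : ℕ}

/-- `Z` is the set of the common zeros of functions of degree at most `D`. -/
def Closed (p : ℕ) {n : ℕ} (D : ℕ) (Z : Set (Cube n)) : Prop :=
  ∃ Q : Set (Cube n → ZMod p), (∀ q ∈ Q, q ∈ Pol p n D) ∧ Z = {x | ∀ q ∈ Q, q x = 0}

theorem Closed.mono {D D' : ℕ} (h : D ≤ D') {Z : Set (Cube n)} (hZ : Closed p D Z) :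
    Closed p D' Z := by
  obtain ⟨Q, h1, h2⟩ := hZ
  exact ⟨Q, fun q hq => Pol.le h (h1 q hq), h2⟩

theorem Closed.univ (D : ℕ) : Closed p D (Set.univ : Set (Cube n)) :=
  ⟨∅, fun q hq => absurd hq (Set.notMem_empty q), by ext x; simp⟩

theorem Closed.empty [Fact p.Prime] (D : ℕ) : Closed p D (∅ : Set (Cube n)) :=
  ⟨{fun _ => 1}, fun q hq => by rw [Set.mem_singleton_iff.1 hq]; exact Pol.const 1, by
    ext x
    simp⟩

theorem Closed.iInter {ι : Type*} {D : ℕ} {Z : ι → Set (Cube n)} (h : ∀ i, Closed p D (Z i)) :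
    Closed p D (⋂ i, Z i) := by
  choose Q h1 h2 using h
  refine ⟨⋃ i, Q i, fun q hq => ?_, ?_⟩
  · obtain ⟨i, hi⟩ := Set.mem_iUnion.1 hq
    exact h1 i q hi
  · ext x
    rw [Set.mem_iInter]
    constructor
    · intro h q hq
      obtain ⟨i, hi⟩ := Set.mem_iUnion.1 hq
      have := h i
      rw [h2 i] at this
      exact this q hi
    · intro h i
      rw [h2 i]
      exact fun q hq => h q (Set.mem_iUnion.2 ⟨i, hq⟩)

theorem Closed.union [Fact p.Prime] {D D' : ℕ} {Z Z' : Set (Cube n)} (h : Closed p D Z)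
    (h' : Closed p D' Z') : Closed p (D + D') (Z ∪ Z') := by
  obtain ⟨Q, h1, rfl⟩ := h
  obtain ⟨Q', h1', rfl⟩ := h'
  refine ⟨{q | ∃ a ∈ Q, ∃ b ∈ Q', q = fun x => a x * b x}, ?_, ?_⟩
  · rintro _ ⟨a, ha, b, hb, rfl⟩
    exact Pol.mul (h1 a ha) (h1' b hb)
  · ext x
    constructor
    · rintro (h | h)
      · rintro _ ⟨a, ha, b, hb, rfl⟩
        show a x * b x = 0
        rw [h a ha, zero_mul]
      · rintro _ ⟨a, ha, b, hb, rfl⟩
        show a x * b x = 0
        rw [h b hb, mul_zero]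
    · intro h
      by_contra hc
      rw [Set.mem_union, not_or] at hc
      obtain ⟨h3, h4⟩ := hc
      simp only [Set.mem_setOf_eq, not_forall] at h3 h4
      obtain ⟨a, ha, ha0⟩ := h3
      obtain ⟨b, hb, hb0⟩ := h4
      have := h _ ⟨a, ha, b, hb, rfl⟩
      exact (mul_ne_zero ha0 hb0) this

/-- `A` is contained in a closed set which is not much larger: the difference has measure at most
`W / 2 ^ t`. -/
def Out (p : ℕ) {n : ℕ} (D W t : ℕ) (A : Set (Cube n)) : Prop :=
  ∃ Z, Closed p D Z ∧ A ⊆ Z ∧ (Z \ A).ncard * 2 ^ t ≤ W * 2 ^ n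

theorem Out.mono {D D' W W' t : ℕ} (h : D ≤ D') (h' : W ≤ W') {A : Set (Cube n)}
    (hA : Out p D W t A) : Out p D' W' t A := by
  obtain ⟨Z, h1, h2, h3⟩ := hA
  exact ⟨Z, h1.mono h, h2, h3.trans (Nat.mul_le_mul_right _ h')⟩

theorem Closed.out {D W t : ℕ} {A : Set (Cube n)} (h : Closed p D A) : Out p D W t A :=
  ⟨A, h, subset_rfl, by simp⟩

theorem Out.inter {D D' W W' t : ℕ} {A A' : Set (Cube n)} (h : Out p D W t A)
    (h' : Out p D' W' t A') : Out p (max D D') (W + W') t (A ∩ A') := by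
  obtain ⟨Z, h1, h2, h3⟩ := h
  obtain ⟨Z', h1', h2', h3'⟩ := h'
  refine ⟨Z ∩ Z', ?_, Set.inter_subset_inter h2 h2', ?_⟩
  · have := Closed.iInter (p := p) (D := max D D') (Z := fun b : Bool => if b then Z else Z')
      (fun b => by
        cases b
        · exact h1'.mono (le_max_right _ _)
        · exact h1.mono (le_max_left _ _))
    have e : (⋂ b : Bool, (fun b : Bool => if b then Z else Z') b) = Z ∩ Z' := by
      ext x
      simp [and_comm]
    rwa [e] at this
  · have h4 : (Z ∩ Z') \ (A ∩ A') ⊆ (Z \ A) ∪ (Z' \ A') := by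
      rintro x ⟨⟨ha, hb⟩, hc⟩
      by_cases hx : x ∈ A
      · exact Or.inr ⟨hb, fun h => hc ⟨hx, h⟩⟩
      · exact Or.inl ⟨ha, hx⟩
    have h5 := (Set.ncard_le_ncard h4 (Set.toFinite _)).trans (Set.ncard_union_le _ _)
    calc ((Z ∩ Z') \ (A ∩ A')).ncard * 2 ^ t ≤ ((Z \ A).ncard + (Z' \ A').ncard) * 2 ^ t :=
          Nat.mul_le_mul_right _ h5
      _ = (Z \ A).ncard * 2 ^ t + (Z' \ A').ncard * 2 ^ t := by ring
      _ ≤ W * 2 ^ n + W' * 2 ^ n := Nat.add_le_add h3 h3'
      _ = (W + W') * 2 ^ n := by ring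

theorem Out.union [Fact p.Prime] {D D' W W' t : ℕ} {A A' : Set (Cube n)} (h : Out p D W t A)
    (h' : Out p D' W' t A') : Out p (D + D') (W + W') t (A ∪ A') := by
  obtain ⟨Z, h1, h2, h3⟩ := h
  obtain ⟨Z', h1', h2', h3'⟩ := h'
  refine ⟨Z ∪ Z', h1.union h1', Set.union_subset_union h2 h2', ?_⟩
  have h4 : (Z ∪ Z') \ (A ∪ A') ⊆ (Z \ A) ∪ (Z' \ A') := by
    rintro x ⟨ha | hb, hc⟩
    · exact Or.inl ⟨ha, fun h => hc (Or.inl h)⟩
    · exact Or.inr ⟨hb, fun h => hc (Or.inr h)⟩
  have h5 := (Set.ncard_le_ncard h4 (Set.toFinite _)).trans (Set.ncard_union_le _ _)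
  calc ((Z ∪ Z') \ (A ∪ A')).ncard * 2 ^ t ≤ ((Z \ A).ncard + (Z' \ A').ncard) * 2 ^ t :=
        Nat.mul_le_mul_right _ h5
    _ = (Z \ A).ncard * 2 ^ t + (Z' \ A').ncard * 2 ^ t := by ring
    _ ≤ W * 2 ^ n + W' * 2 ^ n := Nat.add_le_add h3 h3'
    _ = (W + W') * 2 ^ n := by ring

/-- finite intersections -/
theorem Out.iInter {ι : Type*} (s : Finset ι) {D W t : ℕ} {A : ι → Set (Cube n)}
    (h : ∀ i ∈ s, Out p D W t (A i)) : Out p D (s.card * W) t (⋂ i ∈ s, A i) := by
  classical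
  induction s using Finset.induction_on with
  | empty =>
    have e : (⋂ i ∈ (∅ : Finset ι), A i) = Set.univ := by simp
    rw [e]
    exact (Closed.univ D).out
  | insert a s ha ih =>
    have h1 := (h a (Finset.mem_insert_self _ _)).inter
      (ih fun i hi => h i (Finset.mem_insert_of_mem hi))
    rw [max_self] at h1
    have e : (⋂ i ∈ insert a s, A i) = A a ∩ ⋂ i ∈ s, A i := by simp
    rw [e, Finset.card_insert_of_notMem ha]
    refine h1.mono le_rfl (le_of_eq ?_)
    ring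

/-- finite unions -/
theorem Out.iUnion [Fact p.Prime] {ι : Type*} (s : Finset ι) {D W t : ℕ} {A : ι → Set (Cube n)}
    (h : ∀ i ∈ s, Out p D W t (A i)) : Out p (s.card * D) (s.card * W) t (⋃ i ∈ s, A i) := by
  classical
  induction s using Finset.induction_on with
  | empty =>
    have e : (⋃ i ∈ (∅ : Finset ι), A i) = ∅ := by simp
    rw [e]
    exact (Closed.empty _).out
  | insert a s ha ih =>
    have h1 := (h a (Finset.mem_insert_self _ _)).union
      (ih fun i hi => h i (Finset.mem_insert_of_mem hi))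
    have e : (⋃ i ∈ insert a s, A i) = A a ∪ ⋃ i ∈ s, A i := by simp
    rw [e, Finset.card_insert_of_notMem ha]
    refine h1.mono (le_of_eq ?_) (le_of_eq ?_)
    · ring
    · ring

/-- Both the set where `φ` is true and the set where it is false have outer approximations. -/
def BB (p : ℕ) {n : ℕ} (D W t : ℕ) (φ : Cube n → Bool) : Prop :=
  ∀ b, Out p D W t {x | φ x = b}

theorem BB.mono {D D' W W' t : ℕ} (h : D ≤ D') (h' : W ≤ W') {φ : Cube n → Bool}
    (hφ : BB p D W t φ) : BB p D' W' t φ := fun b => (hφ b).mono h h'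

/-- a Boolean function of at most `k` functions -/
theorem BB.bool [Fact p.Prime] {k D W t : ℕ} (φ : List (Cube n → Bool)) (hk : φ.length ≤ k)
    (h : ∀ ψ ∈ φ, BB p D W t ψ) (g : List Bool → Bool) :
    BB p (2 ^ k * D) (2 ^ k * (k * W)) t fun x => g (φ.map fun ψ => ψ x) := by
  classical
  intro b
  set s : Finset (Fin φ.length → Bool) := Finset.univ.filter fun a => g (List.ofFn a) = b with hs
  have hc : s.card ≤ 2 ^ k := by
    refine (Finset.card_le_univ s).trans ?_
    rw [Fintype.card_fun, Fintype.card_bool, Fintype.card_fin]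
    exact Nat.pow_le_pow_right (by norm_num) hk
  have h1 : ∀ a ∈ s, Out p D (k * W) t (⋂ i ∈ (Finset.univ : Finset (Fin φ.length)),
      {x : Cube n | (φ.get i) x = a i}) := fun a _ => by
    have := Out.iInter (p := p) (D := D) (W := W) (t := t)
      (A := fun i : Fin φ.length => {x : Cube n | (φ.get i) x = a i}) Finset.univ
      fun i _ => h _ (List.get_mem _ _) (a i)
    refine this.mono le_rfl (Nat.mul_le_mul_right _ ?_)
    rw [Finset.card_univ, Fintype.card_fin]
    exact hk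
  have h2 := Out.iUnion s h1
  have e : (⋃ a ∈ s, ⋂ i ∈ (Finset.univ : Finset (Fin φ.length)),
      {x : Cube n | (φ.get i) x = a i}) = {x | g (φ.map fun ψ => ψ x) = b} := by
    ext x
    simp only [Set.mem_iUnion, Set.mem_iInter, Set.mem_setOf_eq, Finset.mem_univ, true_imp_iff,
      exists_prop]
    constructor
    · rintro ⟨a, ha, hx⟩
      have h3 : φ.map (fun ψ => ψ x) = List.ofFn a := by
        refine List.ext_getElem (by simp) fun i h4 h5 => ?_
        rw [List.getElem_map, List.getElem_ofFn]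
        exact hx ⟨i, by simpa using h4⟩
      rw [h3]
      exact (Finset.mem_filter.1 ha).2
    · intro hx
      refine ⟨fun i => (φ.get i) x, Finset.mem_filter.2 ⟨Finset.mem_univ _, ?_⟩, fun i => rfl⟩
      have h3 : φ.map (fun ψ => ψ x) = List.ofFn fun i => (φ.get i) x := by
        refine List.ext_getElem (by simp) fun i h4 h5 => ?_
        rw [List.getElem_map, List.getElem_ofFn]
        rfl
      rw [← h3]
      exact hx
  rw [e] at h2
  exact h2.mono (Nat.mul_le_mul_right _ hc) (Nat.mul_le_mul_right _ hc)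

end Tw
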