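import Pool.Agent.Lib.MP_9abc2e_lc.TW.Gen
import Pool.Agent.Lib.MP_9abc2e_lc.TW.Out

/-!
# TW: one trial
-/

set_option autoImplicit false

open scoped Classical

namespace Tw

open Few

variable {p n : ℕ}

/-- The sets `A` of a chain of `f` and outer approximations `Z` for the stages `ps`; the number of stages
is `L = ps.length`, the chain ends with `A (L + 1) = ∅`. -/
structure Dat (p : ℕ) {n : ℕ} (μ : Dist n) (f : Cube n → Bool) (ps : List (ℕ × ℕ))
    (A Z : ℕ → Set (Cube n)) (η : ℕ → ℝ) : Prop where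
  pos : 0 < ps.length
  zero : A 0 = Set.univ
  last : A (ps.length + 1) = ∅
  anti : ∀ i, A (i + 1) ⊆ A i
  lab_eq : ∀ i x, x ∈ A i → x ∉ A (i + 1) → f x = lab i
  sub : ∀ j, A j ⊆ Z j
  cl : ∀ i (h : i < ps.length), Closed p (ps[i]).1 (Z (i + 1))
  small : ∀ j, 1 ≤ j → j ≤ ps.length → μ.pr (Z j \ A j) ≤ η j

private theorem Trial_mono (μ : Dist n) {A B : Set (Cube n)} (h : A ⊆ B) : μ.pr A ≤ μ.pr B := by
  refine Finset.sum_le_sum fun x _ => ?_
  by_cases hA : x ∈ A
  · rw [if_pos hA, if_pos (h hA)]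
  · rw [if_neg hA]
    split_ifs
    · exact μ.nonneg x
    · exact le_rfl

private theorem Trial_union (μ : Dist n) {A B C : Set (Cube n)} (h : A ⊆ B ∪ C) :
    μ.pr A ≤ μ.pr B + μ.pr C := by
  unfold Dist.pr
  rw [← Finset.sum_add_distrib]
  refine Finset.sum_le_sum fun x _ => ?_
  have h0 := μ.nonneg x
  by_cases hA : x ∈ A
  · rw [if_pos hA]
    rcases h hA with h1 | h1
    · rw [if_pos h1]
      split_ifs
      · linarith
      · linarith
    · rw [if_pos h1]
      split_ifs
      · linarith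
      · linarith
  · rw [if_neg hA]
    split_ifs
    · linarith
    · linarith
    · linarith
    · linarith

private theorem Trial_lab (i : ℕ) : lab (i + 1) = !lab i := by
  rcases Nat.mod_two_eq_zero_or_one i with h | h
  · have h1 : (i + 1) % 2 = 1 := by omega
    simp [lab, h, h1]
  · have h1 : (i + 1) % 2 = 0 := by omega
    simp [lab, h, h1]

private theorem Trial_evl (H K : List (ℕ × List (List (ZMod p)))) (x : List Bool)
    (h : pas H x = true) (j : ℕ) : evl (H ++ K) (lab j) x = evl K (lab (j + H.length)) x := by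
  induction H generalizing j with
  | nil => rfl
  | cons a H ih =>
    have h1 : isZ (red a.2 (feat p x a.1)) = true ∧ pas H x = true := by
      simpa [pas] using h
    rw [List.cons_append, evl, if_pos h1.1, ← Trial_lab, ih h1.2, List.length_cons]
    congr 2
    omega

private theorem Trial_evl' (H K : List (ℕ × List (List (ZMod p)))) (x : List Bool)
    (h : pas H x = false) (b : Bool) : evl (H ++ K) b x = evl H b x := by
  induction H generalizing b with
  | nil => simp [pas] at h
  | cons a H ih =>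
    rw [List.cons_append, evl, evl]
    by_cases h1 : isZ (red a.2 (feat p x a.1)) = true
    · rw [if_pos h1, if_pos h1]
      refine ih ?_ _
      by_contra h2
      rw [Bool.not_eq_false] at h2
      have h3 : pas (a :: H) x = true := by
        simp only [pas, List.all_cons, Bool.and_eq_true]
        exact ⟨h1, h2⟩
      rw [h3] at h
      exact Bool.noConfusion h
    · rw [if_neg h1, if_neg h1]

private theorem Trial_pas (H : List (ℕ × List (List (ZMod p)))) (a : ℕ × List (List (ZMod p)))
    (x : List Bool) : pas (H ++ [a]) x = true ↔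
      pas H x = true ∧ isZ (red a.2 (feat p x a.1)) = true := by
  simp [pas, List.all_append]

/-- the invariant after `i` stages -/
structure Trial_inv (μ : Dist n) (f : Cube n → Bool) (Z : ℕ → Set (Cube n)) (ε : ℝ)
    (H : List (ℕ × List (List (ZMod p)))) (i : ℕ) : Prop where
  len : H.length = i
  mem : ∀ x : Cube n, pas H (List.ofFn x) = true → ∀ j, 1 ≤ j → j ≤ i → x ∈ Z j
  err : μ.pr {x | pas H (List.ofFn x) = false ∧ evl H true (List.ofFn x) ≠ f x} ≤ i * ε

private theorem Trial_noise (μ : Dist n) (m : ℕ) (A Z : ℕ → Set (Cube n)) {β : ℝ} (i : ℕ)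
    (h : ∀ j, 1 ≤ j → j ≤ i → (m : ℝ) * μ.pr (Z j \ A j) ≤ β) :
    PL μ m (fun s => ∃ j, 1 ≤ j ∧ j ≤ i ∧ ∃ x ∈ s, x ∈ Z j \ A j) ≤ i * β := by
  induction i with
  | zero =>
    have h1 : PL μ m (fun s => ∃ j, 1 ≤ j ∧ j ≤ 0 ∧ ∃ x ∈ s, x ∈ Z j \ A j) ≤
        PL μ m (fun _ => False) := by
      refine PL_mono μ m fun s _ hs => ?_
      obtain ⟨j, h1, h2, -⟩ := hs
      omega
    have h2 : PL μ m (fun _ => False) = 0 := by
      unfold PL
      simp only [if_false]
      exact EL_const μ m 0
    rw [h2] at h1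
    simpa using h1
  | succ i ih =>
    have h1 : PL μ m (fun s => ∃ j, 1 ≤ j ∧ j ≤ i + 1 ∧ ∃ x ∈ s, x ∈ Z j \ A j) ≤
        PL μ m (fun s => (∃ j, 1 ≤ j ∧ j ≤ i ∧ ∃ x ∈ s, x ∈ Z j \ A j) ∨
          ∃ x ∈ s, x ∈ Z (i + 1) \ A (i + 1)) := by
      refine PL_mono μ m fun s _ hs => ?_
      obtain ⟨j, h1, h2, h3⟩ := hs
      rcases Nat.lt_or_ge j (i + 1) with h4 | h4
      · exact Or.inl ⟨j, h1, by omega, h3⟩
      · have h5 : j = i + 1 := by omega
        rw [h5] at h3
        exact Or.inr h3
    have h2 := PL_or μ m (fun s => ∃ j, 1 ≤ j ∧ j ≤ i ∧ ∃ x ∈ s, x ∈ Z j \ A j)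
      (fun s => ∃ x ∈ s, x ∈ Z (i + 1) \ A (i + 1))
    have h3 := ih fun j h1 h2 => h j h1 (by omega)
    have h4 := (PL_mem μ m (Z (i + 1) \ A (i + 1))).trans (h (i + 1) (by omega) le_rfl)
    push_cast
    linarith

/-- one good batch -/
private theorem Trial_step [Fact p.Prime] {μ : Dist n} {f : Cube n → Bool} {ps : List (ℕ × ℕ)}
    {A Z : ℕ → Set (Cube n)} {η : ℕ → ℝ} (h : Dat p μ f ps A Z η) {ε : ℝ}
    {H : List (ℕ × List (List (ZMod p)))} {i : ℕ} (hi : i < ps.length)
    (hH : Trial_inv μ f Z ε H i) (s : List (Cube n))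
    (h1 : ¬ ∃ j, 1 ≤ j ∧ j ≤ i ∧ ∃ x ∈ s, x ∈ Z j \ A j)
    (h2 : μ.pr {x | x ∈ {x : Cube n | pas H (List.ofFn x) = true ∧ f x ≠ lab i} ∧
      vec ((n + 1) ^ (ps[i]).1) (feat p (List.ofFn x) (ps[i]).1) ∉ Submodule.span (ZMod p)
        {w | ∃ y ∈ s, y ∈ {x : Cube n | pas H (List.ofFn x) = true ∧ f x ≠ lab i} ∧
          w = vec ((n + 1) ^ (ps[i]).1) (feat p (List.ofFn y) (ps[i]).1)}} ≤ ε) :
    Trial_inv μ f Z ε (H ++ [((ps[i]).1, bas p (ps[i]).1 (lab i)
      ((lbl f s).filter fun a => pas H a.1))]) (i + 1) := by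
  obtain ⟨hE, hS⟩ := bas_spec (p := p) (n := n) (ps[i]).1 (lab i)
    ((lbl f s).filter fun a => pas H a.1) (by
      intro a ha
      obtain ⟨ha1, -⟩ := List.mem_filter.1 ha
      obtain ⟨x, -, rfl⟩ := List.mem_map.1 ha1
      exact List.length_ofFn)
  have hspan : {w | ∃ a ∈ ((lbl f s).filter fun a => pas H a.1), a.2 ≠ lab i ∧
        w = vec ((n + 1) ^ (ps[i]).1) (feat p a.1 (ps[i]).1)} =
      {w | ∃ y ∈ s, y ∈ {x : Cube n | pas H (List.ofFn x) = true ∧ f x ≠ lab i} ∧
          w = vec ((n + 1) ^ (ps[i]).1) (feat p (List.ofFn y) (ps[i]).1)} := by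
    ext w
    constructor
    · rintro ⟨a, ha, ha2, rfl⟩
      obtain ⟨ha1, ha3⟩ := List.mem_filter.1 ha
      obtain ⟨x, hx, rfl⟩ := List.mem_map.1 ha1
      exact ⟨x, hx, ⟨ha3, ha2⟩, rfl⟩
    · rintro ⟨y, hy, ⟨hy1, hy2⟩, rfl⟩
      exact ⟨(List.ofFn y, f y), List.mem_filter.2 ⟨List.mem_map.2 ⟨y, hy, rfl⟩, hy1⟩, hy2, rfl⟩
  rw [hspan] at hS
  have hred : ∀ x : Cube n, isZ (red (bas p (ps[i]).1 (lab i)
      ((lbl f s).filter fun a => pas H a.1)) (feat p (List.ofFn x) (ps[i]).1)) = true ↔
      vec ((n + 1) ^ (ps[i]).1) (feat p (List.ofFn x) (ps[i]).1) ∈ Submodule.span (ZMod p)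
        {w | ∃ y ∈ s, y ∈ {x : Cube n | pas H (List.ofFn x) = true ∧ f x ≠ lab i} ∧
          w = vec ((n + 1) ^ (ps[i]).1) (feat p (List.ofFn y) (ps[i]).1)} := by
    intro x
    rw [← hS]
    exact red_zero_iff hE (by rw [feat_length, List.length_ofFn])
  refine ⟨?_, ?_, ?_⟩
  · rw [List.length_append, hH.len, List.length_singleton]
  · intro x hx j hj1 hj2
    rw [Trial_pas] at hx
    rcases Nat.lt_or_ge j (i + 1) with hj | hj
    · exact hH.mem x hx.1 j hj1 (by omega)
    have hj3 : j = i + 1 := by omega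
    subst hj3
    have hx2 := (hred x).1 hx.2
    obtain ⟨Q, hQ1, hQ2⟩ := h.cl i hi
    rw [hQ2]
    intro q hq
    have himg : {w | ∃ y ∈ s, y ∈ {x : Cube n | pas H (List.ofFn x) = true ∧ f x ≠ lab i} ∧
          w = vec ((n + 1) ^ (ps[i]).1) (feat p (List.ofFn y) (ps[i]).1)} =
        (fun x : Cube n => vec ((n + 1) ^ (ps[i]).1) (feat p (List.ofFn x) (ps[i]).1)) ''
          {y | y ∈ s ∧ pas H (List.ofFn y) = true ∧ f y ≠ lab i} := by
      ext w
      constructor
      · rintro ⟨y, hy, hy1, rfl⟩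
        exact ⟨y, ⟨hy, hy1⟩, rfl⟩
      · rintro ⟨y, ⟨hy, hy1⟩, rfl⟩
        exact ⟨y, hy, hy1, rfl⟩
    rw [himg] at hx2
    refine eq_zero_of_span (feat_rep (ps[i]).1) (hQ1 q hq) ?_ hx2
    rintro y ⟨hy, hy1, hy2⟩
    have hyA : y ∈ A i := by
      rcases Nat.eq_zero_or_pos i with h0 | h0
      · rw [h0, h.zero]
        exact Set.mem_univ y
      · by_contra hc
        exact h1 ⟨i, h0, le_rfl, y, hy, hH.mem y hy1 i h0 le_rfl, hc⟩
    have hyA' : y ∈ A (i + 1) := by
      by_contra hc
      exact hy2 (h.lab_eq i y hyA hc)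
    have hyZ := h.sub (i + 1) hyA'
    rw [hQ2] at hyZ
    exact hyZ q hq
  · have h3 := Trial_union μ (A := {x | pas (H ++ [((ps[i]).1, bas p (ps[i]).1 (lab i)
      ((lbl f s).filter fun a => pas H a.1))]) (List.ofFn x) = false ∧
      evl (H ++ [((ps[i]).1, bas p (ps[i]).1 (lab i)
      ((lbl f s).filter fun a => pas H a.1))]) true (List.ofFn x) ≠ f x})
      (B := {x | pas H (List.ofFn x) = false ∧ evl H true (List.ofFn x) ≠ f x})
      (C := {x | x ∈ {x : Cube n | pas H (List.ofFn x) = true ∧ f x ≠ lab i} ∧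
      vec ((n + 1) ^ (ps[i]).1) (feat p (List.ofFn x) (ps[i]).1) ∉ Submodule.span (ZMod p)
        {w | ∃ y ∈ s, y ∈ {x : Cube n | pas H (List.ofFn x) = true ∧ f x ≠ lab i} ∧
          w = vec ((n + 1) ^ (ps[i]).1) (feat p (List.ofFn y) (ps[i]).1)}}) (by
      rintro x ⟨hx1, hx2⟩
      rcases Bool.eq_false_or_eq_true (pas H (List.ofFn x)) with h4 | h4
      · right
        have h5 : ¬ isZ (red (bas p (ps[i]).1 (lab i)
            ((lbl f s).filter fun a => pas H a.1)) (feat p (List.ofFn x) (ps[i]).1)) = true := by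
          intro h6
          have h7 := (Trial_pas H ((ps[i]).1, bas p (ps[i]).1 (lab i)
            ((lbl f s).filter fun a => pas H a.1)) (List.ofFn x)).2 ⟨h4, h6⟩
          rw [h7] at hx1
          exact Bool.noConfusion hx1
        have h6 := Trial_evl H [((ps[i]).1, bas p (ps[i]).1 (lab i)
            ((lbl f s).filter fun a => pas H a.1))] (List.ofFn x) h4 0
        rw [hH.len, Nat.zero_add, evl, if_neg h5] at h6
        have h7 : lab 0 = true := rfl
        rw [h7] at h6
        rw [h6] at hx2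
        exact ⟨⟨h4, fun h8 => hx2 h8.symm⟩, fun h8 => h5 ((hred x).2 h8)⟩
      · left
        rw [Trial_evl' _ _ _ h4] at hx2
        exact ⟨h4, hx2⟩)
    have h4 := hH.err
    push_cast
    linarith

/-- One trial succeeds except with probability `(L + L ^ 2) β`. -/
theorem trial [Fact p.Prime] (μ : Dist n) (f : Cube n → Bool) (ps : List (ℕ × ℕ))
    (A Z : ℕ → Set (Cube n)) (η : ℕ → ℝ) (h : Dat p μ f ps A Z η) {ε β : ℝ} (h0 : 0 ≤ ε)
    (h1 : ε ≤ 1) (hβ : 0 ≤ β)
    (hg : ∀ q ∈ ps, (p : ℝ) ^ ((n + 1) ^ q.1) ^ 2 * (1 - ε) ^ q.2 ≤ β)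
    (hn : ∀ i (hi : i < ps.length) j, 1 ≤ j → j ≤ i → ((ps[i]).2 : ℝ) * η j ≤ β) :
    PL μ (tot ps) (fun s => ps.length * ε + η ps.length <
      μ.err f fun x => evl (tri (p := p) ps [] true (lbl f s)) true (List.ofFn x)) ≤
      (ps.length + ps.length ^ 2) * β := by
  have key : ∀ (qs : List (ℕ × ℕ)) (i : ℕ) (H : List (ℕ × List (List (ZMod p)))),
      i + qs.length = ps.length → ps.drop i = qs → Trial_inv μ f Z ε H i →
      PL μ (tot qs) (fun s => ps.length * ε + η ps.length <
        μ.err f fun x => evl (tri (p := p) qs H (lab i) (lbl f s)) true (List.ofFn x)) ≤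
        qs.length * ((1 + ps.length) * β) := by
    intro qs
    induction qs with
    | nil =>
      intro i H hi hq hH
      rw [List.length_nil, Nat.add_zero] at hi
      have h2 : μ.err f (fun x => evl H true (List.ofFn x)) ≤
          ps.length * ε + η ps.length := by
        have h3 := Trial_union μ (A := {x | evl H true (List.ofFn x) ≠ f x})
          (B := {x | pas H (List.ofFn x) = false ∧ evl H true (List.ofFn x) ≠ f x})
          (C := Z ps.length \ A ps.length) (by
            intro x hx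
            rcases Bool.eq_false_or_eq_true (pas H (List.ofFn x)) with h4 | h4
            · right
              refine ⟨hH.mem x h4 ps.length h.pos (by omega), fun h5 => ?_⟩
              have h6 := Trial_evl H [] (List.ofFn x) h4 0
              rw [List.append_nil, hH.len, Nat.zero_add, evl, hi] at h6
              have h7 : lab 0 = true := rfl
              rw [h7] at h6
              have h8 := h.lab_eq ps.length x h5 (by rw [h.last]; exact Set.notMem_empty x)
              exact hx (h6.trans h8.symm)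
            · exact Or.inl ⟨h4, hx⟩)
        have h4 := hH.err
        rw [hi] at h4
        have h5 := h.small ps.length h.pos le_rfl
        have h6 : μ.err f (fun x => evl H true (List.ofFn x)) =
          μ.pr {x | evl H true (List.ofFn x) ≠ f x} := rfl
        rw [h6]
        linarith
      have h3 : PL μ (tot []) (fun s => ps.length * ε + η ps.length <
          μ.err f fun x => evl (tri (p := p) [] H (lab i) (lbl f s)) true (List.ofFn x)) = 0 := by
        unfold PL
        have h4 : tot [] = 0 := rfl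
        rw [h4, EL_zero]
        refine if_neg ?_
        rw [not_lt]
        exact h2
      rw [h3]
      simp
    | cons q qs ih =>
      intro i H hi hq hH
      rw [List.length_cons] at hi
      have hil : i < ps.length := by omega
      have hd := List.drop_eq_getElem_cons hil
      rw [hq, List.cons.injEq] at hd
      obtain ⟨hd1, hd2⟩ := hd
      have htot : tot (q :: qs) = q.2 + tot qs := by
        simp [tot]
      rw [htot]
      have hcast : ((q :: qs).length : ℝ) * ((1 + ps.length) * β) =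
          (1 + ps.length) * β + qs.length * ((1 + ps.length) * β) := by
        rw [List.length_cons]
        push_cast
        ring
      rw [hcast]
      have hL : (0 : ℝ) ≤ (1 + ps.length) * β := by positivity
      refine PL_add μ q.2 (tot qs) _ (fun s => (∃ j, 1 ≤ j ∧ j ≤ i ∧ ∃ x ∈ s, x ∈ Z j \ A j) ∨
        ε < μ.pr {x | x ∈ {x : Cube n | pas H (List.ofFn x) = true ∧ f x ≠ lab i} ∧
          vec ((n + 1) ^ q.1) (feat p (List.ofFn x) q.1) ∉ Submodule.span (ZMod p)
          {w | ∃ y ∈ s, y ∈ {x : Cube n | pas H (List.ofFn x) = true ∧ f x ≠ lab i} ∧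
            w = vec ((n + 1) ^ q.1) (feat p (List.ofFn y) q.1)}}) ?_ (by positivity) ?_
      · refine (PL_or μ q.2 _ _).trans ?_
        have h2 := Trial_noise μ q.2 A Z (β := β) i fun j hj1 hj2 => by
          have h3 := h.small j hj1 (by omega)
          have h4 := hn i hil j hj1 hj2
          rw [← hd1] at h4
          exact (mul_le_mul_of_nonneg_left h3 (Nat.cast_nonneg _)).trans h4
        have h3 := (gen_prob μ (fun x : Cube n => vec ((n + 1) ^ q.1)
          (feat p (List.ofFn x) q.1)) {x : Cube n | pas H (List.ofFn x) = true ∧ f x ≠ lab i}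
          q.2 h0 h1).trans (hg q (by rw [hd1]; exact List.getElem_mem hil))
        have h4 : (i : ℝ) ≤ ps.length := by exact_mod_cast hil.le
        have h5 : (i : ℝ) * β ≤ ps.length * β := mul_le_mul_of_nonneg_right h4 hβ
        have h6 : (1 + (ps.length : ℝ)) * β = ps.length * β + β := by ring
        rw [h6]
        exact add_le_add (h2.trans h5) h3
      · intro s hs hsQ
        rw [not_or, not_lt] at hsQ
        have hstep := Trial_step h hil hH s hsQ.1 (by
          rw [← hd1]
          exact hsQ.2)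
        rw [← hd1] at hstep
        have h2 := ih (i + 1) _ (by omega) hd2.symm hstep
        refine le_trans (le_of_eq ?_) h2
        congr 1
        funext s'
        have h3 : (lbl f (s ++ s')).take q.2 = lbl f s := by
          unfold lbl
          rw [List.map_append, ← hs]
          exact List.take_left' (by rw [List.length_map])
        have h4 : (lbl f (s ++ s')).drop q.2 = lbl f s' := by
          unfold lbl
          rw [List.map_append, ← hs]
          exact List.drop_left' (by rw [List.length_map])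
        rw [tri, h3, h4, Trial_lab]
  have h2 := key ps 0 [] (by omega) List.drop_zero ⟨rfl, fun x _ j h1 h2 => by omega, by
    have h3 : {x : Cube n | pas ([] : List (ℕ × List (List (ZMod p)))) (List.ofFn x) = false ∧
        evl ([] : List (ℕ × List (List (ZMod p)))) true (List.ofFn x) ≠ f x} = ∅ := by
      ext x
      simp [pas]
    rw [h3]
    simp [Dist.pr]⟩
  refine h2.trans (le_of_eq ?_)
  ring

end Tw
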