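import Pool.Agent.Lib.MP_9abc2e_lc.TW.Lst
import Pool.Agent.Lib.MP_9abc2e_lc.TW.Exp

/-!
# TW: the majority vote
-/

set_option autoImplicit false

open scoped Classical

namespace Tw

open Few

variable {p n : ℕ}

/-- The learner does not look at more than `tot ps` examples in one trial. -/
theorem tri_append (ps : List (ℕ × ℕ)) (H : List (ℕ × List (List (ZMod p)))) (b : Bool)
    (S S' : List (List Bool × Bool)) (hS : S.length = tot ps) :
    tri ps H b (S ++ S') = tri ps H b S := by
  induction ps generalizing H b S with
  | nil => rw [tri, tri]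
  | cons q ps ih =>
    have h1 : tot (q :: ps) = q.2 + tot ps := by
      unfold tot
      rw [List.map_cons, List.sum_cons]
    rw [h1] at hS
    rw [tri, tri, List.take_append_of_le_length (by omega), List.drop_append_of_le_length (by omega)]
    exact ih _ _ _ (by rw [List.length_drop]; omega)

/-- the number of the elements with a property which implies one of two others -/
theorem vote_countP_or {α : Type} (P Q R : α → Bool) (h : ∀ a, P a = true → Q a = true ∨ R a = true)
    (l : List α) : l.countP P ≤ l.countP Q + l.countP R := by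
  induction l with
  | nil => simp
  | cons a l ih =>
    rw [List.countP_cons, List.countP_cons, List.countP_cons]
    by_cases hP : P a = true
    · rcases h a hP with hQ | hR
      · rw [if_pos hP, if_pos hQ]
        omega
      · rw [if_pos hP, if_pos hR]
        omega
    · rw [if_neg hP]
      omega

/-- The mean number of good hypotheses which are wrong at a point. -/
theorem vote_mean (μ : Dist n) (f : Cube n → Bool) {ε : ℝ} (h0 : 0 ≤ ε)
    (Hs : List (List (ℕ × List (List (ZMod p))))) :
    ∑ x, μ.w x * (Hs.countP (fun H => decide ((μ.err f fun x => evl H true (List.ofFn x)) ≤ ε ∧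
      evl H true (List.ofFn x) ≠ f x)) : ℝ) ≤ Hs.length * ε := by
  induction Hs with
  | nil => simp
  | cons H Hs ih =>
    have h1 : ∑ x, μ.w x * (if (decide ((μ.err f fun x => evl H true (List.ofFn x)) ≤ ε ∧
        evl H true (List.ofFn x) ≠ f x)) = true then (1 : ℝ) else 0) ≤ ε := by
      by_cases hH : (μ.err f fun x => evl H true (List.ofFn x)) ≤ ε
      · refine le_trans (le_of_eq ?_) hH
        rw [Dist.err, Dist.pr]
        refine Finset.sum_congr rfl fun x _ => ?_
        by_cases hx : evl H true (List.ofFn x) ≠ f x
        · rw [if_pos (decide_eq_true ⟨hH, hx⟩), mul_one]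
          rw [if_pos (show x ∈ {x | (fun x => evl H true (List.ofFn x)) x ≠ f x} from hx)]
        · rw [if_neg (fun h => hx (of_decide_eq_true h).2), mul_zero]
          rw [if_neg (show ¬ x ∈ {x | (fun x => evl H true (List.ofFn x)) x ≠ f x} from hx)]
      · refine le_trans (le_of_eq ?_) h0
        refine Finset.sum_eq_zero fun x _ => ?_
        rw [if_neg (fun h => hH (of_decide_eq_true h).1), mul_zero]
    have h2 : ∀ x ∈ (Finset.univ : Finset (Cube n)), μ.w x * ((H :: Hs).countP (fun H => decide ((μ.err f fun x => evl H true (List.ofFn x)) ≤ ε ∧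
        evl H true (List.ofFn x) ≠ f x)) : ℝ) = μ.w x * (Hs.countP (fun H => decide ((μ.err f fun x => evl H true (List.ofFn x)) ≤ ε ∧
        evl H true (List.ofFn x) ≠ f x)) : ℝ) + μ.w x * (if (decide ((μ.err f fun x => evl H true (List.ofFn x)) ≤ ε ∧
        evl H true (List.ofFn x) ≠ f x)) = true then (1 : ℝ) else 0) := by
      intro x _
      rw [List.countP_cons]
      push_cast
      rw [mul_add]
    rw [Finset.sum_congr rfl h2, Finset.sum_add_distrib, List.length_cons]
    push_cast
    linarith

/-- If less than a quarter of the hypotheses have error more than `ε`, the majority has error at most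
`4 ε`. -/
theorem maj_err (μ : Dist n) (f : Cube n → Bool) (Hs : List (List (ℕ × List (List (ZMod p)))))
    {ε : ℝ} (h0 : 0 ≤ ε) (hK : 0 < Hs.length)
    (h : 4 * Hs.countP (fun H => decide (ε < μ.err f fun x => evl H true (List.ofFn x))) <
      Hs.length) : μ.err f (fun x => maj Hs (List.ofFn x)) ≤ 4 * ε := by
  have h1 : ∀ x : Cube n, maj Hs (List.ofFn x) ≠ f x → Hs.length ≤
      4 * Hs.countP (fun H => decide ((μ.err f fun x => evl H true (List.ofFn x)) ≤ ε ∧
        evl H true (List.ofFn x) ≠ f x)) := by
    intro x hx
    have h2 : Hs.countP (fun H => decide (evl H true (List.ofFn x) ≠ f x)) ≤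
        Hs.countP (fun H => decide ((μ.err f fun x => evl H true (List.ofFn x)) ≤ ε ∧
        evl H true (List.ofFn x) ≠ f x)) + Hs.countP (fun H => decide (ε < μ.err f fun x => evl H true (List.ofFn x))) := by
      refine vote_countP_or _ _ _ (fun H hH => ?_) Hs
      by_cases hg : (μ.err f fun x => evl H true (List.ofFn x)) ≤ ε
      · exact Or.inl (decide_eq_true ⟨hg, of_decide_eq_true hH⟩)
      · exact Or.inr (decide_eq_true (not_le.1 hg))
    have h3 : Hs.length ≤ 2 * Hs.countP (fun H => decide (evl H true (List.ofFn x) ≠ f x)) := by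
      have h4 := List.length_eq_countP_add_countP (fun H => evl H true (List.ofFn x)) (l := Hs)
      unfold maj at hx
      cases hf : f x with
      | true =>
        rw [hf] at hx
        have h5 : ¬ Hs.length < 2 * Hs.countP fun H => evl H true (List.ofFn x) := by
          intro h6
          exact hx (decide_eq_true h6)
        have h7 : Hs.countP (fun H => decide (evl H true (List.ofFn x) ≠ true)) =
            Hs.countP (fun H => decide (¬ evl H true (List.ofFn x) = true)) := rfl
        omega
      | false =>
        rw [hf] at hx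
        have h5 : Hs.length < 2 * Hs.countP fun H => evl H true (List.ofFn x) := by
          by_contra h6
          exact hx (decide_eq_false h6)
        have h7 : Hs.countP (fun H => decide (evl H true (List.ofFn x) ≠ false)) =
            Hs.countP (fun H => evl H true (List.ofFn x)) := by
          congr 1
          funext H
          cases evl H true (List.ofFn x) <;> simp
        rw [h7]
        omega
    omega
  have h2 := vote_mean μ f h0 Hs
  have h3 : (Hs.length : ℝ) * μ.err f (fun x => maj Hs (List.ofFn x)) ≤
      4 * ∑ x, μ.w x * (Hs.countP (fun H => decide ((μ.err f fun x => evl H true (List.ofFn x)) ≤ ε ∧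
      evl H true (List.ofFn x) ≠ f x)) : ℝ) := by
    rw [Dist.err, Dist.pr, Finset.mul_sum, Finset.mul_sum]
    refine Finset.sum_le_sum fun x _ => ?_
    have hw := μ.nonneg x
    by_cases hx : maj Hs (List.ofFn x) ≠ f x
    · rw [if_pos (show x ∈ {x | (fun x => maj Hs (List.ofFn x)) x ≠ f x} from hx)]
      have h4 : (Hs.length : ℝ) ≤ 4 * (Hs.countP (fun H => decide ((μ.err f fun x => evl H true (List.ofFn x)) ≤ ε ∧
        evl H true (List.ofFn x) ≠ f x)) : ℝ) := by exact_mod_cast h1 x hx
      have h5 := mul_le_mul_of_nonneg_right h4 hw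
      linarith
    · rw [if_neg (show ¬ x ∈ {x | (fun x => maj Hs (List.ofFn x)) x ≠ f x} from hx), mul_zero]
      positivity
  have hK' : (0 : ℝ) < Hs.length := by exact_mod_cast hK
  have h4 : (Hs.length : ℝ) * μ.err f (fun x => maj Hs (List.ofFn x)) ≤ Hs.length * (4 * ε) := by
    linarith
  exact le_of_mul_le_mul_left h4 hK'

theorem vote_trs_length (ps : List (ℕ × ℕ)) (K : ℕ) (S : List (List Bool × Bool)) :
    (trs p ps K S).length = K := by
  induction K generalizing S with
  | zero => rw [trs, List.length_nil]
  | succ K ih => rw [trs, List.length_cons, ih]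

theorem vote_trs_succ (f : Cube n → Bool) (ps : List (ℕ × ℕ)) (K : ℕ) (s s' : List (Cube n))
    (hs : s.length = tot ps) : trs p ps (K + 1) (lbl f (s ++ s')) =
      tri ps [] true (lbl f s) :: trs p ps K (lbl f s') := by
  have h1 : lbl f (s ++ s') = lbl f s ++ lbl f s' := by
    unfold lbl
    rw [List.map_append]
  have h2 : (lbl f s).length = tot ps := by
    unfold lbl
    rw [List.length_map, hs]
  rw [trs, h1, tri_append ps [] true _ _ h2, ← h2, List.drop_left]

/-- the exponential moment of the number of bad trials -/
theorem vote_exp (μ : Dist n) (f : Cube n → Bool) (ps : List (ℕ × ℕ)) {ε : ℝ}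
    (h : PL μ (tot ps) (fun s => ε < μ.err f fun x =>
      evl (tri (p := p) ps [] true (lbl f s)) true (List.ofFn x)) ≤ 1 / 256) (K m : ℕ)
    (hm : K * tot ps ≤ m) :
    EL μ m (fun s => (256 : ℝ) ^ ((trs p ps K (lbl f s)).countP
      (fun H => decide (ε < μ.err f fun x => evl H true (List.ofFn x))))) ≤ (1 + 255 / 256) ^ K := by
  induction K generalizing m with
  | zero =>
    have h1 : (fun s : List (Cube n) => (256 : ℝ) ^ ((trs p ps 0 (lbl f s)).countP
      (fun H => decide (ε < μ.err f fun x => evl H true (List.ofFn x))))) = fun _ => 1 := by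
      funext s
      rw [trs, List.countP_nil, pow_zero]
    rw [h1, EL_const, pow_zero]
  | succ K ih =>
    have hm1 : (K + 1) * tot ps = K * tot ps + tot ps := by ring
    obtain ⟨m', rfl⟩ : ∃ m', m = tot ps + m' := ⟨m - tot ps, by omega⟩
    have ih' := ih m' (by omega)
    rw [EL_add]
    have h2 : EL μ (tot ps) (fun s => EL μ m' fun s' => (256 : ℝ) ^ ((trs p ps (K + 1) (lbl f (s ++ s'))).countP
      (fun H => decide (ε < μ.err f fun x => evl H true (List.ofFn x))))) ≤
        EL μ (tot ps) (fun s => (1 + 255 / 256) ^ K + (255 * (1 + 255 / 256) ^ K) * (if (ε < μ.err f fun x =>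
      evl (tri (p := p) ps [] true (lbl f s)) true (List.ofFn x)) then 1 else 0)) := by
      refine EL_mono μ _ fun s hs => ?_
      by_cases hb : (ε < μ.err f fun x => evl (tri (p := p) ps [] true (lbl f s)) true (List.ofFn x))
      · have h3 : (fun s' => (256 : ℝ) ^ ((trs p ps (K + 1) (lbl f (s ++ s'))).countP
            (fun H => decide (ε < μ.err f fun x => evl H true (List.ofFn x))))) =
            fun s' => 256 * (256 : ℝ) ^ ((trs p ps K (lbl f s')).countP
            (fun H => decide (ε < μ.err f fun x => evl H true (List.ofFn x)))) := by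
          funext s'
          rw [vote_trs_succ f ps K s s' hs, List.countP_cons, if_pos (decide_eq_true hb), pow_succ,
            mul_comm]
        rw [h3, EL_mul, if_pos hb]
        have h4 := mul_le_mul_of_nonneg_left ih' (show (0 : ℝ) ≤ 256 by norm_num)
        refine h4.trans (le_of_eq ?_)
        ring
      · have h3 : (fun s' => (256 : ℝ) ^ ((trs p ps (K + 1) (lbl f (s ++ s'))).countP
            (fun H => decide (ε < μ.err f fun x => evl H true (List.ofFn x))))) =
            fun s' => (256 : ℝ) ^ ((trs p ps K (lbl f s')).countP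
            (fun H => decide (ε < μ.err f fun x => evl H true (List.ofFn x)))) := by
          funext s'
          rw [vote_trs_succ f ps K s s' hs, List.countP_cons, if_neg (fun h5 => hb (of_decide_eq_true h5)),
            add_zero]
        rw [h3, if_neg hb, mul_zero, add_zero]
        exact ih'
    refine h2.trans ?_
    rw [EL_plus, EL_const, EL_mul]
    have h5 : (0 : ℝ) ≤ 255 * (1 + 255 / 256) ^ K := by positivity
    have h6 := mul_le_mul_of_nonneg_left h h5
    unfold PL at h6
    refine (add_le_add le_rfl h6).trans (le_of_eq ?_)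
    rw [pow_succ]
    ring

/-- If one trial fails with probability at most `1 / 256`, the majority of `K` trials fails with
probability at most `2 ^ (-K)`. -/
theorem vote (μ : Dist n) (f : Cube n → Bool) (ps : List (ℕ × ℕ)) {ε : ℝ} (h0 : 0 ≤ ε)
    (h : PL μ (tot ps) (fun s => ε < μ.err f fun x =>
      evl (tri (p := p) ps [] true (lbl f s)) true (List.ofFn x)) ≤ 1 / 256) (K m : ℕ) (hK : 0 < K)
    (hm : K * tot ps ≤ m) :
    PL μ m (fun s => 4 * ε < μ.err f fun x => maj (trs p ps K (lbl f s)) (List.ofFn x)) ≤
      1 / 2 ^ K := by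
  have h1 := vote_exp μ f ps h K m hm
  have h2 : PL μ m (fun s => 4 * ε < μ.err f fun x => maj (trs p ps K (lbl f s)) (List.ofFn x)) ≤
      EL μ m (fun s => 1 / 4 ^ K * (256 : ℝ) ^ ((trs p ps K (lbl f s)).countP
      (fun H => decide (ε < μ.err f fun x => evl H true (List.ofFn x))))) := by
    unfold PL
    refine EL_mono μ m fun s _ => ?_
    by_cases hb : (4 * ε < μ.err f fun x => maj (trs p ps K (lbl f s)) (List.ofFn x))
    · rw [if_pos hb]
      have h3 : K ≤ 4 * (trs p ps K (lbl f s)).countP
          (fun H => decide (ε < μ.err f fun x => evl H true (List.ofFn x))) := by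
        by_contra hcon
        rw [not_le] at hcon
        have h4 := maj_err μ f (trs p ps K (lbl f s)) h0 (by rw [vote_trs_length]; exact hK)
          (by rw [vote_trs_length]; exact hcon)
        linarith
      have h5 : (4 : ℝ) ^ K ≤ (256 : ℝ) ^ ((trs p ps K (lbl f s)).countP
          (fun H => decide (ε < μ.err f fun x => evl H true (List.ofFn x)))) := by
        have h6 : (256 : ℝ) = 4 ^ 4 := by norm_num
        rw [h6, ← pow_mul]
        exact pow_le_pow_right₀ (by norm_num) h3
      rw [one_div, inv_mul_eq_div, le_div_iff₀ (by positivity), one_mul]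
      exact h5
    · rw [if_neg hb]
      positivity
  refine h2.trans ?_
  rw [EL_mul]
  have h3 : (1 + 255 / 256 : ℝ) ^ K ≤ 2 ^ K := pow_le_pow_left₀ (by norm_num) (by norm_num) K
  have h4 : (0 : ℝ) < 1 / 4 ^ K := by positivity
  refine (mul_le_mul_of_nonneg_left (h1.trans h3) h4.le).trans (le_of_eq ?_)
  have h5 : (4 : ℝ) ^ K = 2 ^ K * 2 ^ K := by
    rw [← mul_pow]
    norm_num
  rw [h5]
  field_simp

end Tw
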