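import Pool.Agent.Lib.MP_9abc2e_lc.TW.Circ2
import Pool.Agent.Lib.MP_9abc2e_lc.TW.Trial
import Pool.Agent.Lib.MP_9abc2e_lc.TW.Vote
import Pool.Agent.Lib.MP_9abc2e_lc.TW.Num
import Pool.Agent.Lib.MP_9abc2e_lc.TW.Prog
import Pool.Agent.Lib.MP_9abc2e_lc.FEW.Main

/-!
# TW: the theorem
-/

set_option autoImplicit false

namespace Tw

open Few

theorem lab_decide (i : ℕ) : lab i = decide (i % 2 = 0) := by
  unfold lab
  rcases Nat.mod_two_eq_zero_or_one i with h | h <;> rw [h] <;> rfl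

theorem dens_pr {n : ℕ} (μ : Dist n) {M : ℝ} (hM : ∀ x, μ.w x ≤ M / 2 ^ n) (A : Set (Cube n)) :
    μ.pr A ≤ M * A.ncard / 2 ^ n := by
  classical
  unfold Dist.pr
  have h : ∀ x : Cube n, (if x ∈ A then μ.w x else 0) ≤
      (if x ∈ A then (1 : ℝ) else 0) * (M / 2 ^ n) := by
    intro x
    split_ifs
    · rw [one_mul]
      exact hM x
    · rw [zero_mul]
  refine (Finset.sum_le_sum fun x _ => h x).trans (le_of_eq ?_)
  rw [← Finset.sum_mul, Finset.sum_boole]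
  have h2 : ((Finset.univ.filter fun x => x ∈ A).card : ℝ) = A.ncard := by
    congr 1
    rw [← Set.ncard_coe_finset]
    congr 1
    ext x
    simp
  rw [h2]
  ring

theorem pars_length (L : ℕ) (a e : ℕ → ℕ) (l : ℕ) : (pars L a e l).length = L := by
  simp [pars]

theorem pars_get (L : ℕ) (a e : ℕ → ℕ) (l i : ℕ) (h : i < (pars L a e l).length) :
    (pars L a e l)[i] = ((l + 2) ^ a i, 2 ^ (l + 2) ^ e i) := by
  simp [pars]

theorem tot_pars (L : ℕ) (a e : ℕ → ℕ) (l : ℕ) :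
    tot (pars L a e l) = ∑ i ∈ Finset.range L, 2 ^ (l + 2) ^ e i := by
  unfold tot pars
  rw [List.map_map]
  induction L with
  | zero => rfl
  | succ L ih =>
    rw [List.range_succ, List.map_append, List.sum_append, ih, Finset.sum_range_succ]
    simp

/-- the chain of `f` gives the data of the stages -/
theorem dat_of_ch {p : ℕ} [Fact p.Prime] {n C s M L l : ℕ} {a e τ : ℕ → ℕ} {f : Cube n → Bool}
    (hL : 1 ≤ L) (h : Ch p f (L + 1) (fun t => C * (t + 1) ^ 2) (C * (s + n + 1)))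
    (ha : ∀ i < L, C * ((l + 2) ^ τ (i + 1) + 1) ^ 2 ≤ (l + 2) ^ a i)
    (μ : Dist n) (hM : ∀ x, μ.w x ≤ M / 2 ^ n) :
    ∃ A Z : ℕ → Set (Cube n), Dat p μ f (pars L a e l) A Z
      fun j => (C * ((s + n + 1) * M) : ℝ) / 2 ^ (l + 2) ^ τ j := by
  obtain ⟨A, h0, h1, h2, h3, h4⟩ := h
  have h5 : ∀ j, ∃ Z : Set (Cube n), A j ⊆ Z ∧ (1 ≤ j → j ≤ L →
      Closed p (C * ((l + 2) ^ τ j + 1) ^ 2) Z ∧
      (Z \ A j).ncard * 2 ^ (l + 2) ^ τ j ≤ C * (s + n + 1) * 2 ^ n) := by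
    intro j
    by_cases hj : j ≤ L
    · obtain ⟨Z, z1, z2, z3⟩ := h4 ((l + 2) ^ τ j) j (by omega)
      exact ⟨Z, z2, fun _ _ => ⟨z1, z3⟩⟩
    · exact ⟨Set.univ, Set.subset_univ _, fun _ h => absurd h hj⟩
  choose Z hZ1 hZ2 using h5
  refine ⟨A, Z, ?_, h0, ?_, h2, fun i x hx hx' => ?_, hZ1, fun i hi => ?_, fun j hj hj' => ?_⟩
  · rw [pars_length]
    exact hL
  · rw [pars_length]
    exact h1
  · rw [lab_decide]
    exact h3 i x hx hx'
  · have hi' : i < L := by rwa [pars_length] at hi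
    rw [pars_get]
    exact (hZ2 (i + 1) (by omega) (by omega)).1.mono (ha i hi')
  · rw [pars_length] at hj'
    refine (dens_pr μ hM _).trans ?_
    rw [div_le_div_iff₀ (by positivity) (by positivity)]
    have h6 : M * ((Z j \ A j).ncard * 2 ^ (l + 2) ^ τ j) ≤ M * (C * (s + n + 1) * 2 ^ n) :=
      Nat.mul_le_mul_left _ (hZ2 j hj hj').2
    have h7 : (M : ℝ) * ((Z j \ A j).ncard * 2 ^ (l + 2) ^ τ j) ≤
        M * (C * (s + n + 1) * 2 ^ n) := by exact_mod_cast h6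
    linarith

/-- The theorem. -/
theorem main (p : ℕ) [Fact p.Prime] (c d k r : ℕ) : ∃ (A E : Prg) (b : ℕ),
    ∀ (n l m : ℕ) (ε δ : ℝ), 1 ≤ n → 0 < ε → ε ≤ 1 → 0 < δ → δ ≤ 1 → (n : ℝ) / ε ≤ 2 ^ l →
    2 ^ (l + 2) ^ b * (1 + Real.logb 2 (1 / δ)) ≤ m →
    ∀ f ∈ TwoWide p n d k r (2 ^ (l + 2) ^ c), ∀ μ : Dist n, (∀ x, μ.w x ≤ 2 ^ (l + 2) ^ c / 2 ^ n) →
    1 - δ ≤ μ.prS m {S | ∃ (H : T) (h : Cube n → Bool),
      (∃ τ ≤ m ^ b, Run A (T.cons (unary l) (smp f S)) H τ) ∧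
      (∀ x, ∃ τ ≤ m ^ b, Run E (T.cons H (str x)) (bit (h x)) τ) ∧ μ.err f h ≤ ε} := by
  obtain ⟨C, hC⟩ := chain_of_circ p d k r
  obtain ⟨L, hL⟩ : ∃ L, 2 * 2 ^ r = L + 1 := ⟨2 * 2 ^ r - 1, by
    have := Nat.one_le_two_pow (n := r)
    omega⟩
  have hL1 : 1 ≤ L := by
    have := Nat.one_le_two_pow (n := r)
    omega
  have hp : 2 ≤ p := (Fact.out : p.Prime).two_le
  obtain ⟨a, e, τ, b, hnum⟩ := numer p C c L hp hL1
  obtain ⟨A, E, c₀, hprog⟩ := progs p L hL1 a e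
  refine ⟨A, E, max b (6 * c₀) + 1, ?_⟩
  intro n l m ε δ hn hε hε1 hδ hδ1 hl hm f hf μ hμ
  obtain ⟨n1, n2, n3, n4, n5, n6, n7⟩ := hnum n l ε hn hε hε1 hl
  set ps := pars L a e l with hps
  have htot : tot ps ≤ 2 ^ (l + 2) ^ b := by
    rw [hps, tot_pars]
    exact n5
  have htot1 : 1 ≤ tot ps := by
    rw [hps, tot_pars]
    refine le_trans ?_ (Finset.single_le_sum (f := fun i => 2 ^ (l + 2) ^ e i)
      (fun i _ => Nat.zero_le _) (Finset.mem_range.2 (by omega : 0 < L)))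
    exact Nat.one_le_two_pow
  set b' := max b (6 * c₀) + 1 with hb'
  have hpw : 2 ^ (l + 2) ^ b ≤ 2 ^ (l + 2) ^ b' := by
    refine Nat.pow_le_pow_right (by norm_num) (Nat.pow_le_pow_right (by omega) ?_)
    have := le_max_left b (6 * c₀)
    omega
  have hx : 0 ≤ Real.logb 2 (1 / δ) :=
    Real.logb_nonneg (by norm_num) (by rw [le_div_iff₀ hδ]; linarith)
  have hm0 : 2 ^ (l + 2) ^ b' ≤ m := by
    have h1 : ((2 ^ (l + 2) ^ b' : ℕ) : ℝ) ≤ m := by
      refine le_trans ?_ hm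
      push_cast
      nlinarith [show (0 : ℝ) < 2 ^ (l + 2) ^ b' by positivity]
    exact_mod_cast h1
  have hlm : l + 2 < 2 ^ (l + 2) ^ b' := by
    have h1 : (l + 2) ^ 1 ≤ (l + 2) ^ b' := Nat.pow_le_pow_right (by omega) (by omega)
    rw [pow_one] at h1
    exact lt_of_lt_of_le Nat.lt_two_pow_self (Nat.pow_le_pow_right (by norm_num) h1)
  -- the number of trials
  set K := m / tot ps with hK
  have hKm : K * tot ps ≤ m := Nat.div_mul_le_self m (tot ps)
  have hKx : Real.logb 2 (1 / δ) < K := by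
    have h1 : m < (K + 1) * tot ps := by
      have h1a := Nat.lt_mul_of_div_lt (Nat.lt_succ_self (m / tot ps)) htot1
      exact h1a
    have h2 : (m : ℝ) < (K + 1) * tot ps := by exact_mod_cast h1
    have h3 : ((tot ps : ℕ) : ℝ) ≤ 2 ^ (l + 2) ^ b' := by exact_mod_cast htot.trans hpw
    have h4 : (0 : ℝ) < tot ps := by exact_mod_cast htot1
    have h5 : (tot ps : ℝ) * (1 + Real.logb 2 (1 / δ)) ≤ m :=
      le_trans (mul_le_mul_of_nonneg_right h3 (by linarith)) hm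
    have h6 : (tot ps : ℝ) * (1 + Real.logb 2 (1 / δ)) < tot ps * (K + 1) := by linarith
    have h7 := lt_of_mul_lt_mul_left h6 h4.le
    linarith
  have hK0 : 0 < K := by
    have : (0 : ℝ) < K := lt_of_le_of_lt hx hKx
    exact_mod_cast this
  have hKδ : 1 / 2 ^ K ≤ δ := by
    have h1 : 1 / δ ≤ 2 ^ K := by
      have h2 : (1 / δ : ℝ) = (2 : ℝ) ^ Real.logb 2 (1 / δ) :=
        (Real.rpow_logb (by norm_num) (by norm_num) (by positivity)).symm
      rw [h2, ← Real.rpow_natCast 2 K]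
      exact Real.rpow_le_rpow_of_exponent_le (by norm_num) hKx.le
    rw [div_le_iff₀ (by positivity)]
    rw [div_le_iff₀ hδ] at h1
    linarith
  -- one trial
  have hch : Ch p f (L + 1) (fun t => C * (t + 1) ^ 2) (C * (2 ^ (l + 2) ^ c + n + 1)) := by
    rw [← hL]
    exact hC n (2 ^ (l + 2) ^ c) f hf
  obtain ⟨As, Z, hdat⟩ := dat_of_ch (a := a) (e := e) (τ := τ) (l := l) (M := 2 ^ (l + 2) ^ c) hL1
    hch n1 μ (by push_cast; exact hμ)
  have hLr : (1 : ℝ) ≤ L := by exact_mod_cast hL1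
  have hε' : 0 ≤ ε / (8 * L) := by positivity
  have hε1' : ε / (8 * L) ≤ 1 := by
    rw [div_le_iff₀ (by positivity)]
    linarith
  have htr := trial μ f ps As Z _ hdat (ε := ε / (8 * L))
    (β := 1 / (256 * (L + L ^ 2))) hε' hε1' (by positivity) (by
      intro q hq
      rw [hps, pars, List.mem_map] at hq
      obtain ⟨i, hi, rfl⟩ := hq
      exact n2 i (List.mem_range.1 hi)) (by
      intro i hi j hj hj'
      have hi' : i < L := by rwa [hps, pars_length] at hi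
      have h1 : (ps[i]).2 = 2 ^ (l + 2) ^ e i := by
        simp only [hps, pars_get]
      rw [h1]
      push_cast
      exact n3 i j hj hj' hi')
  have hlen : (ps.length : ℝ) = L := by rw [hps, pars_length]
  have hlen' : ps.length = L := by rw [hps, pars_length]
  rw [hlen, hlen'] at htr
  have e1 : (L : ℝ) * (ε / (8 * L)) = ε / 8 := by
    field_simp
  have e2 : ((L : ℝ) + L ^ 2) * (1 / (256 * (L + L ^ 2))) = 1 / 256 := by
    field_simp
  rw [e1, e2] at htr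
  push_cast at htr
  set ε₁ := ε / 8 + (C * ((2 ^ (l + 2) ^ c + n + 1) * 2 ^ (l + 2) ^ c) : ℝ) /
    2 ^ (l + 2) ^ τ L with hε₁
  have h4ε : 4 * ε₁ ≤ ε := by
    rw [hε₁]
    linarith
  have hε₁0 : 0 ≤ ε₁ := by positivity
  have hvote := vote (p := p) μ f ps hε₁0 htr K m hK0 hKm
  rw [PL_eq] at hvote
  refine le_trans (sub_le_sub_left (hvote.trans hKδ) 1) ?_
  refine one_sub_le μ fun S hS => ?_
  obtain ⟨H, ⟨σ, hσ, hrun⟩, hE⟩ := hprog n m l f S (fun i hi => (n6 i hi).trans (hpw.trans hm0))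
    ((htot.trans hpw).trans hm0)
  have hm2 : 2 ≤ m := by omega
  have hnm : n ≤ m := n7.trans (hpw.trans hm0)
  have hlm' : l ≤ m := by omega
  have hc : 6 * c₀ ≤ b' := by
    have := le_max_right b (6 * c₀)
    omega
  refine ⟨H, fun x => maj (trs p ps K (lbl f (List.ofFn S))) (List.ofFn x), ⟨σ, ?_, hrun⟩,
    fun x => ?_, ?_⟩
  · refine hσ.trans (pow_bound hm2 ?_ hc)
    have h11 := input_size hm2 hnm hlm' f S (fun _ => false)
    have h12 := (str (fun _ => false : Cube n)).one_le_size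
    omega
  · obtain ⟨σ', hσ', hrun'⟩ := hE x
    exact ⟨σ', hσ'.trans (pow_bound hm2 (input_size hm2 hnm hlm' f S x) hc), hrun'⟩
  · by_contra hcon
    refine hS ?_
    show 4 * ε₁ < _
    push Not at hcon
    exact lt_of_le_of_lt h4ε hcon

end Tw
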