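import Pool.Agent.Lib.MP_9abc2e_lc.TW.Lst
import Pool.Agent.Lib.MP_9abc2e_lc.FEW.Progs

/-!
# TW: the programs, part A: take, drop, repeated doubling
-/

set_option autoImplicit false

namespace Tw

open Few

/-! ### take and drop -/

/-- the accumulator is `(rest, output)` -/
def splS (z : T) : T :=
  if z.tl.hd.hd = T.nil then z.tl.hd
  else T.cons z.tl.hd.hd.tl (T.cons z.tl.hd.hd.hd z.tl.hd.tl)

theorem splS_mk (e a c : T) : splS (T.cons e (T.cons a c)) =
    if a.hd = T.nil then a else T.cons a.hd.tl (T.cons a.hd.hd a.tl) := rfl

def splT (n l : T) : T := foldT splS T.nil n (T.cons l T.nil)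

/-- the first elements -/
def takT (n l : T) : T := revT (splT n l).tl

/-- the other elements -/
def drpT (n l : T) : T := (splT n l).hd

theorem splS_size (e a c : T) : (splS (T.cons e (T.cons a c))).size ≤ a.size := by
  rw [splS_mk]
  split_ifs with h
  · exact le_rfl
  · cases a with
    | nil => exact absurd rfl h
    | cons u v =>
      cases u with
      | nil => exact absurd rfl h
      | cons u w =>
        show w.size + (u.size + v.size + 1) + 1 ≤ u.size + w.size + 1 + v.size + 1
        omega

theorem splS_grw : Grw splS :=
  Grw.of_lin 0 fun e a c => (splS_size e a c).trans (Nat.le_add_right _ _)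

theorem splS_pt : PT splS :=
  PT.tl0.hd.hd.ite (PT.tl0.hd.hd.tl.cons (PT.tl0.hd.hd.hd.cons PT.tl0.hd.tl)) PT.tl0.hd

theorem spl_pt {u v : T → T} (hu : PT u) (hv : PT v) : PT fun x => splT (u x) (v x) :=
  PT.fold splS_pt splS_grw hu (hv.cons PT.nil) PT.nil

theorem tak_pt {u v : T → T} (hu : PT u) (hv : PT v) : PT fun x => takT (u x) (v x) :=
  rev_pt (spl_pt hu hv).tl

theorem drp_pt {u v : T → T} (hu : PT u) (hv : PT v) : PT fun x => drpT (u x) (v x) :=
  (spl_pt hu hv).hd

theorem spl_size_aux : ∀ n a : T, (foldT splS T.nil n a).size ≤ a.size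
  | T.nil, _ => le_rfl
  | T.cons e n, a => (spl_size_aux n _).trans (splS_size e a T.nil)

theorem drp_size (n l : T) : (drpT n l).size ≤ l.size := by
  have h1 := spl_size_aux n (T.cons l T.nil)
  have h2 : (drpT n l).size + (splT n l).tl.size ≤ (splT n l).size + 1 := hd_tl_size _
  have h3 := (splT n l).tl.one_le_size
  rw [size_cons, size_nil] at h1
  unfold splT at h2 h3
  cases h4 : foldT splS T.nil n (T.cons l T.nil) with
  | nil =>
    have h5 : drpT n l = T.nil := by
      unfold drpT splT
      rw [h4]
      rfl
    rw [h5]
    exact l.one_le_size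
  | cons a b =>
    rw [h4, size_cons] at h1
    have h5 : drpT n l = a := by
      unfold drpT splT
      rw [h4]
      rfl
    have h6 := b.one_le_size
    rw [h5]
    omega

theorem spl_lst (k : ℕ) (l o : List T) :
    foldT splS T.nil (unary k) (T.cons (lst l) (lst o)) =
      T.cons (lst (l.drop k)) (lst ((l.take k).reverse ++ o)) := by
  induction k generalizing l o with
  | zero => rfl
  | succ k ih =>
    rw [unary_succ, foldT_cons, splS_mk]
    cases l with
    | nil =>
      have h0 : (T.cons (lst []) (lst o)).hd = T.nil := rfl
      rw [if_pos h0]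
      have := ih [] o
      rw [List.drop_nil, List.take_nil] at this ⊢
      exact this
    | cons a l =>
      rw [if_neg (by intro h; cases h)]
      have := ih l (a :: o)
      rw [List.drop_succ_cons, List.take_succ_cons, List.reverse_cons, List.append_assoc]
      exact this

theorem tak_eq (k : ℕ) (l : List T) : takT (unary k) (lst l) = lst (l.take k) := by
  unfold takT splT
  have := spl_lst k l []
  have h : lst ([] : List T) = T.nil := rfl
  rw [h, List.append_nil] at this
  rw [this, tl_cons, rev_eq, List.reverse_reverse]

theorem drp_eq (k : ℕ) (l : List T) : drpT (unary k) (lst l) = lst (l.drop k) := by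
  unfold drpT splT
  have := spl_lst k l []
  have h : lst ([] : List T) = T.nil := rfl
  rw [h, List.append_nil] at this
  rw [this]
  rfl

theorem lst_eq_nil {l : List T} : lst l = T.nil ↔ l = [] := by
  cases l with
  | nil => exact ⟨fun _ => rfl, fun _ => rfl⟩
  | cons a l => exact ⟨fun h => (by cases h), fun h => (by cases h)⟩

/-! ### capped doubling -/

def minS (z : T) : T :=
  if z.tl.hd.hd = T.nil then z.tl.hd else T.cons z.tl.hd.hd.tl (T.cons T.nil z.tl.hd.tl)

theorem minS_mk (e a c : T) : minS (T.cons e (T.cons a c)) =
    if a.hd = T.nil then a else T.cons a.hd.tl (T.cons T.nil a.tl) := rfl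

/-- the number `min (length c) (length y)` -/
def minT (c y : T) : T := (foldT minS T.nil c (T.cons y T.nil)).tl

theorem min_pt {u v : T → T} (hu : PT u) (hv : PT v) : PT fun x => minT (u x) (v x) := by
  refine PT.tl (PT.fold (g := minS) ?_ (Grw.of_lin 0 fun e a c => ?_) hu (hv.cons PT.nil) PT.nil)
  · exact PT.tl0.hd.hd.ite (PT.tl0.hd.hd.tl.cons (PT.nil.cons PT.tl0.hd.tl)) PT.tl0.hd
  · rw [minS_mk]
    split_ifs with h
    · omega
    · cases a with
      | nil => exact absurd rfl h
      | cons u v =>
        cases u with
        | nil => exact absurd rfl h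
        | cons u w =>
          have h1 := u.one_le_size
          show w.size + (1 + v.size + 1) + 1 ≤ u.size + w.size + 1 + v.size + 1 + _
          omega

theorem min_size_aux : ∀ c a : T, (foldT minS T.nil c a).tl.size + 1 ≤ a.tl.size + c.size
  | T.nil, a => le_rfl
  | T.cons e c, a => by
      have h1 := min_size_aux c (minS (T.cons e (T.cons a T.nil)))
      have h2 : (minS (T.cons e (T.cons a T.nil))).tl.size ≤ a.tl.size + 2 := by
        rw [minS_mk]
        split_ifs with h
        · omega
        · rw [tl_cons, size_cons, size_nil]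
          omega
      have h3 := e.one_le_size
      rw [foldT_cons, size_cons]
      omega

theorem min_size (c y : T) : (minT c y).size ≤ c.size := by
  have h := min_size_aux c (T.cons y T.nil)
  rw [tl_cons, size_nil] at h
  unfold minT
  omega

theorem min_lst (l : List T) (k j : ℕ) :
    foldT minS T.nil (lst l) (T.cons (unary k) (unary j)) =
      T.cons (unary (k - l.length)) (unary (j + min k l.length)) := by
  induction l generalizing k j with
  | nil =>
    rw [List.length_nil, Nat.sub_zero, Nat.min_zero, Nat.add_zero]
    rfl
  | cons a l ih =>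
    show foldT minS T.nil (lst l) (minS (T.cons a (T.cons (T.cons (unary k) (unary j)) T.nil))) = _
    rw [minS_mk, List.length_cons]
    cases k with
    | zero =>
      have h0 : (T.cons (unary 0) (unary j)).hd = T.nil := rfl
      rw [if_pos h0, ih 0 j]
      rw [Nat.zero_sub, Nat.zero_sub, Nat.zero_min, Nat.zero_min]
    | succ k =>
      rw [if_neg (by intro h; cases h)]
      have := ih k (j + 1)
      have h1 : T.cons (T.cons (unary (k + 1)) (unary j)).hd.tl
          (T.cons T.nil (T.cons (unary (k + 1)) (unary j)).tl) =
          T.cons (unary k) (unary (j + 1)) := rfl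
      rw [h1, this]
      have h2 : k + 1 - (l.length + 1) = k - l.length := by omega
      have h3 : j + 1 + min k l.length = j + min (k + 1) (l.length + 1) := by omega
      rw [h2, h3]

theorem min_eq (l : List T) (k : ℕ) : minT (lst l) (unary k) = unary (min k l.length) := by
  have h := min_lst l k 0
  rw [Nat.zero_add] at h
  have h1 : unary 0 = T.nil := rfl
  rw [h1] at h
  unfold minT
  rw [h]
  rfl

/-- doubling up to the length of the parameter -/
def dblS (z : T) : T := minT z.tl.tl (addT z.tl.hd z.tl.hd)

/-- the number `2 ^ k` -/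
def dblT (c k : T) : T := foldT dblS c k (unary 1)

theorem dblS_size (e a c : T) :
    (dblS (T.cons e (T.cons a c))).size ≤ a.size + 1 * (e.size + c.size) := by
  have h := min_size c (addT a a)
  show (minT c (addT a a)).size ≤ _
  omega

theorem dbl_pt {u v : T → T} (hu : PT u) (hv : PT v) : PT fun x => dblT (u x) (v x) :=
  PT.fold (g := dblS) (min_pt PT.tl0.tl (add_pt PT.tl0.hd PT.tl0.hd)) (Grw.of_lin 1 dblS_size) hv
    (PT.const _) hu

theorem dbl_lst (l : List T) (k j : ℕ) (h : j * 2 ^ k ≤ l.length) :
    foldT dblS (lst l) (unary k) (unary j) = unary (j * 2 ^ k) := by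
  induction k generalizing j with
  | zero =>
    rw [pow_zero, mul_one]
    rfl
  | succ k ih =>
    have h2 : (j + j) * 2 ^ k = j * 2 ^ (k + 1) := by
      rw [pow_succ]
      ring
    rw [← h2] at h ⊢
    have h1 : dblS (T.cons T.nil (T.cons (unary j) (lst l))) = unary (j + j) := by
      show minT (lst l) (addT (unary j) (unary j)) = _
      have h3 : addT (unary j) (unary j) = unary (j + j) := by
        have := add_eq (List.replicate j T.nil) j
        rw [List.length_replicate] at this
        exact this
      have h4 : j + j ≤ l.length := le_trans (Nat.le_mul_of_pos_right _ (by positivity)) h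
      rw [h3, min_eq, min_eq_left h4]
    rw [unary_succ, foldT_cons, h1]
    exact ih (j + j) h

theorem dbl_eq (l : List T) (k : ℕ) (h : 2 ^ k ≤ l.length) :
    dblT (lst l) (unary k) = unary (2 ^ k) := by
  have := dbl_lst l k 1 (by rw [one_mul]; exact h)
  rw [one_mul] at this
  exact this

end Tw
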