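import Pool.Agent.Lib.MP_9abc2e_lc.TW.PrA

/-!
# TW: the programs, part B: levels, basis of a batch, one trial
-/

set_option autoImplicit false

namespace Tw

open Few

variable {p : ℕ} [Fact p.Prime]

omit [Fact p.Prime] in
/-- code of a level -/
def lvT (q : ℕ × List (List (ZMod p))) : T := T.cons (unary q.1) (basT q.2)

omit [Fact p.Prime] in
/-- code of a hypothesis -/
def hypT (H : List (ℕ × List (List (ZMod p)))) : T := lst (H.map lvT)

/-- code of a list of examples -/
def exT (S : List (List Bool × Bool)) : T := lst (S.map fun a => T.cons (strT a.1) (bit a.2))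

/-- test of one level; `e` is the level and `c = (cap, x)` -/
noncomputable def tsT (p : ℕ) [Fact p.Prime] (e c : T) : T :=
  isZT (redT p e.tl (featT p c.hd e.hd c.tl))

theorem ts_pt {u v : T → T} (hu : PT u) (hv : PT v) : PT fun x => tsT p (u x) (v x) :=
  isZ_pt (red_pt hu.tl (feat_pt hv.hd hu.hd hv.tl))

theorem ts_eq (cap : T) (q : ℕ × List (List (ZMod p))) (x : List Bool)
    (h : (x.length + 1) ^ q.1 ≤ cap.len) :
    tsT p (lvT q) (T.cons cap (strT x)) = bit (isZ (red q.2 (feat p x q.1))) := by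
  show isZT (redT p (basT q.2) (featT p cap (unary q.1) (strT x))) = _
  rw [feat_eqT cap x q.1 h]
  unfold basT
  rw [red_eqT, isZ_eqT]

/-! ### passing all the levels -/

noncomputable def pasS (p : ℕ) [Fact p.Prime] (z : T) : T :=
  if tsT p z.hd z.tl.tl = T.nil then T.nil else z.tl.hd

theorem pasS_mk (e a c : T) : pasS p (T.cons e (T.cons a c)) =
    if tsT p e c = T.nil then T.nil else a := rfl

noncomputable def pasT (p : ℕ) [Fact p.Prime] (cap H x : T) : T :=
  foldT (pasS p) (T.cons cap x) H tt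

theorem pas_pt {u v w : T → T} (hu : PT u) (hv : PT v) (hw : PT w) :
    PT fun x => pasT p (u x) (v x) (w x) := by
  refine PT.fold (g := pasS p) ?_ (Grw.of_lin 0 fun e a c => ?_) hv (PT.const _) (hu.cons hw)
  · exact (ts_pt PT.hd0 PT.tl0.tl).ite PT.tl0.hd PT.nil
  · rw [pasS_mk]
    have h := a.one_le_size
    split_ifs
    · rw [size_nil]
      omega
    · omega

theorem pas_stop (c l : T) : foldT (pasS p) c l T.nil = T.nil := by
  induction l with
  | nil => rfl
  | cons e l _ ih =>
    rw [foldT_cons, pasS_mk, ite_self]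
    exact ih

theorem pas_eqT (cap : T) (H : List (ℕ × List (List (ZMod p)))) (x : List Bool)
    (h : ∀ q ∈ H, (x.length + 1) ^ q.1 ≤ cap.len) :
    pasT p cap (hypT H) (strT x) = bit (pas H x) := by
  unfold pasT
  induction H with
  | nil => rfl
  | cons q H ih =>
    show foldT (pasS p) (T.cons cap (strT x)) (hypT H)
      (pasS p (T.cons (lvT q) (T.cons tt (T.cons cap (strT x))))) =
      bit (isZ (red q.2 (feat p x q.1)) && pas H x)
    rw [pasS_mk, ts_eq cap q x (h q List.mem_cons_self)]
    by_cases h1 : isZ (red q.2 (feat p x q.1)) = true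
    · rw [h1, if_neg (show bit true ≠ T.nil from tt_ne), Bool.true_and]
      exact ih fun q hq => h q (List.mem_cons_of_mem _ hq)
    · rw [Bool.not_eq_true] at h1
      rw [h1, if_pos (bit_nil.2 rfl), Bool.false_and]
      exact pas_stop _ _

/-! ### the prediction of one trial -/

noncomputable def evlS (p : ℕ) [Fact p.Prime] (z : T) : T :=
  if z.tl.hd.hd = T.nil then
    (if tsT p z.hd z.tl.tl = T.nil then T.cons tt z.tl.hd.tl else T.cons T.nil (notT z.tl.hd.tl))
  else z.tl.hd

theorem evlS_mk (e a c : T) : evlS p (T.cons e (T.cons a c)) =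
    if a.hd = T.nil then
      (if tsT p e c = T.nil then T.cons tt a.tl else T.cons T.nil (notT a.tl))
    else a := rfl

noncomputable def evlT (p : ℕ) [Fact p.Prime] (cap H x : T) : T :=
  (foldT (evlS p) (T.cons cap x) H (T.cons T.nil tt)).tl

theorem evl_pt {u v w : T → T} (hu : PT u) (hv : PT v) (hw : PT w) :
    PT fun x => evlT p (u x) (v x) (w x) := by
  refine PT.tl (PT.fold (g := evlS p) ?_ (Grw.of_lin 3 fun e a c => ?_) hv (PT.const _)
    (hu.cons hw))
  · exact PT.tl0.hd.hd.ite PT.tl0.hd ((ts_pt PT.hd0 PT.tl0.tl).ite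
      (PT.nil.cons (not_pt PT.tl0.hd.tl)) ((PT.const tt).cons PT.tl0.hd.tl))
  · rw [evlS_mk]
    have h1 := a.tl_size
    have h2 := e.one_le_size
    have h3 := c.one_le_size
    have h4 := notT_size a.tl
    have h5 : tt.size = 3 := rfl
    split_ifs
    · rw [size_cons]
      omega
    · rw [size_cons, size_nil]
      omega
    · omega

theorem evl_stop (c l b : T) : foldT (evlS p) c l (T.cons tt b) = T.cons tt b := by
  induction l with
  | nil => rfl
  | cons e l _ ih =>
    rw [foldT_cons, evlS_mk, hd_cons, if_neg tt_ne]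
    exact ih

theorem evl_lst (cap : T) (H : List (ℕ × List (List (ZMod p)))) (b : Bool) (x : List Bool)
    (h : ∀ q ∈ H, (x.length + 1) ^ q.1 ≤ cap.len) :
    (foldT (evlS p) (T.cons cap (strT x)) (hypT H) (T.cons T.nil (bit b))).tl =
      bit (evl H b x) := by
  induction H generalizing b with
  | nil => rfl
  | cons q H ih =>
    show (foldT (evlS p) (T.cons cap (strT x)) (hypT H)
      (evlS p (T.cons (lvT q) (T.cons (T.cons T.nil (bit b)) (T.cons cap (strT x)))))).tl =
      bit (if isZ (red q.2 (feat p x q.1)) then evl H (!b) x else b)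
    rw [evlS_mk, hd_cons, if_pos rfl, tl_cons, ts_eq cap q x (h q List.mem_cons_self)]
    by_cases h1 : isZ (red q.2 (feat p x q.1)) = true
    · rw [h1, if_neg (show bit true ≠ T.nil from tt_ne), if_pos rfl, notT_bit]
      exact ih (!b) fun q hq => h q (List.mem_cons_of_mem _ hq)
    · rw [if_neg h1]
      rw [Bool.not_eq_true] at h1
      rw [h1, if_pos (bit_nil.2 rfl), evl_stop]
      rfl

theorem evl_eqT (cap : T) (H : List (ℕ × List (List (ZMod p)))) (x : List Bool)
    (h : ∀ q ∈ H, (x.length + 1) ^ q.1 ≤ cap.len) :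
    evlT p cap (hypT H) (strT x) = bit (evl H true x) :=
  evl_lst cap H true x h

/-! ### the basis of a batch -/

/-- the vector; `x` is the point, `B` the basis, `c = (cap, (H, (D, b)))` -/
noncomputable def rvT (p : ℕ) [Fact p.Prime] (x B c : T) : T :=
  redT p B (featT p c.hd c.tl.tl.hd x)

theorem rv_pt {u v w : T → T} (hu : PT u) (hv : PT v) (hw : PT w) :
    PT fun x => rvT p (u x) (v x) (w x) :=
  red_pt hv (feat_pt hw.hd hw.tl.tl.hd hu)

theorem rvT_size (p : ℕ) [Fact p.Prime] : ∃ C : ℕ, ∀ x B c : T,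
    (rvT p x B c).size ≤ C * c.size := by
  obtain ⟨C, hC⟩ := red_size p
  obtain ⟨K, hK⟩ := feat_size p
  refine ⟨C * K, fun x B c => (hC _ _).trans ?_⟩
  rw [mul_assoc]
  exact Nat.mul_le_mul_left _ ((hK _ _ _).trans (Nat.mul_le_mul_left _ c.hd_size))

noncomputable def bsS (p : ℕ) [Fact p.Prime] (z : T) : T :=
  if pasT p z.tl.tl.hd z.tl.tl.tl.hd z.hd.hd = T.nil then z.tl.hd
  else if eqT z.hd.tl z.tl.tl.tl.tl.tl = T.nil then
    (if isZT (rvT p z.hd.hd z.tl.hd z.tl.tl) = T.nil then
      snocT z.tl.hd (rvT p z.hd.hd z.tl.hd z.tl.tl) else z.tl.hd)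
  else z.tl.hd

theorem bsS_mk (e a c : T) : bsS p (T.cons e (T.cons a c)) =
    if pasT p c.hd c.tl.hd e.hd = T.nil then a
    else if eqT e.tl c.tl.tl.tl = T.nil then
      (if isZT (rvT p e.hd a c) = T.nil then snocT a (rvT p e.hd a c) else a)
    else a := rfl

noncomputable def bsT (p : ℕ) [Fact p.Prime] (c S : T) : T := foldT (bsS p) c S T.nil

theorem bs_pt {u v : T → T} (hu : PT u) (hv : PT v) : PT fun x => bsT p (u x) (v x) := by
  obtain ⟨C, hC⟩ := rvT_size p
  have hr : PT fun z : T => rvT p z.hd.hd z.tl.hd z.tl.tl := rv_pt PT.hd0.hd PT.tl0.hd PT.tl0.tl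
  refine PT.fold (g := bsS p) ?_ (Grw.of_lin (C + 1) fun e a c => ?_) hv PT.nil hu
  · exact (pas_pt PT.tl0.tl.hd PT.tl0.tl.tl.hd PT.hd0.hd).ite
      ((eq_pt PT.hd0.tl PT.tl0.tl.tl.tl.tl).ite PT.tl0.hd
        ((isZ_pt hr).ite PT.tl0.hd (snoc_pt PT.tl0.hd hr))) PT.tl0.hd
  · rw [bsS_mk]
    have h1 := hC e.hd a c
    have h2 := snoc_size a (rvT p e.hd a c)
    have h3 := c.one_le_size
    have h4 : (C + 1) * (e.size + c.size) = C * c.size + C * e.size + (e.size + c.size) := by ring
    rw [h4]
    split_ifs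
    · omega
    · omega
    · omega
    · omega

theorem bs_lst (cap : T) (H : List (ℕ × List (List (ZMod p)))) (D n : ℕ) (b : Bool)
    (hH : ∀ q ∈ H, (n + 1) ^ q.1 ≤ cap.len) (hD : (n + 1) ^ D ≤ cap.len)
    (S : List (List Bool × Bool)) (hS : ∀ a ∈ S, a.1.length = n) (B : List (List (ZMod p))) :
    foldT (bsS p) (T.cons cap (T.cons (hypT H) (T.cons (unary D) (bit b)))) (exT S) (basT B) =
      basT ((S.filter fun a => pas H a.1).foldl (fun B a => if a.2 = b then B
        else if isZ (red B (feat p a.1 D)) then B else B ++ [red B (feat p a.1 D)]) B) := by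
  induction S generalizing B with
  | nil => rfl
  | cons a S ih =>
    have hn : a.1.length = n := hS a List.mem_cons_self
    have hS' : ∀ a ∈ S, a.1.length = n := fun a ha => hS a (List.mem_cons_of_mem _ ha)
    show foldT (bsS p) (T.cons cap (T.cons (hypT H) (T.cons (unary D) (bit b)))) (exT S)
      (bsS p (T.cons (T.cons (strT a.1) (bit a.2)) (T.cons (basT B)
        (T.cons cap (T.cons (hypT H) (T.cons (unary D) (bit b))))))) = _
    have h1 : pasT p cap (hypT H) (strT a.1) = bit (pas H a.1) :=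
      pas_eqT cap H a.1 (by rw [hn]; exact hH)
    have h2 : rvT p (strT a.1) (basT B)
        (T.cons cap (T.cons (hypT H) (T.cons (unary D) (bit b)))) =
        vecT (red B (feat p a.1 D)) := by
      show redT p (basT B) (featT p cap (unary D) (strT a.1)) = _
      rw [feat_eqT cap a.1 D (by rw [hn]; exact hD)]
      exact red_eqT B _
    rw [bsS_mk, hd_cons, hd_cons, tl_cons, hd_cons, tl_cons, tl_cons, tl_cons, h1, h2, isZ_eqT,
      eqT_bit]
    by_cases hp : pas H a.1 = true
    · rw [hp, if_neg (show bit true ≠ T.nil from tt_ne),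
        List.filter_cons_of_pos (p := fun a : List Bool × Bool => pas H a.1) hp, List.foldl_cons]
      by_cases hb : a.2 = b
      · rw [decide_eq_true hb, if_neg (show bit true ≠ T.nil from tt_ne), if_pos hb]
        exact ih hS' B
      · rw [decide_eq_false hb, if_pos (bit_nil.2 rfl), if_neg hb]
        by_cases hz : isZ (red B (feat p a.1 D)) = true
        · rw [hz, if_neg (show bit true ≠ T.nil from tt_ne), if_pos rfl]
          exact ih hS' B
        · rw [if_neg hz]
          rw [Bool.not_eq_true] at hz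
          rw [hz, if_pos (bit_nil.2 rfl)]
          have h3 : snocT (basT B) (vecT (red B (feat p a.1 D))) =
              basT (B ++ [red B (feat p a.1 D)]) := by
            unfold basT
            rw [snoc_eq, List.map_append]
            rfl
          rw [h3]
          exact ih hS' _
    · rw [List.filter_cons_of_neg (p := fun a : List Bool × Bool => pas H a.1) hp]
      rw [Bool.not_eq_true] at hp
      rw [hp, if_pos (bit_nil.2 rfl)]
      exact ih hS' B

theorem bs_eqT (cap : T) (H : List (ℕ × List (List (ZMod p)))) (D n : ℕ) (b : Bool)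
    (hH : ∀ q ∈ H, (n + 1) ^ q.1 ≤ cap.len) (hD : (n + 1) ^ D ≤ cap.len)
    (S : List (List Bool × Bool)) (hS : ∀ a ∈ S, a.1.length = n) :
    bsT p (T.cons cap (T.cons (hypT H) (T.cons (unary D) (bit b)))) (exT S) =
      basT (bas p D b (S.filter fun a => pas H a.1)) :=
  bs_lst cap H D n b hH hD S hS []

/-! ### one trial -/

/-- one stage; the state is `s = (H, (b, rest))` and the parameter is `c = (l + 2, cap)` -/
noncomputable def stgT (p : ℕ) [Fact p.Prime] (a e : ℕ) (c s : T) : T :=
  T.cons (snocT s.hd (T.cons (powT c.hd a)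
    (bsT p (T.cons c.tl (T.cons s.hd (T.cons (powT c.hd a) s.tl.hd)))
      (takT (dblT c.tl (powT c.hd e)) s.tl.tl))))
    (T.cons (notT s.tl.hd) (drpT (dblT c.tl (powT c.hd e)) s.tl.tl))

theorem stg_pt (a e : ℕ) {u v : T → T} (hu : PT u) (hv : PT v) :
    PT fun x => stgT p a e (u x) (v x) := by
  have hn := dbl_pt hu.tl (pow_pt hu.hd e)
  exact (snoc_pt hv.hd ((pow_pt hu.hd a).cons
    (bs_pt (hu.tl.cons (hv.hd.cons ((pow_pt hu.hd a).cons hv.tl.hd))) (tak_pt hn hv.tl.tl)))).cons
    ((not_pt hv.tl.hd).cons (drp_pt hn hv.tl.tl))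

/-- one trial -/
noncomputable def triT (p : ℕ) [Fact p.Prime] : List (ℕ × ℕ) → T → T → T
  | [], _, s => s.hd
  | q :: ps, c, s => triT p ps c (stgT p q.1 q.2 c s)

theorem tri_pt : ∀ (ps : List (ℕ × ℕ)) {u v : T → T}, PT u → PT v →
    PT fun x => triT p ps (u x) (v x)
  | [], _, _, _, hv => hv.hd
  | q :: ps, _, _, hu, hv => tri_pt ps hu (stg_pt q.1 q.2 hu hv)

/-- the parameters -/
def prm (l : ℕ) (q : ℕ × ℕ) : ℕ × ℕ := ((l + 2) ^ q.1, 2 ^ (l + 2) ^ q.2)

omit [Fact p.Prime] in
theorem tri_deg {P : ℕ → Prop} (ps : List (ℕ × ℕ)) (H : List (ℕ × List (List (ZMod p)))) (b : Bool)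
    (S : List (List Bool × Bool)) (hps : ∀ q ∈ ps, P q.1) (hH : ∀ q ∈ H, P q.1) :
    ∀ q ∈ tri ps H b S, P q.1 := by
  induction ps generalizing H b S with
  | nil => exact hH
  | cons r ps ih =>
    refine ih _ _ _ (fun q hq => hps q (List.mem_cons_of_mem _ hq)) fun q hq => ?_
    rcases List.mem_append.1 hq with h | h
    · exact hH q h
    · rw [List.mem_singleton] at h
      rw [h]
      exact hps r List.mem_cons_self

theorem ex_drop (k : ℕ) (S : List (List Bool × Bool)) :
    drpT (unary k) (exT S) = exT (S.drop k) := by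
  unfold exT
  rw [drp_eq, List.map_drop]

theorem ex_take (k : ℕ) (S : List (List Bool × Bool)) :
    takT (unary k) (exT S) = exT (S.take k) := by
  unfold exT
  rw [tak_eq, List.map_take]

theorem tri_eq (l n : ℕ) (C : List T) (ps : List (ℕ × ℕ)) (hp : ∀ q ∈ ps,
    (n + 1) ^ (l + 2) ^ q.1 ≤ C.length ∧ 2 ^ (l + 2) ^ q.2 ≤ C.length)
    (H : List (ℕ × List (List (ZMod p)))) (hH : ∀ q ∈ H, (n + 1) ^ q.1 ≤ C.length) (b : Bool)
    (S : List (List Bool × Bool)) (hS : ∀ a ∈ S, a.1.length = n) :
    triT p ps (T.cons (unary (l + 2)) (lst C)) (T.cons (hypT H) (T.cons (bit b) (exT S))) =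
      hypT (tri (ps.map (prm l)) H b S) := by
  induction ps generalizing H b S with
  | nil => rfl
  | cons q ps ih =>
    have h0 := hp q List.mem_cons_self
    have h1 : stgT p q.1 q.2 (T.cons (unary (l + 2)) (lst C))
        (T.cons (hypT H) (T.cons (bit b) (exT S))) =
        T.cons (hypT (H ++ [((prm l q).1, bas p (prm l q).1 b
          ((S.take (prm l q).2).filter fun a => pas H a.1))]))
        (T.cons (bit (!b)) (exT (S.drop (prm l q).2))) := by
      unfold stgT
      rw [hd_cons, tl_cons, hd_cons, tl_cons, hd_cons, tl_cons, pow_eq, pow_eq,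
        dbl_eq C _ h0.2, ex_take, ex_drop, notT_bit]
      have h2 := bs_eqT (p := p) (lst C) H ((l + 2) ^ q.1) n b
        (by rw [len_lst]; exact hH) (by rw [len_lst]; exact h0.1) (S.take (2 ^ (l + 2) ^ q.2))
        (fun a ha => hS a (List.mem_of_mem_take ha))
      rw [h2]
      have h3 : snocT (hypT H) (T.cons (unary ((l + 2) ^ q.1)) (basT (bas p ((l + 2) ^ q.1) b
          ((S.take (2 ^ (l + 2) ^ q.2)).filter fun a => pas H a.1)))) =
          hypT (H ++ [((l + 2) ^ q.1, bas p ((l + 2) ^ q.1) b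
            ((S.take (2 ^ (l + 2) ^ q.2)).filter fun a => pas H a.1))]) := by
        unfold hypT
        rw [snoc_eq, List.map_append]
        rfl
      rw [h3]
      rfl
    show triT p ps (T.cons (unary (l + 2)) (lst C)) (stgT p q.1 q.2
      (T.cons (unary (l + 2)) (lst C)) (T.cons (hypT H) (T.cons (bit b) (exT S)))) = _
    rw [h1, ih (fun q hq => hp q (List.mem_cons_of_mem _ hq)) _ ?_ _ _
      (fun a ha => hS a (List.mem_of_mem_drop ha))]
    · rfl
    · intro q' hq'
      rcases List.mem_append.1 hq' with h | h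
      · exact hH q' h
      · rw [List.mem_singleton] at h
        rw [h]
        exact h0.1

end Tw
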