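import Pool.Agent.Lib.MP_9abc2e_lc.TW.PrB

/-!
# TW: the programs, part C: all the trials, the majority vote
-/

set_option autoImplicit false

namespace Tw

open Few

variable {p : ℕ} [Fact p.Prime]

theorem addT_size : ∀ u v : T, (addT u v).size + 1 ≤ u.size + v.size
  | T.nil, v => by
      show v.size + 1 ≤ 1 + v.size
      omega
  | T.cons e u, v => by
      have h1 := addT_size u (T.cons T.nil v)
      have h2 := e.one_le_size
      rw [size_cons, size_nil] at h1
      rw [size_cons]
      show (addT u (T.cons T.nil v)).size + 1 ≤ _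
      omega

theorem addT_unary (j k : ℕ) : addT (unary j) (unary k) = unary (j + k) := by
  have := add_eq (List.replicate j T.nil) k
  rw [List.length_replicate] at this
  exact this

/-- the number of examples of one trial; `c = (l + 2, cap)` -/
def totT : List (ℕ × ℕ) → T → T
  | [], _ => T.nil
  | q :: ps, c => addT (dblT c.tl (powT c.hd q.2)) (totT ps c)

theorem tot_pt : ∀ (ps : List (ℕ × ℕ)) {u : T → T}, PT u → PT fun x => totT ps (u x)
  | [], _, _ => PT.nil
  | q :: ps, _, hu => add_pt (dbl_pt hu.tl (pow_pt hu.hd q.2)) (tot_pt ps hu)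

theorem tot_eq (l : ℕ) (C : List T) (ps : List (ℕ × ℕ))
    (hp : ∀ q ∈ ps, 2 ^ (l + 2) ^ q.2 ≤ C.length) :
    totT ps (T.cons (unary (l + 2)) (lst C)) = unary (tot (ps.map (prm l))) := by
  induction ps with
  | nil => rfl
  | cons q ps ih =>
    show addT (dblT (lst C) (powT (unary (l + 2)) q.2)) (totT ps _) = _
    rw [ih fun q hq => hp q (List.mem_cons_of_mem _ hq), pow_eq,
      dbl_eq C _ (hp q List.mem_cons_self), addT_unary]
    rfl

/-- one trial; the accumulator is `a = (offset, output)` and the parameter is `c = (l + 2, cap)` -/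
noncomputable def trsS (p : ℕ) [Fact p.Prime] (ps : List (ℕ × ℕ)) (z : T) : T :=
  if drpT (totT ps z.tl.tl) (T.cons T.nil (drpT z.tl.hd.hd z.tl.tl.tl)) = T.nil then z.tl.hd
  else T.cons (addT (totT ps z.tl.tl) z.tl.hd.hd)
    (T.cons (triT p ps z.tl.tl (T.cons T.nil (T.cons tt (drpT z.tl.hd.hd z.tl.tl.tl)))) z.tl.hd.tl)

theorem trsS_mk (ps : List (ℕ × ℕ)) (e a c : T) : trsS p ps (T.cons e (T.cons a c)) =
    if drpT (totT ps c) (T.cons T.nil (drpT a.hd c.tl)) = T.nil then a
    else T.cons (addT (totT ps c) a.hd)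
      (T.cons (triT p ps c (T.cons T.nil (T.cons tt (drpT a.hd c.tl)))) a.tl) := rfl

theorem trsS_pt (ps : List (ℕ × ℕ)) : PT (trsS p ps) := by
  have h1 : PT fun z : T => drpT z.tl.hd.hd z.tl.tl.tl := drp_pt PT.tl0.hd.hd PT.tl0.tl.tl
  have h2 : PT fun z : T => totT ps z.tl.tl := tot_pt ps PT.tl0.tl
  exact (drp_pt h2 (PT.nil.cons h1)).ite ((add_pt h2 PT.tl0.hd.hd).cons
    ((tri_pt ps PT.tl0.tl (PT.nil.cons ((PT.const tt).cons h1))).cons PT.tl0.hd.tl)) PT.tl0.hd

theorem trsS_grw (ps : List (ℕ × ℕ)) : Grw (trsS p ps) := by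
  obtain ⟨k, hk⟩ := (tot_pt ps PT.id).size
  have h0 : PT fun x : T => triT p ps x.hd (T.cons T.nil (T.cons tt x.tl)) :=
    tri_pt ps PT.hd0 (PT.nil.cons ((PT.const tt).cons PT.tl0))
  obtain ⟨j, hj⟩ := h0.size
  refine ⟨4 + 2 ^ j, max k j, fun e a c => ?_⟩
  rw [trsS_mk]
  have he := e.one_le_size
  have hc := c.one_le_size
  have h1 := hk c
  have h2 := hj (T.cons c (drpT a.hd c.tl))
  rw [hd_cons, tl_cons, size_cons] at h2
  have h3 := (drp_size a.hd c.tl).trans c.tl_size
  have h4 := addT_size (totT ps c) a.hd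
  have h5 := hd_tl_size a
  have h6 : (c.size + 1) ^ k ≤ (e.size + c.size) ^ max k j :=
    (Nat.pow_le_pow_left (by omega) k).trans
      (Nat.pow_le_pow_right (by omega) (le_max_left _ _))
  have h7 : (c.size + (drpT a.hd c.tl).size + 1 + 1) ^ j ≤
      2 ^ j * (e.size + c.size) ^ max k j := by
    calc (c.size + (drpT a.hd c.tl).size + 1 + 1) ^ j
        ≤ (2 * (e.size + c.size)) ^ j := Nat.pow_le_pow_left (by omega) j
      _ = 2 ^ j * (e.size + c.size) ^ j := mul_pow _ _ _
      _ ≤ _ := Nat.mul_le_mul_left _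
        (Nat.pow_le_pow_right (by omega) (le_max_right _ _))
  have h8 : 1 ≤ (e.size + c.size) ^ max k j := Nat.one_le_pow _ _ (by omega)
  have h9 : (4 + 2 ^ j) * (e.size + c.size) ^ max k j =
      4 * (e.size + c.size) ^ max k j + 2 ^ j * (e.size + c.size) ^ max k j := by ring
  rw [h9]
  split_ifs
  · omega
  · rw [size_cons, size_cons]
    omega

/-- all the trials, in reversed order; `c = (l + 2, cap)` -/
noncomputable def trsT (p : ℕ) [Fact p.Prime] (ps : List (ℕ × ℕ)) (c : T) : T :=
  (foldT (trsS p ps) c c.tl (T.cons T.nil T.nil)).tl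

theorem trs_pt (ps : List (ℕ × ℕ)) {u : T → T} (hu : PT u) : PT fun x => trsT p ps (u x) :=
  (PT.fold (trsS_pt ps) (trsS_grw ps) hu.tl (PT.const _) hu).tl

theorem trs_lst (l n : ℕ) (S : List (List Bool × Bool)) (hS : ∀ a ∈ S, a.1.length = n)
    (ps : List (ℕ × ℕ)) (hp : ∀ q ∈ ps,
      (n + 1) ^ (l + 2) ^ q.1 ≤ S.length ∧ 2 ^ (l + 2) ^ q.2 ≤ S.length)
    (ht : 1 ≤ tot (ps.map (prm l))) (w : List T) (off : ℕ) (o : List T) :
    (foldT (trsS p ps) (T.cons (unary (l + 2)) (exT S)) (lst w) (T.cons (unary off) (lst o))).tl =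
      lst (((trs p (ps.map (prm l)) (min w.length ((S.length - off) / tot (ps.map (prm l))))
        (S.drop off)).map hypT).reverse ++ o) := by
  induction w generalizing off o with
  | nil =>
    rw [List.length_nil, Nat.zero_min]
    rfl
  | cons e w ih =>
    set t := tot (ps.map (prm l)) with ht'
    show (foldT (trsS p ps) (T.cons (unary (l + 2)) (exT S)) (lst w)
      (trsS p ps (T.cons e (T.cons (T.cons (unary off) (lst o))
        (T.cons (unary (l + 2)) (exT S)))))).tl = _
    have h1 : totT ps (T.cons (unary (l + 2)) (exT S)) = unary t := by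
      unfold exT
      exact tot_eq l _ ps fun q hq => by rw [List.length_map]; exact (hp q hq).2
    have h2 : drpT (unary off) (exT S) = exT (S.drop off) := ex_drop off S
    have h3 : drpT (unary t) (T.cons T.nil (exT (S.drop off))) = T.nil ↔ S.length - off < t := by
      have h4 : T.cons T.nil (exT (S.drop off)) =
        lst (T.nil :: (S.drop off).map fun a => T.cons (strT a.1) (bit a.2)) := rfl
      rw [h4, drp_eq, lst_eq_nil, List.drop_eq_nil_iff, List.length_cons, List.length_map,
        List.length_drop]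
      omega
    rw [trsS_mk, hd_cons, tl_cons, tl_cons, h1, h2, List.length_cons]
    by_cases h5 : S.length - off < t
    · rw [if_pos (h3.2 h5), ih off o, Nat.div_eq_of_lt h5, Nat.min_zero, Nat.min_zero]
    · rw [if_neg fun h => h5 (h3.1 h), addT_unary]
      have h6 : triT p ps (T.cons (unary (l + 2)) (exT S))
          (T.cons T.nil (T.cons tt (exT (S.drop off)))) =
          hypT (p := p) (tri (ps.map (prm l)) [] true (S.drop off)) := by
        have h7 := tri_eq (p := p) l n (S.map fun a => T.cons (strT a.1) (bit a.2)) ps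
          (fun q hq => by rw [List.length_map]; exact hp q hq) []
          (fun q hq => absurd hq List.not_mem_nil) true (S.drop off)
          (fun a ha => hS a (List.mem_of_mem_drop ha))
        exact h7
      rw [h6]
      have h8 := ih (t + off) (hypT (p := p) (tri (ps.map (prm l)) [] true (S.drop off)) :: o)
      have h9 : (S.length - off) / t = (S.length - (t + off)) / t + 1 := by
        have h10 : S.length - off = (S.length - (t + off)) + t := by omega
        rw [h10, Nat.add_div_right _ ht]
      rw [h9, Nat.add_min_add_right]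
      have h11 : trs p (ps.map (prm l)) (min w.length ((S.length - (t + off)) / t) + 1)
          (S.drop off) = tri (ps.map (prm l)) [] true (S.drop off) ::
          trs p (ps.map (prm l)) (min w.length ((S.length - (t + off)) / t))
            (S.drop (t + off)) := by
        show tri (ps.map (prm l)) [] true (S.drop off) :: trs p (ps.map (prm l))
          (min w.length ((S.length - (t + off)) / t)) ((S.drop off).drop t) = _
        rw [List.drop_drop, add_comm off t]
      rw [h11, List.map_cons, List.reverse_cons, List.append_assoc]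
      exact h8

theorem trs_eqT (l n : ℕ) (S : List (List Bool × Bool)) (hS : ∀ a ∈ S, a.1.length = n)
    (ps : List (ℕ × ℕ)) (hp : ∀ q ∈ ps,
      (n + 1) ^ (l + 2) ^ q.1 ≤ S.length ∧ 2 ^ (l + 2) ^ q.2 ≤ S.length)
    (ht : 1 ≤ tot (ps.map (prm l))) :
    trsT p ps (T.cons (unary (l + 2)) (exT S)) =
      lst ((trs p (ps.map (prm l)) (S.length / tot (ps.map (prm l))) S).reverse.map hypT) := by
  have h := trs_lst (p := p) l n S hS ps hp ht (S.map fun a => T.cons (strT a.1) (bit a.2)) 0 []
  rw [List.length_map, Nat.sub_zero, List.drop_zero, List.append_nil,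
    min_eq_right (Nat.div_le_self _ _)] at h
  rw [List.map_reverse]
  exact h

/-! ### the majority vote -/

/-- one vote; the accumulator is `a = (yes, no)` and the parameter is `c = (cap, x)` -/
noncomputable def mjS (p : ℕ) [Fact p.Prime] (z : T) : T :=
  if evlT p z.tl.tl.hd z.hd z.tl.tl.tl = T.nil then T.cons z.tl.hd.hd (T.cons T.nil z.tl.hd.tl)
  else T.cons (T.cons T.nil z.tl.hd.hd) z.tl.hd.tl

theorem mjS_mk (e a c : T) : mjS p (T.cons e (T.cons a c)) =
    if evlT p c.hd e c.tl = T.nil then T.cons a.hd (T.cons T.nil a.tl)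
    else T.cons (T.cons T.nil a.hd) a.tl := rfl

/-- comparison of the numbers of the votes -/
def cmT (s : T) : T := if drpT s.tl s.hd = T.nil then T.nil else tt

noncomputable def mjT (p : ℕ) [Fact p.Prime] (cap Hs x : T) : T :=
  cmT (foldT (mjS p) (T.cons cap x) Hs (T.cons T.nil T.nil))

theorem mj_pt {u v w : T → T} (hu : PT u) (hv : PT v) (hw : PT w) :
    PT fun x => mjT p (u x) (v x) (w x) := by
  have h : PT fun x => foldT (mjS p) (T.cons (u x) (w x)) (v x) (T.cons T.nil T.nil) := by
    refine PT.fold (g := mjS p) ?_ (Grw.of_lin 4 fun e a c => ?_) hv (PT.const _) (hu.cons hw)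
    · exact (evl_pt PT.tl0.tl.hd PT.hd0 PT.tl0.tl.tl).ite
        ((PT.nil.cons PT.tl0.hd.hd).cons PT.tl0.hd.tl) (PT.tl0.hd.hd.cons (PT.nil.cons PT.tl0.hd.tl))
    · rw [mjS_mk]
      have h1 := hd_tl_size a
      have h2 := e.one_le_size
      have h3 := c.one_le_size
      split_ifs
      · rw [size_cons, size_cons, size_nil]
        omega
      · rw [size_cons, size_cons, size_nil]
        omega
  exact (drp_pt h.tl h.hd).ite (PT.const tt) PT.nil

theorem mj_lst (cap : T) (x : List Bool) (Hs : List (List (ℕ × List (List (ZMod p)))))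
    (h : ∀ H ∈ Hs, ∀ q ∈ H, (x.length + 1) ^ q.1 ≤ cap.len) (i j : ℕ) :
    foldT (mjS p) (T.cons cap (strT x)) (lst (Hs.map hypT)) (T.cons (unary i) (unary j)) =
      T.cons (unary (i + Hs.countP fun H => evl H true x))
        (unary (j + (Hs.length - Hs.countP fun H => evl H true x))) := by
  induction Hs generalizing i j with
  | nil => rfl
  | cons H Hs ih =>
    have hc : (Hs.countP fun H => evl H true x) ≤ Hs.length := List.countP_le_length
    have h' : ∀ H ∈ Hs, ∀ q ∈ H, (x.length + 1) ^ q.1 ≤ cap.len :=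
      fun H hH => h H (List.mem_cons_of_mem _ hH)
    show foldT (mjS p) (T.cons cap (strT x)) (lst (Hs.map hypT))
      (mjS p (T.cons (hypT H) (T.cons (T.cons (unary i) (unary j)) (T.cons cap (strT x))))) = _
    rw [mjS_mk, hd_cons, hd_cons, tl_cons, tl_cons,
      evl_eqT cap H x (h H List.mem_cons_self), List.length_cons]
    by_cases h1 : evl H true x = true
    · rw [h1, if_neg (show bit true ≠ T.nil from tt_ne),
        List.countP_cons_of_pos (p := fun H => evl H true x) h1]
      have h2 := ih h' (i + 1) j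
      have h3 : i + 1 + (Hs.countP fun H => evl H true x) =
        i + ((Hs.countP fun H => evl H true x) + 1) := by ring
      have h4 : Hs.length - (Hs.countP fun H => evl H true x) =
        Hs.length + 1 - ((Hs.countP fun H => evl H true x) + 1) := by omega
      rw [h3, h4] at h2
      exact h2
    · rw [List.countP_cons_of_neg (p := fun H => evl H true x) h1]
      rw [Bool.not_eq_true] at h1
      rw [h1, if_pos (bit_nil.2 rfl)]
      have h2 := ih h' i (j + 1)
      have h4 : j + 1 + (Hs.length - (Hs.countP fun H => evl H true x)) =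
        j + (Hs.length + 1 - (Hs.countP fun H => evl H true x)) := by omega
      rw [h4] at h2
      exact h2

omit [Fact p.Prime] in
theorem maj_rev (Hs : List (List (ℕ × List (List (ZMod p))))) (x : List Bool) :
    maj Hs.reverse x = maj Hs x := by
  unfold maj
  rw [List.length_reverse, List.countP_reverse]

theorem mj_eqT (cap : T) (x : List Bool) (Hs : List (List (ℕ × List (List (ZMod p)))))
    (h : ∀ H ∈ Hs, ∀ q ∈ H, (x.length + 1) ^ q.1 ≤ cap.len) :
    mjT p cap (lst (Hs.map hypT)) (strT x) = bit (maj Hs x) := by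
  have h1 := mj_lst cap x Hs h 0 0
  have h0 : T.cons (unary 0) (unary 0) = T.cons T.nil T.nil := rfl
  rw [h0, Nat.zero_add, Nat.zero_add] at h1
  have hc : (Hs.countP fun H => evl H true x) ≤ Hs.length := List.countP_le_length
  unfold mjT
  rw [h1]
  unfold cmT maj
  rw [hd_cons, tl_cons]
  have h2 : ∀ i j : ℕ, drpT (unary i) (unary j) = T.nil ↔ j ≤ i := by
    intro i j
    have h3 := drp_eq i (List.replicate j T.nil)
    have h4 : drpT (unary i) (unary j) = lst ((List.replicate j T.nil).drop i) := h3
    rw [h4, lst_eq_nil, List.drop_eq_nil_iff, List.length_replicate]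
  by_cases h5 : Hs.length < 2 * Hs.countP fun H => evl H true x
  · rw [decide_eq_true h5, if_neg fun h6 => by
      have := (h2 _ _).1 h6
      omega]
    rfl
  · rw [decide_eq_false h5, if_pos ((h2 _ _).2 (by omega))]
    rfl

omit [Fact p.Prime] in
theorem trs_deg {P : ℕ → Prop} (ps : List (ℕ × ℕ)) (K : ℕ) (S : List (List Bool × Bool))
    (hps : ∀ q ∈ ps, P q.1) : ∀ H ∈ trs p ps K S, ∀ q ∈ H, P q.1 := by
  induction K generalizing S with
  | zero => intro H hH; exact absurd hH List.not_mem_nil
  | succ K ih =>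
    intro H hH
    rcases List.mem_cons.1 hH with h | h
    · rw [h]
      exact tri_deg ps [] true S hps fun q hq => absurd hq List.not_mem_nil
    · exact ih _ H h

end Tw
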