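import Pool.Agent.Lib.MP_9abc2e_lc.TW.Kill

/-!
# TW: the structure lemma
-/

set_option autoImplicit false

namespace Tw

open Few

/-- Counting a set class by class. -/
private theorem pr_classes {p n : ℕ} (G : Finset (Fin n))
    (U : Submodule (ZMod p) (Fin n → ZMod p)) (S B : Set (Cube n)) (r : ℝ)
    (hS : ∀ y ∈ S, Nd G U y ⊆ S)
    (h : ∀ y ∈ S, ((B ∩ Nd G U y).ncard : ℝ) ≤ r * (Nd G U y).ncard) :
    ((B ∩ S).ncard : ℝ) ≤ r * S.ncard := by
  classical
  have hSf : S.ncard = S.toFinset.card := by rw [Set.ncard_eq_toFinset_card']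
  have hBf : (B ∩ S).ncard = (B ∩ S).toFinset.card := by rw [Set.ncard_eq_toFinset_card']
  have h1 : (S.toFinset.card : ℝ) = ∑ b ∈ S.toFinset.image (fun y => Nd G U y),
      ((S.toFinset.filter fun y => Nd G U y = b).card : ℝ) := by
    rw [Finset.card_eq_sum_card_fiberwise (f := fun y => Nd G U y)
      (t := S.toFinset.image (fun y => Nd G U y))
      (fun y hy => Finset.mem_coe.2 (Finset.mem_image_of_mem _ hy))]
    push_cast
    rfl
  have h2 : ((B ∩ S).toFinset.card : ℝ) = ∑ b ∈ S.toFinset.image (fun y => Nd G U y),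
      (((B ∩ S).toFinset.filter fun y => Nd G U y = b).card : ℝ) := by
    rw [Finset.card_eq_sum_card_fiberwise (f := fun y => Nd G U y)
      (t := S.toFinset.image (fun y => Nd G U y))
      (fun y hy => Finset.mem_coe.2 (Finset.mem_image_of_mem _
        (Set.mem_toFinset.2 (Set.mem_toFinset.1 hy).2)))]
    push_cast
    rfl
  rw [hSf, hBf, h1, h2, Finset.mul_sum]
  refine Finset.sum_le_sum fun b hb => ?_
  obtain ⟨y, hy, rfl⟩ := Finset.mem_image.1 hb
  have hyS := Set.mem_toFinset.1 hy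
  have e0 : ∀ z : Cube n, Nd G U z = Nd G U y ↔ z ∈ Nd G U y := by
    intro z
    constructor
    · intro hz
      rw [← hz]
      exact mem_Nd_self G U z
    · intro hz
      exact Nd_eq hz
  have e1 : (S.toFinset.filter fun z => Nd G U z = Nd G U y) = (Nd G U y).toFinset := by
    ext z
    rw [Finset.mem_filter, Set.mem_toFinset, Set.mem_toFinset, e0]
    exact ⟨fun h => h.2, fun h => ⟨hS y hyS h, h⟩⟩
  have e2 : ((B ∩ S).toFinset.filter fun z => Nd G U z = Nd G U y) =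
      (B ∩ Nd G U y).toFinset := by
    ext z
    rw [Finset.mem_filter, Set.mem_toFinset, Set.mem_toFinset, e0]
    exact ⟨fun h => ⟨h.1.1, h.2⟩, fun h => ⟨⟨h.1, hS y hyS h.2⟩, h.2⟩⟩
  rw [e1, e2, ← Set.ncard_eq_toFinset_card', ← Set.ncard_eq_toFinset_card']
  exact h y hyS

/-- The process. -/
private theorem pr_claim {p : ℕ} [Fact p.Prime] {γ : ℝ} (hγ0 : 0 ≤ γ) (hγ1 : γ < 1)
    (hγ : ∀ (n th : ℕ) (F : Finset (Fin n)) (U₀ U : Submodule (ZMod p) (Fin n → ZMod p))
      (x : Cube n), U₀ ≤ U → (∀ e ∈ U, e ∉ U₀ → th ≤ wt F e) →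
      |((Nd F U x).ncard : ℝ) / 2 ^ (n - F.card) -
        (Nat.card U₀ : ℝ) / Nat.card U * (((Nd F U₀ x).ncard : ℝ) / 2 ^ (n - F.card))| ≤ γ ^ th)
    {K th w T0 : ℕ} (hw : (K + 1) * th < w)
    (hth : γ ^ th ≤ 1 / (4 * p ^ (K * T0) * 2 ^ ((p - 1) * K))) (hc1 : ck p K ≤ 1)
    {n : ℕ} {ι : Type} (φ : ι → Cube n → Bool) (hφ : ∀ i, Jun p K (φ i)) (B : Set (Cube n))
    (hB : B = {x : Cube n | (∀ i, φ i x = true) ∧ ¬ ∃ (F : Finset (Fin n))
      (U : Submodule (ZMod p) (Fin n → ZMod p)), F.card ≤ K * w * T0 ∧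
      Module.finrank (ZMod p) U ≤ K * T0 ∧ Nd F U x ⊆ {y | ∀ i, φ i y = true}}) (T : ℕ) :
    ∀ (F : Finset (Fin n)) (U : Submodule (ZMod p) (Fin n → ZMod p)), Reg w F U →
      Module.finrank (ZMod p) U + K * T ≤ K * T0 →
      F.card + w * Module.finrank (ZMod p) U + K * w * T ≤
        K * w * T0 + w * Module.finrank (ZMod p) (KF F U) →
      ∀ x, ((B ∩ Nd F U x).ncard : ℝ) ≤ (1 - ck p K) ^ T * (Nd F U x).ncard := by
  induction T with
  | zero =>
    intro F U _ _ _ x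
    rw [pow_zero, one_mul]
    exact_mod_cast Set.ncard_le_ncard Set.inter_subset_right (Set.toFinite _)
  | succ T ih =>
    intro F U hreg hdim hpsi x
    have hc0 : 0 ≤ 1 - ck p K := by linarith
    have hKF : Module.finrank (ZMod p) (KF F U) ≤ Module.finrank (ZMod p) U :=
      Submodule.finrank_mono (KF_le F U)
    by_cases hV : Nd F U x ⊆ {y | ∀ i, φ i y = true}
    · -- certificate
      have hempty : B ∩ Nd F U x = ∅ := by
        rw [Set.eq_empty_iff_forall_notMem]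
        rintro y ⟨hyB, hyN⟩
        rw [hB] at hyB
        refine hyB.2 ⟨F, U, ?_, ?_, ?_⟩
        · have h3 : w * Module.finrank (ZMod p) (KF F U) ≤ w * Module.finrank (ZMod p) U :=
            Nat.mul_le_mul_left _ hKF
          omega
        · omega
        · rw [Nd_eq hyN]
          exact hV
      rw [hempty, Set.ncard_empty]
      push_cast
      positivity
    · rw [Set.not_subset] at hV
      obtain ⟨y, hyN, hy⟩ := hV
      rw [Set.mem_setOf_eq, not_forall] at hy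
      obtain ⟨j, hj⟩ := hy
      obtain ⟨L, hL, hLφ⟩ := hφ j
      obtain ⟨U', hU'⟩ : ∃ U', U' = U ⊔ L := ⟨_, rfl⟩
      have hUU' : U ≤ U' := by rw [hU']; exact le_sup_left
      have hLU' : L ≤ U' := by rw [hU']; exact le_sup_right
      have hdim' : Module.finrank (ZMod p) U' ≤ Module.finrank (ZMod p) U + K := by
        rw [hU']
        exact (Submodule.finrank_add_le_finrank_add_finrank U L).trans (by omega)
      have hKT : K * (T + 1) = K * T + K := by ring
      have hkill := kill hγ0 hγ1 hγ hw hth hreg hUU' hdim' (by omega) y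
      rw [Nd_eq hyN] at hkill
      have hdisj : ∀ z ∈ Nd F U' y, z ∉ B := by
        intro z hz hzB
        rw [hB] at hzB
        have h1 := hzB.1 j
        have h2 : φ j z = φ j y := hLφ z y fun e he => hz.2 e (hLU' he)
        exact hj (h2.symm.trans h1)
      have hsub : Nd F U' y ⊆ Nd F U x := by
        rw [← Nd_eq hyN]
        exact Nd_anti (Finset.Subset.refl F) hUU' y
      obtain ⟨G, hFG, hGreg, hG⟩ := greedy w F U'
      have hKF2 : Module.finrank (ZMod p) (KF F U) ≤ Module.finrank (ZMod p) (KF F U') :=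
        Submodule.finrank_mono fun e he => ⟨hUU' he.1, he.2⟩
      have hpsi' : G.card + w * Module.finrank (ZMod p) U' + K * w * T ≤
          K * w * T0 + w * Module.finrank (ZMod p) (KF G U') := by
        have a1 : w * Module.finrank (ZMod p) (KF F U) ≤
          w * Module.finrank (ZMod p) (KF F U') := Nat.mul_le_mul_left _ hKF2
        have a2 : w * Module.finrank (ZMod p) U' ≤ w * (Module.finrank (ZMod p) U + K) :=
          Nat.mul_le_mul_left _ hdim'
        have a3 : w * (Module.finrank (ZMod p) U + K) =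
          w * Module.finrank (ZMod p) U + K * w := by ring
        have a4 : K * w * (T + 1) = K * w * T + K * w := by ring
        omega
      have key := pr_classes G U' (Nd F U x \ Nd F U' y) B ((1 - ck p K) ^ T) ?_ ?_
      · have hS : ((Nd F U x \ Nd F U' y).ncard : ℝ) ≤ (1 - ck p K) * (Nd F U x).ncard := by
          have h5 := Set.ncard_sdiff_add_ncard_of_subset hsub (Set.toFinite _)
          have h6 : ((Nd F U x \ Nd F U' y).ncard : ℝ) + (Nd F U' y).ncard =
              (Nd F U x).ncard := by exact_mod_cast h5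
          linarith
        have hBS : B ∩ (Nd F U x \ Nd F U' y) = B ∩ Nd F U x := by
          ext z
          constructor
          · rintro ⟨h1, h2⟩
            exact ⟨h1, h2.1⟩
          · rintro ⟨h1, h2⟩
            exact ⟨h1, h2, fun h3 => hdisj z h3 h1⟩
        rw [hBS] at key
        calc ((B ∩ Nd F U x).ncard : ℝ)
            ≤ (1 - ck p K) ^ T * ((Nd F U x \ Nd F U' y).ncard : ℝ) := key
          _ ≤ (1 - ck p K) ^ T * ((1 - ck p K) * (Nd F U x).ncard) :=
              mul_le_mul_of_nonneg_left hS (pow_nonneg hc0 T)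
          _ = (1 - ck p K) ^ (T + 1) * (Nd F U x).ncard := by rw [pow_succ]; ring
      · rintro z ⟨hz1, hz2⟩ v hv
        refine ⟨?_, fun hv2 => hz2 ?_⟩
        · rw [← Nd_eq hz1]
          exact Nd_anti hFG hUU' z hv
        · have h7 : z ∈ Nd G U' v := by
            rw [Nd_eq hv]
            exact mem_Nd_self G U' z
          rw [← Nd_eq hv2]
          exact Nd_anti hFG le_rfl v h7
      · intro z _
        exact ih G U' hGreg (by omega) hpsi' z

/-- Certificates: for a family of functions of `K` linear forms almost all the points at which all of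
them are true have a small certificate. -/
theorem cert (p : ℕ) [Fact p.Prime] (K : ℕ) : ∃ C : ℕ, ∀ (n t : ℕ) (ι : Type)
    (φ : ι → Cube n → Bool), (∀ i, Jun p K (φ i)) →
    {x : Cube n | (∀ i, φ i x = true) ∧ ¬ ∃ (F : Finset (Fin n))
      (U : Submodule (ZMod p) (Fin n → ZMod p)), F.card ≤ C * (t + 1) ^ 2 ∧
      Module.finrank (ZMod p) U ≤ C * (t + 1) ∧ Nd F U x ⊆ {y | ∀ i, φ i y = true}}.ncard * 2 ^ t ≤
    2 ^ n := by
  obtain ⟨γ, hγ0, hγ1, hγ⟩ := count p
  have hp1 : (1 : ℝ) ≤ p := by exact_mod_cast (Fact.out : p.Prime).one_le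
  obtain ⟨M, hM⟩ : ∃ M : ℝ, M = 4 * (p : ℝ) ^ K * 2 ^ ((p - 1) * K) := ⟨_, rfl⟩
  have hpK : (1 : ℝ) ≤ (p : ℝ) ^ K := one_le_pow₀ hp1
  have h2K : (1 : ℝ) ≤ 2 ^ ((p - 1) * K) := one_le_pow₀ (by norm_num)
  have hM4 : 4 ≤ M := by
    rw [hM]
    nlinarith
  have hck : ck p K = 1 / M := by rw [ck, hM]
  have hc0 : 0 < ck p K := by rw [hck]; positivity
  have hc1 : ck p K ≤ 1 := by
    rw [hck, div_le_one (by linarith)]
    linarith
  obtain ⟨C1, hC1⟩ := exists_pow_lt_of_lt_one (show (0 : ℝ) < 1 / 2 by norm_num)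
    (show 1 - ck p K < 1 by linarith)
  obtain ⟨C2, hC2⟩ := exists_pow_lt_of_lt_one (show (0 : ℝ) < 1 / M by positivity) hγ1
  refine ⟨K * ((K + 1) * C2 * (C1 + 1) + 1) * C1 + K * C1, ?_⟩
  intro n t ι φ hφ
  obtain ⟨T0, hT0⟩ : ∃ T0, T0 = C1 * (t + 1) := ⟨_, rfl⟩
  obtain ⟨th, hth⟩ : ∃ th, th = C2 * (T0 + 1) := ⟨_, rfl⟩
  obtain ⟨w, hw⟩ : ∃ w, w = (K + 1) * th + 1 := ⟨_, rfl⟩
  have h1 : (1 - ck p K) ^ T0 ≤ (1 / 2) ^ (t + 1) := by
    rw [hT0, pow_mul]
    exact pow_le_pow_left₀ (pow_nonneg (by linarith) _) hC1.le _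
  have h2 : γ ^ th ≤ 1 / (4 * p ^ (K * T0) * 2 ^ ((p - 1) * K)) := by
    have a1 : γ ^ th ≤ (1 / M) ^ (T0 + 1) := by
      rw [hth, pow_mul]
      exact pow_le_pow_left₀ (pow_nonneg hγ0 _) hC2.le _
    refine a1.trans ?_
    rw [div_pow, one_pow]
    refine one_div_le_one_div_of_le (by positivity) ?_
    rw [pow_succ]
    have a2 : (p : ℝ) ^ (K * T0) ≤ M ^ T0 := by
      rw [pow_mul]
      refine pow_le_pow_left₀ (by positivity) ?_ _
      rw [hM]
      nlinarith
    have a3 : 4 * 2 ^ ((p - 1) * K) ≤ M := by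
      rw [hM]
      nlinarith
    calc 4 * (p : ℝ) ^ (K * T0) * 2 ^ ((p - 1) * K)
        = (p : ℝ) ^ (K * T0) * (4 * 2 ^ ((p - 1) * K)) := by ring
      _ ≤ M ^ T0 * M := mul_le_mul a2 a3 (by positivity) (by positivity)
  obtain ⟨B, hB⟩ : ∃ B : Set (Cube n), B = {x : Cube n | (∀ i, φ i x = true) ∧
      ¬ ∃ (F : Finset (Fin n)) (U : Submodule (ZMod p) (Fin n → ZMod p)),
      F.card ≤ K * w * T0 ∧ Module.finrank (ZMod p) U ≤ K * T0 ∧
      Nd F U x ⊆ {y | ∀ i, φ i y = true}} := ⟨_, rfl⟩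
  have hclaim := pr_claim hγ0 hγ1 hγ (K := K) (th := th) (w := w) (T0 := T0) (by omega) h2 hc1
    φ hφ B hB T0 ∅ ⊥ (fun e he => by
      left
      rw [wt_eq_zero]
      intro i _
      rw [(Submodule.mem_bot (ZMod p)).1 he]
      rfl) (by rw [finrank_bot]; omega) (by
      rw [finrank_bot, Finset.card_empty]
      omega) (fun _ => false)
  have huniv : Nd (p := p) (∅ : Finset (Fin n)) ⊥ (fun _ => false) = Set.univ := by
    ext y
    refine ⟨fun _ => trivial, fun _ => ⟨fun i hi => absurd hi (Finset.notMem_empty i), ?_⟩⟩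
    intro e he
    rw [(Submodule.mem_bot (ZMod p)).1 he]
    simp [ev]
  rw [huniv, Set.inter_univ, Set.ncard_univ] at hclaim
  have hcard : Nat.card (Cube n) = 2 ^ n := by
    rw [Nat.card_eq_fintype_card, Fintype.card_fun, Fintype.card_bool, Fintype.card_fin]
  rw [hcard] at hclaim
  have hBle : ((B.ncard * 2 ^ t : ℕ) : ℝ) ≤ ((2 ^ n : ℕ) : ℝ) := by
    push_cast
    push_cast at hclaim
    have a4 : (B.ncard : ℝ) ≤ (1 / 2) ^ (t + 1) * 2 ^ n :=
      hclaim.trans (mul_le_mul_of_nonneg_right h1 (by positivity))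
    calc (B.ncard : ℝ) * 2 ^ t ≤ (1 / 2) ^ (t + 1) * 2 ^ n * 2 ^ t :=
          mul_le_mul_of_nonneg_right a4 (by positivity)
      _ = (1 / 2) * 2 ^ n * ((1 / 2) ^ t * 2 ^ t) := by rw [pow_succ]; ring
      _ = (1 / 2) * 2 ^ n := by rw [← mul_pow]; norm_num
      _ ≤ 2 ^ n := by
          have : (0 : ℝ) ≤ 2 ^ n := by positivity
          linarith
  have hBle' : B.ncard * 2 ^ t ≤ 2 ^ n := by exact_mod_cast hBle
  refine le_trans (Nat.mul_le_mul_right _ (Set.ncard_le_ncard ?_ (Set.toFinite _))) hBle'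
  rintro x ⟨hx1, hx2⟩
  rw [hB]
  refine ⟨hx1, ?_⟩
  rintro ⟨F, U, hF, hU, hN⟩
  refine hx2 ⟨F, U, hF.trans ?_, hU.trans ?_, hN⟩
  · have e1 : w ≤ ((K + 1) * C2 * (C1 + 1) + 1) * (t + 1) := by
      rw [hw, hth, hT0]
      have : C1 * (t + 1) + 1 ≤ (C1 + 1) * (t + 1) := by nlinarith
      calc (K + 1) * (C2 * (C1 * (t + 1) + 1)) + 1
          ≤ (K + 1) * (C2 * ((C1 + 1) * (t + 1))) + (t + 1) :=
            Nat.add_le_add (Nat.mul_le_mul_left _ (Nat.mul_le_mul_left _ this)) (by omega)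
        _ = ((K + 1) * C2 * (C1 + 1) + 1) * (t + 1) := by ring
    calc K * w * T0 ≤ K * (((K + 1) * C2 * (C1 + 1) + 1) * (t + 1)) * T0 :=
          Nat.mul_le_mul_right _ (Nat.mul_le_mul_left _ e1)
      _ = K * ((K + 1) * C2 * (C1 + 1) + 1) * C1 * (t + 1) ^ 2 := by rw [hT0]; ring
      _ ≤ _ := Nat.mul_le_mul_right _ (Nat.le_add_right _ _)
  · calc K * T0 = K * C1 * (t + 1) := by rw [hT0]; ring
      _ ≤ _ := Nat.mul_le_mul_right _ (Nat.le_add_left _ _)

/-- The structure lemma: the set where some function of a family of functions of `K` linear forms is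
false has an outer approximation by a variety of degree `O((t + 1) ^ 2)`. -/
theorem base (p : ℕ) [Fact p.Prime] (K : ℕ) : ∃ C : ℕ, ∀ (n t : ℕ) (ι : Type)
    (φ : ι → Cube n → Bool), (∀ i, Jun p K (φ i)) →
    Out p (C * (t + 1) ^ 2) 1 t {x | ∃ i, φ i x = false} := by
  obtain ⟨C, hC⟩ := cert p K
  refine ⟨C + (p - 1) * C, fun n t ι φ hφ => ?_⟩
  have h := hC n t ι φ hφ
  refine ⟨{y | ∀ q : Cube n → ZMod p, (q ∈ Pol p n ((C + (p - 1) * C) * (t + 1) ^ 2) ∧
    ∃ (F : Finset (Fin n)) (U : Submodule (ZMod p) (Fin n → ZMod p)) (x : Cube n),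
      Nd F U x ⊆ {y | ∀ i, φ i y = true} ∧ ∀ y, q y ≠ 0 ↔ y ∈ Nd F U x) → q y = 0},
    ⟨{q | q ∈ Pol p n ((C + (p - 1) * C) * (t + 1) ^ 2) ∧
    ∃ (F : Finset (Fin n)) (U : Submodule (ZMod p) (Fin n → ZMod p)) (x : Cube n),
      Nd F U x ⊆ {y | ∀ i, φ i y = true} ∧ ∀ y, q y ≠ 0 ↔ y ∈ Nd F U x},
      fun q hq => hq.1, rfl⟩, ?_, ?_⟩
  · rintro x ⟨i, hi⟩ q ⟨-, F, U, z, hz, hq⟩
    by_contra hne
    have h1 := hz ((hq x).1 hne) i
    rw [hi] at h1
    exact Bool.false_ne_true h1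
  · rw [one_mul]
    refine le_trans (Nat.mul_le_mul_right _ (Set.ncard_le_ncard ?_ (Set.toFinite _))) h
    rintro x ⟨hxZ, hxA⟩
    refine ⟨fun i => ?_, ?_⟩
    · by_contra hne
      exact hxA ⟨i, Bool.eq_false_iff.2 hne⟩
    · rintro ⟨F, U, hF, hU, hN⟩
      obtain ⟨q, hq1, hq2⟩ := nd_pol F U x
      have hdeg : F.card + (p - 1) * Module.finrank (ZMod p) U ≤
          (C + (p - 1) * C) * (t + 1) ^ 2 := by
        have a1 : t + 1 ≤ (t + 1) ^ 2 := Nat.le_self_pow (by norm_num) _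
        calc F.card + (p - 1) * Module.finrank (ZMod p) U
            ≤ C * (t + 1) ^ 2 + (p - 1) * (C * (t + 1) ^ 2) :=
              Nat.add_le_add hF (Nat.mul_le_mul_left _ (hU.trans (Nat.mul_le_mul_left _ a1)))
          _ = _ := by ring
      have h2 := hxZ q ⟨Pol.le hdeg hq1, F, U, x, hN, hq2⟩
      exact (hq2 x).2 (mem_Nd_self F U x) h2

end Tw
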