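import Pool.Agent.Lib.MP_9abc2e_lc.TW.Frm

/-!
# TW: distance of Reed-Muller codes
-/

set_option autoImplicit false

namespace Tw

open Few

variable {p n : ℕ}

/-- Put a bit in front. -/
def rmCons (b : Bool) (y : Cube n) : Cube (n + 1) := Fin.cons b y

/-- The rest of a set of coordinates. -/
def rmTail (s : Finset (Fin (n + 1))) : Finset (Fin n) :=
  Finset.univ.filter fun j => j.succ ∈ s

theorem rm_cons_inj (b : Bool) : Function.Injective (rmCons b : Cube n → Cube (n + 1)) := by
  intro y z h
  funext j
  have h1 := congrFun h j.succ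
  exact h1

theorem rm_mono_cons (s : Finset (Fin (n + 1))) (b : Bool) (y : Cube n) :
    mono p s (rmCons b y) = (if (0 : Fin (n + 1)) ∈ s then bz p b else 1) *
      mono p (rmTail s) y := by
  classical
  have h1 : mono p s (rmCons b y) =
      ∏ i : Fin (n + 1), if i ∈ s then bz p (rmCons b y i) else 1 := by
    rw [Finset.prod_ite_mem, Finset.univ_inter]
    rfl
  have h2 : mono p (rmTail s) y = ∏ j : Fin n, if j.succ ∈ s then bz p (y j) else 1 := by
    unfold mono rmTail
    rw [Finset.prod_filter]
  rw [h1, h2, Fin.prod_univ_succ]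
  rfl

theorem rm_card_tail (s : Finset (Fin (n + 1))) :
    s.card = (if (0 : Fin (n + 1)) ∈ s then 1 else 0) + (rmTail s).card := by
  classical
  have h1 : s.card = ∑ i : Fin (n + 1), if i ∈ s then 1 else 0 := by
    rw [Finset.sum_ite_mem, Finset.univ_inter, Finset.card_eq_sum_ones]
  have h2 : (rmTail s).card = ∑ j : Fin n, if j.succ ∈ s then 1 else 0 := by
    unfold rmTail
    rw [Finset.card_filter]
  rw [h1, h2, Fin.sum_univ_succ]

/-- the restriction to a face -/
theorem rm_res {D : ℕ} {q : Cube (n + 1) → ZMod p} (hq : q ∈ Pol p (n + 1) D) (b : Bool) :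
    (fun y => q (rmCons b y)) ∈ Pol p n D := by
  classical
  refine Submodule.span_induction (p := fun q _ => (fun y => q (rmCons b y)) ∈ Pol p n D)
    ?_ ?_ ?_ ?_ hq
  · rintro _ ⟨s, hs, rfl⟩
    have h : (fun y => mono p s (rmCons b y)) =
        (if (0 : Fin (n + 1)) ∈ s then bz p b else 1) • mono p (rmTail s) := by
      funext y
      rw [rm_mono_cons, Pi.smul_apply, smul_eq_mul]
    rw [h]
    have h1 := rm_card_tail s
    exact Submodule.smul_mem _ _ (Submodule.subset_span ⟨rmTail s, by omega, rfl⟩)
  · exact Submodule.zero_mem _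
  · intro u v _ _ hu hv
    exact Submodule.add_mem _ hu hv
  · intro c u _ hu
    exact Submodule.smul_mem _ c hu

/-- the difference of the restrictions to the two faces -/
theorem rm_dif {D : ℕ} {q : Cube (n + 1) → ZMod p} (hq : q ∈ Pol p (n + 1) (D + 1)) :
    (fun y => q (rmCons true y) - q (rmCons false y)) ∈ Pol p n D := by
  classical
  refine Submodule.span_induction
    (p := fun q _ => (fun y => q (rmCons true y) - q (rmCons false y)) ∈ Pol p n D)
    ?_ ?_ ?_ ?_ hq
  · rintro _ ⟨s, hs, rfl⟩
    have h1 := rm_card_tail s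
    by_cases h0 : (0 : Fin (n + 1)) ∈ s
    · rw [if_pos h0] at h1
      have h : (fun y => mono p s (rmCons true y) - mono p s (rmCons false y)) =
          mono p (rmTail s) := by
        funext y
        rw [rm_mono_cons, rm_mono_cons, if_pos h0, if_pos h0]
        simp [bz]
      rw [h]
      exact Submodule.subset_span ⟨rmTail s, by omega, rfl⟩
    · have h : (fun y => mono p s (rmCons true y) - mono p s (rmCons false y)) =
          (0 : Cube n → ZMod p) := by
        funext y
        rw [rm_mono_cons, rm_mono_cons, if_neg h0, if_neg h0, sub_self]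
        rfl
      rw [h]
      exact Submodule.zero_mem _
  · have h : (fun y => (0 : Cube (n + 1) → ZMod p) (rmCons true y) -
        (0 : Cube (n + 1) → ZMod p) (rmCons false y)) = (0 : Cube n → ZMod p) := by
      funext y
      exact sub_self _
    rw [h]
    exact Submodule.zero_mem _
  · intro u v _ _ hu hv
    have h : (fun y => (u + v) (rmCons true y) - (u + v) (rmCons false y)) =
        (fun y => u (rmCons true y) - u (rmCons false y)) +
          fun y => v (rmCons true y) - v (rmCons false y) := by
      funext y
      simp only [Pi.add_apply]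
      ring
    rw [h]
    exact Submodule.add_mem _ hu hv
  · intro c u _ hu
    have h : (fun y => (c • u) (rmCons true y) - (c • u) (rmCons false y)) =
        c • fun y => u (rmCons true y) - u (rmCons false y) := by
      funext y
      simp only [Pi.smul_apply, smul_eq_mul]
      ring
    rw [h]
    exact Submodule.smul_mem _ c hu

/-- the difference vanishes in degree `0` -/
theorem rm_dif0 {q : Cube (n + 1) → ZMod p} (hq : q ∈ Pol p (n + 1) 0) (y : Cube n) :
    q (rmCons true y) = q (rmCons false y) := by
  refine Submodule.span_induction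
    (p := fun q _ => q (rmCons true y) = q (rmCons false y)) ?_ ?_ ?_ ?_ hq
  · rintro _ ⟨s, hs, rfl⟩
    have h : s = ∅ := Finset.card_eq_zero.1 (Nat.le_zero.1 hs)
    subst h
    rfl
  · rfl
  · intro u v _ _ hu hv
    rw [Pi.add_apply, Pi.add_apply, hu, hv]
  · intro c u _ hu
    rw [Pi.smul_apply, Pi.smul_apply, hu]

/-- the count of nonzeros -/
theorem rm_count (q : Cube (n + 1) → ZMod p) :
    {y | q (rmCons true y) ≠ 0}.ncard + {y | q (rmCons false y) ≠ 0}.ncard ≤
      {x | q x ≠ 0}.ncard := by
  rw [← Set.ncard_image_of_injective {y | q (rmCons true y) ≠ 0} (rm_cons_inj true),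
    ← Set.ncard_image_of_injective {y | q (rmCons false y) ≠ 0} (rm_cons_inj false),
    ← Set.ncard_union_eq ?_ (Set.toFinite _) (Set.toFinite _)]
  · refine Set.ncard_le_ncard ?_ (Set.toFinite _)
    rintro x (⟨y, hy, rfl⟩ | ⟨y, hy, rfl⟩)
    · exact hy
    · exact hy
  · rw [Set.disjoint_left]
    rintro x ⟨y, _, rfl⟩ ⟨z, _, h⟩
    have h1 : false = true := congrFun h 0
    exact Bool.false_ne_true h1

/-- A function of degree at most `D` which is not zero has at least `2 ^ (n - D)` nonzero values. -/
theorem rm_dist [Fact p.Prime] {D : ℕ} {q : Cube n → ZMod p} (hq : q ∈ Pol p n D)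
    (h : ∃ x, q x ≠ 0) : 2 ^ n ≤ 2 ^ D * {x | q x ≠ 0}.ncard := by
  induction n generalizing D with
  | zero =>
    have h1 : 0 < {x | q x ≠ 0}.ncard := (Set.ncard_pos (Set.toFinite _)).2 h
    have h2 : 0 < 2 ^ D := by positivity
    rw [pow_zero]
    exact Nat.mul_pos h2 h1
  | succ n ih =>
    have hcount := rm_count q
    have key : ∀ b : Bool, (∃ y, q (rmCons b y) ≠ 0) → (∀ y, q (rmCons (!b) y) = 0) →
        2 ^ (n + 1) ≤ 2 ^ D * {y | q (rmCons b y) ≠ 0}.ncard := by
      intro b hb hb'
      cases D with
      | zero =>
        exfalso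
        obtain ⟨y, hy⟩ := hb
        have h1 := rm_dif0 hq y
        have h2 := hb' y
        cases b
        · rw [← h1] at hy
          exact hy h2
        · rw [h1] at hy
          exact hy h2
      | succ D =>
        have h1 := rm_dif hq
        have h2 : ∀ y, (q (rmCons true y) - q (rmCons false y) ≠ 0 ↔ q (rmCons b y) ≠ 0) := by
          intro y
          have h3 := hb' y
          cases b
          · change q (rmCons true y) = 0 at h3
            rw [h3, zero_sub, neg_ne_zero]
          · change q (rmCons false y) = 0 at h3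
            rw [h3, sub_zero]
        have h4 := ih h1 (by
          obtain ⟨y, hy⟩ := hb
          exact ⟨y, (h2 y).2 hy⟩)
        have h5 : {y | q (rmCons true y) - q (rmCons false y) ≠ 0} =
            {y | q (rmCons b y) ≠ 0} := by
          ext y
          exact h2 y
        rw [h5] at h4
        calc 2 ^ (n + 1) = 2 * 2 ^ n := by ring
          _ ≤ 2 * (2 ^ D * {y | q (rmCons b y) ≠ 0}.ncard) := Nat.mul_le_mul_left 2 h4
          _ = 2 ^ (D + 1) * {y | q (rmCons b y) ≠ 0}.ncard := by ring
    have hD : 0 < 2 ^ D := by positivity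
    by_cases ht : ∃ y, q (rmCons true y) ≠ 0
    · by_cases hf : ∃ y, q (rmCons false y) ≠ 0
      · have h1 := ih (rm_res hq true) ht
        have h2 := ih (rm_res hq false) hf
        calc 2 ^ (n + 1) = 2 ^ n + 2 ^ n := by ring
          _ ≤ 2 ^ D * {y | q (rmCons true y) ≠ 0}.ncard +
              2 ^ D * {y | q (rmCons false y) ≠ 0}.ncard := Nat.add_le_add h1 h2
          _ = 2 ^ D * ({y | q (rmCons true y) ≠ 0}.ncard +
              {y | q (rmCons false y) ≠ 0}.ncard) := by ring
          _ ≤ 2 ^ D * {x | q x ≠ 0}.ncard := Nat.mul_le_mul_left _ hcount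
      · push Not at hf
        exact (key true ht hf).trans (Nat.mul_le_mul_left _
          ((Nat.le_add_right _ _).trans hcount))
    · by_cases hf : ∃ y, q (rmCons false y) ≠ 0
      · push Not at ht
        exact (key false hf ht).trans (Nat.mul_le_mul_left _
          ((Nat.le_add_left _ _).trans hcount))
      · exfalso
        push Not at ht hf
        obtain ⟨x, hx⟩ := h
        have hx1 : x = rmCons (x 0) (fun j => x j.succ) := by
          funext i
          refine Fin.cases ?_ (fun j => ?_) i
          · rfl
          · rfl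
        rw [hx1] at hx
        cases h0 : x 0
        · rw [h0] at hx
          exact hx (hf _)
        · rw [h0] at hx
          exact hx (ht _)

end Tw
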